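import Pool.Agent.Lib.MP_154526_nt.Assoc.Spec
import Pool.Agent.Lib.MP_154526_nt.Low.Basic

/-!
# DUAL: the pentagon equation implies duality
-/

set_option autoImplicit false

namespace MP154526.Assoc

open Finset MP154526.Bound MP154526.Top MP154526.Top.Pass2 MP154526.Lin MP154526.Low

namespace DualM

/-! ### sums over words -/

section

variable {M : Type} [AddCommMonoid M]

theorem sumW_add (n : ℕ) (F G : List Bool → M) :
    sumW n (fun w => F w + G w) = sumW n F + sumW n G := by
  induction n generalizing F G with
  | zero => rfl
  | succ n ih =>
    show sumW n _ + sumW n _ = _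
    rw [ih, ih]
    show _ = (sumW n _ + sumW n _) + (sumW n _ + sumW n _)
    abel

theorem sumW_map {N : Type} [AddCommMonoid N] (g : M →+ N) (n : ℕ) (F : List Bool → M) :
    sumW n (fun w => g (F w)) = g (sumW n F) := by
  induction n generalizing F with
  | zero => rfl
  | succ n ih =>
    show sumW n (fun w => g (F (false :: w))) + sumW n (fun w => g (F (true :: w))) = _
    rw [ih fun w => F (false :: w), ih fun w => F (true :: w), ← map_add]
    rfl

theorem sumW_zero (n : ℕ) : sumW n (fun _ => (0 : M)) = 0 := by
  induction n with
  | zero => rfl
  | succ n ih =>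
    show sumW n _ + sumW n _ = _
    rw [ih, add_zero]

theorem sumW_congr (n : ℕ) (F G : List Bool → M) (h : ∀ w : List Bool, w.length = n → F w = G w) :
    sumW n F = sumW n G := by
  induction n generalizing F G with
  | zero => exact h [] rfl
  | succ n ih =>
    show sumW n _ + sumW n _ = sumW n _ + sumW n _
    rw [ih _ _ fun w hw => h (false :: w) (by rw [List.length_cons, hw]),
      ih _ _ fun w hw => h (true :: w) (by rw [List.length_cons, hw])]

theorem sumW_not (n : ℕ) (F : List Bool → M) : sumW n (fun w => F (w.map (!·))) = sumW n F := by
  induction n generalizing F with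
  | zero => rfl
  | succ n ih =>
    show sumW n (fun w => F (true :: w.map (!·))) + sumW n (fun w => F (false :: w.map (!·))) = _
    rw [ih fun w => F (true :: w), ih fun w => F (false :: w), add_comm]
    rfl

/-- insertion of a letter -/
theorem sumW_ins (n : ℕ) (F : List Bool → M) :
    sumW n (fun u => shs F [false] u) + sumW n (fun u => shs F [true] u) =
      (n + 1) • sumW (n + 1) F := by
  induction n generalizing F with
  | zero =>
    show shs F [false] [] + shs F [true] [] = _
    rw [shs_nil_right, shs_nil_right, zero_add, one_smul]
    rfl
  | succ n ih =>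
    have e : ∀ a : Bool, sumW (n + 1) (fun u => shs F [a] u) =
        (sumW n (fun v => F (a :: false :: v)) + sumW n (fun v => F (a :: true :: v))) +
        (sumW n (fun v => shs (fun l => F (false :: l)) [a] v) +
          sumW n (fun v => shs (fun l => F (true :: l)) [a] v)) := by
      intro a
      show sumW n (fun v => shs F [a] (false :: v)) + sumW n (fun v => shs F [a] (true :: v)) = _
      simp only [shs_cons_cons, shs_nil_left]
      rw [sumW_add, sumW_add]
      abel
    rw [e, e]
    have h1 := ih fun l => F (false :: l)
    have h2 := ih fun l => F (true :: l)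
    have e2 : sumW (n + 1 + 1) F =
        (sumW n (fun v => F (false :: false :: v)) + sumW n (fun v => F (false :: true :: v))) +
        (sumW n (fun v => F (true :: false :: v)) + sumW n (fun v => F (true :: true :: v))) := rfl
    have e3 : sumW (n + 1 + 1) F = sumW (n + 1) (fun l => F (false :: l)) +
        sumW (n + 1) (fun l => F (true :: l)) := rfl
    calc _ = sumW (n + 1 + 1) F + ((sumW n (fun v => shs (fun l => F (false :: l)) [false] v) +
          sumW n (fun v => shs (fun l => F (false :: l)) [true] v)) +
          (sumW n (fun v => shs (fun l => F (true :: l)) [false] v) +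
          sumW n (fun v => shs (fun l => F (true :: l)) [true] v))) := by
          rw [e2]
          abel
      _ = sumW (n + 1 + 1) F + (n + 1) • sumW (n + 1 + 1) F := by
          rw [h1, h2, ← smul_add, ← e3]
      _ = _ := by
          rw [add_smul (n + 1) 1, one_smul, add_comm]

end

section

variable {K : Type} [CommRing K]

/-- the sum of a multiplicative functional without linear terms over the words of length `n` -/
theorem sumW_grp [Algebra ℚ K] (F : List Bool → K) (h0 : ∀ a, F [a] = 0)
    (hF : ∀ a v, shs F [a] v = F [a] * F v) (n : ℕ) : sumW (n + 1) F = 0 := by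
  have h1 := sumW_ins n F
  have h2 : ∀ a : Bool, sumW n (fun u => shs F [a] u) = 0 := by
    intro a
    rw [← sumW_zero n]
    refine sumW_congr n _ _ fun w _ => ?_
    rw [hF, h0, zero_mul]
  rw [h2, h2, add_zero] at h1
  have h3 : ((n + 1 : ℕ) : ℚ) • sumW (n + 1) F = 0 := by
    rw [Nat.cast_smul_eq_nsmul]
    exact h1.symm
  have h4 := congrArg (fun z => (((n + 1 : ℕ) : ℚ))⁻¹ • z) h3
  simp only [smul_smul, smul_zero] at h4
  rwa [inv_mul_cancel₀ (by positivity), one_smul] at h4

/-- characters -/
theorem shs_char (c : Bool → K) (F : List Bool → K) (u v : List Bool) :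
    shs (fun w => (w.map c).prod * F w) u v = (u.map c).prod * (v.map c).prod * shs F u v := by
  induction u, v using shs_induct generalizing F with
  | h0 W => simp
  | h1 a σ => simp
  | h2 a σ b W ha hb =>
    rw [shs_cons_cons, shs_cons_cons]
    have e1 : shs (fun l => ((a :: l).map c).prod * F (a :: l)) σ (b :: W) =
        c a * shs (fun l => (l.map c).prod * F (a :: l)) σ (b :: W) := by
      have := shs_map (AddMonoidHom.mulLeft (c a)) (fun l => (l.map c).prod * F (a :: l)) σ (b :: W)
      rw [AddMonoidHom.coe_mulLeft] at this
      rw [this]
      congr 1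
      funext l
      rw [List.map_cons, List.prod_cons, mul_assoc]
    have e2 : shs (fun l => ((b :: l).map c).prod * F (b :: l)) (a :: σ) W =
        c b * shs (fun l => (l.map c).prod * F (b :: l)) (a :: σ) W := by
      have := shs_map (AddMonoidHom.mulLeft (c b)) (fun l => (l.map c).prod * F (b :: l)) (a :: σ) W
      rw [AddMonoidHom.coe_mulLeft] at this
      rw [this]
      congr 1
      funext l
      rw [List.map_cons, List.prod_cons, mul_assoc]
    rw [e1, e2, ha, hb]
    simp only [List.map_cons, List.prod_cons]
    ring

end

/-! ### the antipode -/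

section

variable {K : Type} [CommRing K]

/-- `∑_{w = u v} (-1)^{|u|} F(u^rev ⧢ v)`, telescoping -/
theorem tele (F : List Bool → K) : ∀ (v u : List Bool),
    ∑ i ∈ range (v.length + 1), (-1) ^ i * shs F ((v.take i).reverse ++ u) (v.drop i) =
      (match u with
        | [] => 0
        | a :: u => shs (fun l => F (a :: l)) u v) + (if u = [] ∧ v = [] then F [] else 0) := by
  intro v
  induction v generalizing F with
  | nil =>
    intro u
    rw [List.length_nil, zero_add, Finset.sum_range_one]
    rcases u with _ | ⟨a, u⟩ <;> simp
  | cons b v ih =>
    intro u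
    rw [List.length_cons, Finset.sum_range_succ']
    have e : ∑ i ∈ range (v.length + 1), (-1 : K) ^ (i + 1) *
        shs F (((b :: v).take (i + 1)).reverse ++ u) ((b :: v).drop (i + 1)) =
        -∑ i ∈ range (v.length + 1), (-1 : K) ^ i *
          shs F ((v.take i).reverse ++ (b :: u)) (v.drop i) := by
      rw [← Finset.sum_neg_distrib]
      refine Finset.sum_congr rfl fun i _ => ?_
      rw [List.take_succ_cons, List.drop_succ_cons, List.reverse_cons, List.append_assoc,
        List.singleton_append, pow_succ]
      ring
    rw [e, ih F (b :: u)]
    simp only [List.take_zero, List.reverse_nil, List.nil_append, List.drop_zero, pow_zero, one_mul,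
      reduceCtorEq, false_and, and_false, if_false, add_zero]
    rcases u with _ | ⟨a, u⟩
    · simp
    · simp only [shs_cons_cons]
      ring

/-- the antipode of a multiplicative functional -/
theorem antipode (F : List Bool → K) (h1 : F [] = 1)
    (hF : ∀ u v, shs F u v = F u * F v) (w : List Bool) :
    ∑ i ∈ range (w.length + 1), ((-1) ^ (w.take i).length * F (w.take i).reverse) * F (w.drop i) =
      if w = [] then 1 else 0 := by
  have h := tele F w []
  simp only [List.append_nil, true_and, zero_add] at h
  rw [h1] at h
  rw [← h]
  refine Finset.sum_congr rfl fun i hi => ?_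
  rw [Finset.mem_range] at hi
  rw [hF, List.length_take, min_eq_left (by omega)]
  ring

/-- uniqueness of the left inverse -/
theorem inv_unique (p q r : List Bool → K) (h1 : p [] = 1)
    (h : ∀ w : List Bool, ∑ i ∈ range (w.length + 1), q (w.take i) * p (w.drop i) =
      ∑ i ∈ range (w.length + 1), r (w.take i) * p (w.drop i)) (w : List Bool) : q w = r w := by
  induction hn : w.length using Nat.strong_induction_on generalizing w with
  | _ n ih =>
    have h2 := h w
    rw [Finset.sum_range_succ, Finset.sum_range_succ (fun i => r (w.take i) * p (w.drop i))] at h2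
    rw [List.take_length, List.drop_length, h1, mul_one, mul_one] at h2
    have h3 : ∑ i ∈ range w.length, q (w.take i) * p (w.drop i) =
        ∑ i ∈ range w.length, r (w.take i) * p (w.drop i) := by
      refine Finset.sum_congr rfl fun i hi => ?_
      rw [Finset.mem_range] at hi
      rw [ih _ (by rw [← hn]; exact hi) (w.take i) (by rw [List.length_take]; omega)]
    rw [h3] at h2
    exact add_left_cancel h2

end

/-! ### the truncated free algebra -/

section

variable {K : Type} [CommRing K]

/-- equality of the coefficients at the words of length `< N` -/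
def rc (K : Type) [CommRing K] (N : ℕ) : RingCon (FA K Bool) where
  r f g := ∀ w : List Bool, w.length < N → cf f w = cf g w
  iseqv := ⟨fun _ _ _ => rfl, fun h w hw => (h w hw).symm, fun h h' w hw => (h w hw).trans (h' w hw)⟩
  mul' := by
    intro f f' g g' h h' w hw
    rw [cf_mul, cf_mul]
    refine Finset.sum_congr rfl fun i _ => ?_
    rw [h _ (by rw [List.length_take]; omega), h' _ (by rw [List.length_drop]; omega)]
  add' := by
    intro f f' g g' h h' w hw
    rw [cf_add, cf_add, h w hw, h' w hw]

/-- the truncated algebra -/
abbrev EN (K : Type) [CommRing K] (N : ℕ) : Type := (rc K N).Quotient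

/-- the projection -/
noncomputable def pr (N : ℕ) : FA K Bool →ₐ[K] EN K N := (rc K N).mkₐ K

theorem pr_eq {N : ℕ} {f g : FA K Bool} (h : pr N f = pr N g) (w : List Bool)
    (hw : w.length < N) : cf f w = cf g w := (rc K N).eq.1 h w hw

theorem eq_pr {N : ℕ} {f g : FA K Bool} (h : ∀ w : List Bool, w.length < N → cf f w = cf g w) :
    pr N f = pr N g := (rc K N).eq.2 h

/-- products of elements without constant term -/
theorem cf_prod (l : List (FA K Bool)) (h : ∀ x ∈ l, cf x [] = 0) (w : List Bool)
    (hw : w.length < l.length) : cf l.prod w = 0 := by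
  induction l generalizing w with
  | nil => simp at hw
  | cons x l ih =>
    rw [List.prod_cons, cf_mul]
    refine Finset.sum_eq_zero fun i _ => ?_
    rcases Nat.eq_zero_or_pos i with rfl | hi
    · rw [List.take_zero, h x (by simp), zero_mul]
    · by_cases hl : i ≤ w.length
      · rw [ih (fun y hy => h y (by simp [hy])) (w.drop i) (by
          rw [List.length_drop]
          simp only [List.length_cons] at hw
          omega), mul_zero]
      · rcases w with _ | ⟨c, w⟩
        · rw [List.take_nil, h x (by simp), zero_mul]
        · rw [ih (fun y hy => h y (by simp [hy])) ((c :: w).drop i) (by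
            rw [List.length_drop]
            simp only [List.length_cons] at hw ⊢
            omega), mul_zero]

theorem map_val {E E' : Type} [Ring E] [Algebra K E] [Ring E'] [Algebra K E'] (g : E →ₐ[K] E')
    (N : ℕ) (Φ : List Bool → K) (a b : E) : val N Φ (g a) (g b) = g (val N Φ a b) := by
  unfold val
  rw [map_sum]
  refine Finset.sum_congr rfl fun n _ => ?_
  have h := sumW_map (g : E →+ E') n fun w =>
    Φ w • (w.map fun l => if l then -b else a).prod
  have h' : (g : E →+ E') (sumW n fun w => Φ w • (w.map fun l => if l then -b else a).prod) =
      g (sumW n fun w => Φ w • (w.map fun l => if l then -b else a).prod) := rfl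
  rw [← h', ← h]
  refine sumW_congr n _ _ fun w _ => ?_
  show _ = g (Φ w • (w.map fun l => if l then -b else a).prod)
  rw [map_smul, map_list_prod, List.map_map]
  congr 3
  funext l
  cases l <;> simp

/-- the coefficients of a sum over words -/
theorem cf_sumW (n : ℕ) (c : List Bool → K) (w : List Bool) :
    cf (sumW n fun u => c u • ow K u) w = if w.length = n then c w else 0 := by
  induction n generalizing c w with
  | zero =>
    show cf (c [] • ow K []) w = _
    rw [cf_smul]
    rcases w with _ | ⟨a, w⟩
    · rw [cf_ow_self, mul_one, if_pos List.length_nil]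
    · rw [cf_ow_ne (by simp), mul_zero, if_neg (by simp)]
  | succ n ih =>
    have e : ∀ a : Bool, sumW n (fun u => c (a :: u) • ow K (a :: u)) =
        ow K [a] * sumW n (fun u => c (a :: u) • ow K u) := by
      intro a
      have h := sumW_map (AddMonoidHom.mulLeft (ow K [a])) n fun u => c (a :: u) • ow K u
      rw [AddMonoidHom.coe_mulLeft] at h
      rw [← h]
      refine sumW_congr n _ _ fun u _ => ?_
      rw [mul_smul_comm, ← ow_cons]
    show cf (sumW n (fun u => c (false :: u) • ow K (false :: u)) +
      sumW n (fun u => c (true :: u) • ow K (true :: u))) w = _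
    rw [e, e, cf_add]
    rcases w with _ | ⟨a, w⟩
    · rw [cf_ow_mul_nil, cf_ow_mul_nil, add_zero, if_neg (by simp)]
    · rw [cf_ow_mul_cons, cf_ow_mul_cons]
      cases a
      · rw [if_pos rfl, if_neg (by decide), add_zero, ih]
        simp
      · rw [if_neg (by decide), if_pos rfl, zero_add, ih]
        simp

/-- the coefficients of `val` at two letters -/
theorem cf_val (N : ℕ) (Φ : List Bool → K) (w : List Bool) (hw : w.length < N) :
    cf (val N Φ (ow K [false]) (ow K [true])) w = (-1) ^ w.count true * Φ w := by
  unfold val
  have e : ∀ n, (sumW n fun w => Φ w •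
      (w.map fun l => if l then -(ow K [true]) else ow K [false]).prod) =
      sumW n fun w => ((-1) ^ w.count true * Φ w) • ow K w := by
    intro n
    refine sumW_congr n _ _ fun w hw' => ?_
    have e2 : (w.map fun l => if l then -(ow K [true]) else ow K [false]).prod =
        ((-1 : K) ^ w.count true) • ow K w := by
      clear hw'
      induction w with
      | nil => simp [ow_nil]
      | cons a w ih =>
        rw [List.map_cons, List.prod_cons, ih, ow_cons a w]
        cases a
        · simp
        · simp [pow_succ]
    rw [e2, smul_smul, mul_comm]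
  rw [cf_sum, Finset.sum_eq_single w.length]
  · rw [e, cf_sumW, if_pos rfl]
  · intro n _ hn
    rw [e, cf_sumW, if_neg (fun h => hn h.symm)]
  · intro h
    exact absurd (Finset.mem_range.2 hw) h

theorem cf_val' (N : ℕ) (Φ : List Bool → K) (w : List Bool) (hw : w.length < N) :
    cf (val N Φ (ow K [true]) (ow K [false])) w =
      (-1) ^ w.count false * Φ (w.map (!·)) := by
  unfold val
  have e : ∀ n, (sumW n fun w => Φ w •
      (w.map fun l => if l then -(ow K [false]) else ow K [true]).prod) =
      sumW n fun w => ((-1) ^ w.count false * Φ (w.map (!·))) • ow K w := by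
    intro n
    rw [← sumW_not]
    refine sumW_congr n _ _ fun w hw' => ?_
    have e2 : ((w.map (!·)).map fun l => if l then -(ow K [false]) else ow K [true]).prod =
        ((-1 : K) ^ w.count false) • ow K w := by
      clear hw'
      induction w with
      | nil => simp [ow_nil]
      | cons a w ih =>
        rw [List.map_cons, List.map_cons, List.prod_cons, ih, ow_cons a w]
        cases a
        · simp [pow_succ]
        · simp
    rw [e2, smul_smul, mul_comm]
  rw [cf_sum, Finset.sum_eq_single w.length]
  · rw [e, cf_sumW, if_pos rfl]
  · intro n _ hn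
    rw [e, cf_sumW, if_neg (fun h => hn h.symm)]
  · intro h
    exact absurd (Finset.mem_range.2 hw) h

/-- values at proportional elements -/
theorem val_one {K : Type} [CommRing K] [Algebra ℚ K] {E : Type} [Ring E] [Algebra K E]
    (Φ : List Bool → K) (h1 : Φ [] = 1) (h0 : ∀ a, Φ [a] = 0)
    (hF : ∀ u v, shs Φ u v = Φ u * Φ v) (N : ℕ) (hN : 1 ≤ N) (c d : K) (x : E) :
    val N Φ (c • x) (-(d • x)) = 1 := by
  unfold val
  have e : ∀ n, (sumW n fun w => Φ w •
      (w.map fun l => if l then -(-(d • x)) else c • x).prod) =
      (sumW n fun w => (w.map fun l => if l then d else c).prod * Φ w) • x ^ n := by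
    intro n
    have h := sumW_map (AddMonoidHom.flip (smulAddHom K E) (x ^ n)) n fun w =>
      (w.map fun l => if l then d else c).prod * Φ w
    have h' : (AddMonoidHom.flip (smulAddHom K E) (x ^ n))
        (sumW n fun w => (w.map fun l => if l then d else c).prod * Φ w) =
        (sumW n fun w => (w.map fun l => if l then d else c).prod * Φ w) • x ^ n := rfl
    rw [← h', ← h]
    refine sumW_congr n _ _ fun w hw => ?_
    show _ = ((w.map fun l => if l then d else c).prod * Φ w) • x ^ n
    have e2 : (w.map fun l => if l then -(-(d • x)) else c • x).prod =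
        ((w.map fun l => if l then d else c).prod) • x ^ w.length := by
      clear hw
      induction w with
      | nil => simp
      | cons a w ih =>
        rw [List.map_cons, List.prod_cons, ih, List.map_cons, List.prod_cons, List.length_cons,
          pow_succ']
        cases a
        · simp [smul_smul, mul_comm]
        · simp [smul_smul, mul_comm]
    rw [e2, hw, smul_smul, mul_comm]
  obtain ⟨N, rfl⟩ : ∃ M, N = M + 1 := ⟨N - 1, by omega⟩
  rw [Finset.sum_range_succ']
  have e0 : ∑ n ∈ range N, (sumW (n + 1) fun w => Φ w •
      (w.map fun l => if l then -(-(d • x)) else c • x).prod) = 0 := by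
    refine Finset.sum_eq_zero fun n _ => ?_
    rw [e, sumW_grp, zero_smul]
    · intro a
      rw [h0, mul_zero]
    · intro a v
      have h := shs_char (fun l : Bool => if l then d else c) Φ [a] v
      rw [h, hF]
      ring
  rw [e0, zero_add]
  show Φ [] • ([].map fun l : Bool => if l then -(-(d • x)) else c • x).prod = 1
  rw [h1, one_smul]
  rfl

/-- the family of elements -/
noncomputable def tt (a b : FA K Bool) (i j : Fin 4) : FA K Bool :=
  if i = j then 0
  else if (i = 0 ∧ j = 1) ∨ (i = 1 ∧ j = 0) ∨ (i = 2 ∧ j = 3) ∨ (i = 3 ∧ j = 2) then a
  else if (i = 1 ∧ j = 2) ∨ (i = 2 ∧ j = 1) ∨ (i = 0 ∧ j = 3) ∨ (i = 3 ∧ j = 0) then b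
  else -a - b

end

end DualM

open DualM in
/-- DUAL -/
theorem specDual : SpecDual := by
  intro K _ _ L hL hP w
  set Φ : List Bool → K := fun w => L (wd w) with hΦ
  have h1 : Φ [] = 1 := hL.one
  have h0 : ∀ a, Φ [a] = 0 := by
    intro a
    cases a
    · exact hL.x
    · exact hL.y
  have hF : ∀ u v, shs Φ u v = Φ u * Φ v := by
    intro u v
    have h := map_sh (L : H →+ K) u v
    have h' : shs Φ u v = L (sh u v) := h.symm
    rw [h', ← shuffle_wd, hL.mul]
  -- the product of the two values
  have hmul : ∀ w : List Bool, ∑ i ∈ range (w.length + 1),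
      ((-1) ^ (w.take i).count false * Φ ((w.take i).map (!·))) *
        ((-1) ^ (w.drop i).count true * Φ (w.drop i)) = if w = [] then 1 else 0 := by
    intro w
    set N := w.length + 1 with hN
    set a : FA K Bool := ow K [false] with ha
    set b : FA K Bool := ow K [true] with hb
    have h := hP (EN K N) N (fun i j => pr N (tt a b i j)) ?_ ?_
    · have t01 : tt a b 0 1 = a := rfl
      have t02 : tt a b 0 2 = -a - b := rfl
      have t12 : tt a b 1 2 = b := rfl
      have t13 : tt a b 1 3 = -a - b := rfl
      have t23 : tt a b 2 3 = a := rfl
      have hv : ∀ x y, val N Φ (pr N x) (pr N y) = pr N (val N Φ x y) :=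
        fun x y => map_val (pr N) N Φ x y
      simp only [t01, t02, t12, t13, t23, ← map_add, hv, ← map_mul] at h
      have e1 : b + (-a - b) = -a := by abel
      have e2 : -a - b + b = -a := by abel
      have e3 : a + (-a - b) = -b := by abel
      have e4 : -a - b + a = -b := by abel
      rw [e1, e2, e3, e4] at h
      have v1 : val N Φ a (-a) = 1 := by
        have := val_one Φ h1 h0 hF N (by omega) 1 1 a
        simpa using this
      have v2 : val N Φ (-a) a = 1 := by
        have := val_one Φ h1 h0 hF N (by omega) (-1) (-1) a
        simpa using this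
      have v3 : val N Φ (-b) (-b) = 1 := by
        have := val_one Φ h1 h0 hF N (by omega) (-1) 1 b
        simpa using this
      rw [v1, v2, v3, mul_one, mul_one] at h
      have h2 := pr_eq h w (by omega)
      rw [cf_mul] at h2
      have h3 : cf (1 : FA K Bool) w = if w = [] then 1 else 0 := by
        by_cases hw : w = []
        · rw [if_pos hw, hw, cf_one_nil]
        · rw [if_neg hw, cf_one_ne hw]
      rw [← h3, h2]
      refine Finset.sum_congr rfl fun i _ => ?_
      rw [cf_val' N Φ _ (by rw [List.length_take]; omega), cf_val N Φ _ (by
        rw [List.length_drop]; omega)]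
    · have hs : ∀ i j k : Fin 4, i ≠ j → i ≠ k → j ≠ k →
          tt a b i k + tt a b j k = -tt a b i j := by
        intro i j k hij hik hjk
        fin_cases i <;> fin_cases j <;> fin_cases k <;>
          first
          | exact absurd rfl hij
          | exact absurd rfl hik
          | exact absurd rfl hjk
          | (simp [tt]; try abel)
      refine ⟨?_, ?_, ?_⟩
      · intro i j
        show pr N _ = pr N _
        congr 1
        fin_cases i <;> fin_cases j <;> rfl
      · intro i j k l hij hik hil hjk hjl hkl
        show pr N _ * pr N _ = pr N _ * pr N _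
        rw [← map_mul, ← map_mul]
        congr 1
        fin_cases i <;> fin_cases j <;> fin_cases k <;> fin_cases l <;>
          first
          | exact absurd rfl hij
          | exact absurd rfl hik
          | exact absurd rfl hil
          | exact absurd rfl hjk
          | exact absurd rfl hjl
          | exact absurd rfl hkl
          | rfl
      · intro i j k hij hik hjk
        show pr N _ * (pr N _ + pr N _) = (pr N _ + pr N _) * pr N _
        rw [← map_add, hs i j k hij hik hjk, ← map_mul, ← map_mul, mul_neg, neg_mul]
    · intro l hl
      have e1 : (l.map fun p => pr N (tt a b p.1 p.2)).prod =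
          pr N (l.map fun p => tt a b p.1 p.2).prod := by
        rw [map_list_prod, List.map_map]
        rfl
      rw [e1, ← map_zero (pr (K := K) N)]
      refine eq_pr fun v hv => ?_
      rw [cf_prod _ _ v (by rw [List.length_map, hl]; exact hv), cf_zero]
      intro x hx
      obtain ⟨p, _, rfl⟩ := List.mem_map.1 hx
      have ca : cf a [] = 0 := cf_ow_ne (by simp)
      have cb : cf b [] = 0 := cf_ow_ne (by simp)
      unfold tt
      split_ifs
      · rfl
      · exact ca
      · exact cb
      · rw [cf_sub, cf_neg, ca, cb]
        simp
  -- the antipode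
  set p : List Bool → K := fun w => (-1) ^ w.count true * Φ w with hp
  have hchar : ∀ w : List Bool, (-1 : K) ^ w.count true = (w.map fun l => if l then (-1 : K) else 1).prod := by
    intro w
    induction w with
    | nil => simp
    | cons a w ih =>
      rw [List.map_cons, List.prod_cons, ← ih]
      cases a
      · simp
      · simp [pow_succ]
  have hp1 : p [] = 1 := by
    rw [hp]
    simp [h1]
  have hpF : ∀ u v, shs p u v = p u * p v := by
    intro u v
    have e : p = fun w => (w.map fun l => if l then (-1 : K) else 1).prod * Φ w := by
      funext w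
      rw [hp, ← hchar]
    have h := shs_char (fun l : Bool => if l then (-1 : K) else 1) Φ u v
    rw [e, h, hF]
    ring
  have hinv := inv_unique p (fun w => (-1) ^ w.count false * Φ (w.map (!·)))
    (fun w => (-1) ^ w.length * p w.reverse) hp1
    (fun w => (hmul w).trans (antipode p hp1 hpF w).symm)
  have h2 := hinv w.reverse
  simp only [hp, List.reverse_reverse, List.length_reverse, List.count_reverse,
    List.map_reverse] at h2
  have hlen : w.count false + w.count true = w.length := List.count_false_add_count_true w
  rw [← hlen, pow_add] at h2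
  have h3 : ((-1 : K) ^ w.count true) * (-1) ^ w.count true = 1 := by
    rw [← mul_pow]
    simp
  have h4 : ((-1 : K) ^ w.count false) * (-1) ^ w.count false = 1 := by
    rw [← mul_pow]
    simp
  show Φ (w.reverse.map (!·)) = Φ w
  rw [List.map_reverse]
  calc Φ (w.map (!·)).reverse =
      ((-1 : K) ^ w.count false * (-1) ^ w.count false) * Φ (w.map (!·)).reverse := by
        rw [h4, one_mul]
    _ = (-1) ^ w.count false * ((-1) ^ w.count false * Φ (w.map (!·)).reverse) := by ring
    _ = (-1) ^ w.count false * ((-1) ^ w.count false * (-1) ^ w.count true *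
          ((-1) ^ w.count true * Φ w)) := by rw [h2]
    _ = ((-1) ^ w.count false * (-1) ^ w.count false) *
          ((-1) ^ w.count true * (-1) ^ w.count true) * Φ w := by ring
    _ = Φ w := by rw [h3, h4, one_mul, one_mul]

end MP154526.Assoc
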