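import Pool.Agent.Lib.MP_154526_nt.Assoc.Spec
import Pool.Agent.Lib.MP_154526_nt.Low.Tr
import Pool.Agent.Lib.MP_154526_nt.Low.Flow
import Pool.Agent.Lib.MP_446dfa_ag.sig.FlowBase
import Pool.Agent.Lib.MP_154526_nt.Low.ExW
import Pool.Agent.Lib.MP_154526_nt.Low.RacW
import Pool.Agent.Lib.MP_446dfa_ag.sig.Asm
import Pool.Agent.Lib.MP_446dfa_ag.sig.Desc
import Pool.Agent.Lib.MP_446dfa_ag.sig.DIFF
import Pool.Agent.Lib.MP_446dfa_ag.sig.DSW
import Pool.Agent.Lib.MP_446dfa_ag.sig.MODEL
import Pool.Agent.Lib.MP_446dfa_ag.sig.S4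
import Pool.Agent.Lib.MP_446dfa_ag.sig.F3
import Pool.Agent.Lib.MP_446dfa_ag.sig.F12
import Pool.Agent.Lib.MP_154526_nt.Low.SHW
import Pool.Agent.Lib.MP_154526_nt.Low.STP
import Pool.Agent.Lib.MP_154526_nt.Low.RAC
import Pool.Agent.Lib.MP_154526_nt.Low.BR
import Pool.Agent.Lib.MP_154526_nt.Low.Tens
import Pool.Agent.Lib.MP_446dfa_ag.sig.FLOWG
import Pool.Agent.Lib.MP_446dfa_ag.sig.FLOWP
import Pool.Agent.Lib.MP_446dfa_ag.sig.DEF

section
/-!
# Module CONV: real points satisfy the pentagon equation in the form of the final statement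
-/
set_option autoImplicit false

namespace MP154526.Assoc

open Finset MP154526.Bound MP154526.Top MP154526.Top.Pass2 MP154526.Lin MP154526.Low

namespace ConvM

section words

variable {M : Type} [AddCommMonoid M]

/-- sum over the words of length `< N` -/
theorem sum_wl (N : ℕ) (F : List Bool → M) :
    ∑ w ∈ MP446S.wl N, F (w.map lf) = ∑ n ∈ range N, sumW n F := by
  classical
  induction N generalizing F with
  | zero => simp [MP446S.wl]
  | succ N ih =>
    rw [MP446S.wl, Finset.sum_insert (by simp), Finset.sum_image, Finset.sum_product,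
      Fin.sum_univ_two, Finset.sum_range_succ']
    · have e0 : ∑ w ∈ MP446S.wl N, F (List.map lf ((0 : Fin 2) :: w)) =
          ∑ n ∈ range N, sumW n fun v => F (false :: v) := ih fun v => F (false :: v)
      have e1 : ∑ w ∈ MP446S.wl N, F (List.map lf ((1 : Fin 2) :: w)) =
          ∑ n ∈ range N, sumW n fun v => F (true :: v) := ih fun v => F (true :: v)
      rw [e0, e1, ← Finset.sum_add_distrib, add_comm]
      rfl
    · rintro ⟨a, w⟩ _ ⟨b, v⟩ _ h
      simp only [List.cons.injEq] at h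
      rw [Prod.mk.injEq]
      exact h

theorem sumW_congr (n : ℕ) (F G : List Bool → M) (h : ∀ w, w.length = n → F w = G w) :
    sumW n F = sumW n G := by
  induction n generalizing F G with
  | zero => exact h [] rfl
  | succ n ih =>
    rw [sumW, sumW, ih _ _ fun w hw => h (false :: w) (by simp [hw]),
      ih _ _ fun w hw => h (true :: w) (by simp [hw])]

end words

section prods

variable {E : Type} [Ring E] [Algebra ℝ E]

theorem prod_sign (a b : E) (w : List (Fin 2)) :
    ((w.map lf).map fun l => if l then -b else a).prod =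
      (-1 : ℝ) ^ w.count 1 • (w.map ![a, b]).prod := by
  induction w with
  | nil => simp
  | cons i w ih =>
    rw [List.map_cons, List.map_cons, List.prod_cons, ih, List.map_cons, List.prod_cons]
    fin_cases i
    · have h : List.count (1 : Fin 2) ((0 : Fin 2) :: w) = w.count 1 := by simp
      rw [mul_smul_comm]
      show _ = (-1 : ℝ) ^ List.count (1 : Fin 2) ((0 : Fin 2) :: w) • _
      rw [h]
      rfl
    · have h : List.count (1 : Fin 2) ((1 : Fin 2) :: w) = w.count 1 + 1 := by simp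
      rw [mul_smul_comm]
      show _ = (-1 : ℝ) ^ List.count (1 : Fin 2) ((1 : Fin 2) :: w) • _
      rw [h, pow_succ, mul_neg_one, neg_smul, ← smul_neg]
      congr 1
      show -b * _ = -(b * _)
      rw [neg_mul]

theorem EV_pol (N : ℕ) (Φ : List Bool → ℝ) (a b : E) :
    MP446Y.EV a b (pol N Φ) = val N Φ a b := by
  rw [pol, map_sum, val, ← sum_wl]
  refine Finset.sum_congr rfl fun w _ => ?_
  rw [map_smul, MP446Y.EV_ow, prod_sign, smul_smul, mul_comm]

end prods

section nil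

variable {E : Type} [Ring E] [Algebra ℝ E] (t : Fin 4 → Fin 4 → E)

/-- the span of the products of at least `n` elements `t i j` -/
def J (n : ℕ) : Submodule ℝ E :=
  Submodule.span ℝ {x | ∃ l : List (Fin 4 × Fin 4), n ≤ l.length ∧
    x = (l.map fun p => t p.1 p.2).prod}

theorem J_mul {n m : ℕ} {x y : E} (hx : x ∈ J t n) (hy : y ∈ J t m) : x * y ∈ J t (n + m) := by
  have h := Submodule.mul_mem_mul hx hy
  rw [J, J, Submodule.span_mul_span] at h
  refine Submodule.span_mono ?_ h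
  rintro _ ⟨_, ⟨l, hl, rfl⟩, _, ⟨l', hl', rfl⟩, rfl⟩
  refine ⟨l ++ l', by rw [List.length_append]; omega, ?_⟩
  rw [List.map_append, List.prod_append]

theorem J_mono {n m : ℕ} (h : n ≤ m) : J t m ≤ J t n := by
  refine Submodule.span_mono ?_
  rintro _ ⟨l, hl, rfl⟩
  exact ⟨l, h.trans hl, rfl⟩

theorem J_prod (l : List E) (h : ∀ x ∈ l, x ∈ J t 1) : l.prod ∈ J t l.length := by
  induction l with
  | nil =>
    rw [List.prod_nil]
    exact Submodule.subset_span ⟨[], le_rfl, by simp⟩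
  | cons x l ih =>
    rw [List.prod_cons, List.length_cons, add_comm]
    exact J_mul t (h x (by simp)) (ih fun y hy => h y (by simp [hy]))

theorem J_zero {N : ℕ} (h : ∀ l : List (Fin 4 × Fin 4), l.length = N →
    (l.map fun p => t p.1 p.2).prod = 0) : J t N = ⊥ := by
  rw [J, Submodule.span_eq_bot]
  rintro _ ⟨l, hl, rfl⟩
  rw [← List.take_append_drop N l, List.map_append, List.prod_append,
    h _ (by rw [List.length_take]; omega), zero_mul]

theorem nil_J {N : ℕ} (h : ∀ l : List (Fin 4 × Fin 4), l.length = N →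
    (l.map fun p => t p.1 p.2).prod = 0) : MP446S.Nil N (J t 1) where
  mul_mem x hx y hy := J_mono t (by norm_num) (J_mul t hx hy)
  prod_zero l hl hN := by
    have h1 := J_prod t l hl
    rw [hN, J_zero t h] at h1
    exact h1

theorem mem_J (i j : Fin 4) : t i j ∈ J t 1 :=
  Submodule.subset_span ⟨[(i, j)], le_rfl, by simp⟩

end nil

end ConvM

open ConvM

theorem specConv : SpecConv := by
  intro Φ hΦ E _ _ N t hb hN
  rcases Nat.eq_zero_or_pos N with rfl | hpos
  · have h := hN [] rfl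
    simp only [List.map_nil, List.prod_nil] at h
    exact eq_of_zero_eq_one h.symm _ _
  · have h := (hΦ.good N hpos).pg E (J t 1) (nil_J t hN) t hb (mem_J t)
    simp only [EV_pol] at h
    exact h

end MP154526.Assoc
end

section
/-!
# FLC: the flows of `Low` and of `sig` coincide
-/
set_option autoImplicit false

namespace MP154526.Assoc.FlcM

open Finset MP154526.Bound MP154526.Top MP154526.Top.Pass2 MP154526.Lin MP154526.Low MP154526.Assoc

/-! ### the letters -/

@[simp] theorem lf_fl (b : Bool) : lf (fl b) = b := by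
  cases b <;> rfl

@[simp] theorem fl_lf (i : Fin 2) : fl (lf i) = i := by
  fin_cases i <;> rfl

@[simp] theorem map_lf_fl (w : List Bool) : (w.map fl).map lf = w := by
  rw [List.map_map]
  conv_rhs => rw [← List.map_id w]
  exact List.map_congr_left fun b _ => lf_fl b

@[simp] theorem map_fl_lf (w : List (Fin 2)) : (w.map lf).map fl = w := by
  rw [List.map_map]
  conv_rhs => rw [← List.map_id w]
  exact List.map_congr_left fun b _ => fl_lf b

theorem count_lf (w : List (Fin 2)) : (w.map lf).count true = w.count 1 := by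
  induction w with
  | nil => rfl
  | cons i w ih =>
    rw [List.map_cons]
    fin_cases i
    · change (false :: w.map lf).count true = (0 :: w).count 1
      rw [List.count_cons_of_ne (by decide), List.count_cons_of_ne (by decide), ih]
    · change (true :: w.map lf).count true = (1 :: w).count 1
      rw [List.count_cons_self, List.count_cons_self, ih]

theorem count_fl (w : List Bool) : (w.map fl).count 1 = w.count true := by
  have := count_lf (w.map fl)
  rw [map_lf_fl] at this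
  exact this.symm

/-! ### the polynomial of a functional -/

theorem cf_pol (N : ℕ) (Φ : List Bool → ℝ) (w : List (Fin 2)) :
    MP446S.cf (pol N Φ) w = if w.length < N then (-1) ^ w.count 1 * Φ (w.map lf) else 0 := by
  unfold pol
  rw [MP446S.cf_sum]
  simp only [MP446S.cf_smul, MP446S.cf_ow, mul_ite, mul_one, mul_zero]
  rw [Finset.sum_ite_eq']
  simp only [MP446S.mem_wl]

theorem cf_pol_lt {N : ℕ} (Φ : List Bool → ℝ) {w : List (Fin 2)} (h : w.length < N) :
    MP446S.cf (pol N Φ) w = (-1) ^ w.count 1 * Φ (w.map lf) := by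
  rw [cf_pol, if_pos h]

/-! ### the change of variables `x ↦ x`, `y ↦ - y` -/

/-- `x ↦ x`, `y ↦ - y` -/
noncomputable def th : MP446Y.AA ℝ →ₐ[ℝ] FA ℝ Bool :=
  MP446Y.EV (ow ℝ [false]) (-ow ℝ [true])

theorem th_ow (w : List (Fin 2)) :
    th (MP446Y.ow ℝ w) = (-1 : ℝ) ^ (w.count 1) • ow ℝ (w.map lf) := by
  unfold th
  rw [MP446Y.EV_ow]
  induction w with
  | nil =>
    rw [List.map_nil, List.prod_nil, List.map_nil, List.count_nil, pow_zero, one_smul]
    rfl
  | cons i w ih =>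
    rw [List.map_cons, List.prod_cons, ih, List.map_cons]
    fin_cases i
    · change ow ℝ [false] * _ = (-1 : ℝ) ^ ((0 :: w).count 1) • ow ℝ (false :: w.map lf)
      rw [List.count_cons_of_ne (by decide), mul_smul_comm, ow_cons false (w.map lf)]
    · change (-ow ℝ [true]) * _ = (-1 : ℝ) ^ ((1 :: w).count 1) • ow ℝ (true :: w.map lf)
      rw [List.count_cons_self, mul_smul_comm, ow_cons true (w.map lf), pow_succ, neg_mul,
        smul_neg, mul_neg_one, neg_smul]

theorem cf_th (X : MP446Y.AA ℝ) (v : List Bool) :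
    cf (th X) v = (-1) ^ v.count true * MP446S.cf X (v.map fl) := by
  classical
  induction X using MP446S.AA_lin with
  | how u =>
    rw [th_ow, cf_smul, cf_ow, MP446S.cf_ow]
    by_cases h : u.map lf = v
    · have h2 : u = v.map fl := by rw [← h, map_fl_lf]
      rw [if_pos h, if_pos h2, ← h, count_lf]
    · have h2 : ¬ u = v.map fl := by
        rintro rfl
        exact h (map_lf_fl v)
      rw [if_neg h, if_neg h2, mul_zero, mul_zero]
  | hadd X Y hX hY => rw [map_add, cf_add, hX, hY, MP446S.cf_add, mul_add]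
  | hsmul c X hX => rw [map_smul, cf_smul, hX, MP446S.cf_smul]; ring

theorem cf_th' (X : MP446Y.AA ℝ) (w : List (Fin 2)) :
    MP446S.cf X w = (-1) ^ w.count 1 * cf (th X) (w.map lf) := by
  rw [cf_th, map_fl_lf, count_lf, ← mul_assoc, ← mul_pow]
  norm_num

theorem th_lt (i : Fin 2) : th (MP446Y.lt ℝ i) = if i = 0 then ow ℝ [false] else -ow ℝ [true] := by
  unfold th
  fin_cases i
  · exact MP446S.EV_letter_zero _ _
  · exact MP446S.EV_letter_one _ _

/-- the operator `s_Q` in the two conventions -/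
theorem th_LQ (Q X : MP446Y.AA ℝ) : th (MP446S.LQ Q X) = sop (th Q) (th X) := by
  have key : th (MP446S.DQ Q X) + th X * th Q = th Q * th X +
      der (fun a => if a then ow ℝ [true] * th Q - th Q * ow ℝ [true] else 0) (th X) := by
    induction X using MP446Z.FA_induction with
    | h1 =>
      rw [MP446S.DQ_one, map_zero, map_one, der_one, one_mul, mul_one, zero_add, add_zero]
    | hmul i X ih =>
      have e0 : MP446Z.letter ℝ i = MP446Y.lt ℝ i := rfl
      rw [e0]
      have h1 : th (MP446S.DQ Q (MP446Y.lt ℝ i)) =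
          th Q * th (MP446Y.lt ℝ i) - th (MP446Y.lt ℝ i) * th Q +
            der (fun a => if a then ow ℝ [true] * th Q - th Q * ow ℝ [true] else 0)
              (th (MP446Y.lt ℝ i)) := by
        fin_cases i
        · change th (MP446S.DQ Q (MP446Y.lt ℝ 0)) = th Q * th (MP446Y.lt ℝ 0) -
            th (MP446Y.lt ℝ 0) * th Q + der _ (th (MP446Y.lt ℝ 0))
          rw [MP446S.DQ_lt_zero, map_sub, map_mul, map_mul, th_lt, if_pos rfl, der_letter]
          simp
        · change th (MP446S.DQ Q (MP446Y.lt ℝ 1)) = th Q * th (MP446Y.lt ℝ 1) -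
            th (MP446Y.lt ℝ 1) * th Q + der _ (th (MP446Y.lt ℝ 1))
          rw [MP446S.DQ_lt_one, map_zero, th_lt, if_neg (by decide), map_neg, der_letter]
          simp only [if_true]
          rw [mul_neg, neg_mul]
          generalize th Q * ow ℝ [true] = a
          generalize ow ℝ [true] * th Q = b
          simp only [sub_eq_add_neg, neg_add, neg_neg]
          abel
      rw [MP446S.DQ_mul, map_add, map_mul, map_mul, map_mul, h1, der_mul]
      have h2 : th (MP446Y.lt ℝ i) * th (MP446S.DQ Q X) + th (MP446Y.lt ℝ i) * th X * th Q =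
          th (MP446Y.lt ℝ i) * (th Q * th X + der
            (fun a => if a then ow ℝ [true] * th Q - th Q * ow ℝ [true] else 0) (th X)) := by
        rw [← ih, mul_add, mul_assoc]
      rw [add_right_comm, h2, add_mul, sub_mul, mul_add]
      simp only [mul_assoc]
      abel
    | hadd X Y hX hY =>
      simp only [map_add, add_mul, mul_add]
      calc _ = (th (MP446S.DQ Q X) + th X * th Q) + (th (MP446S.DQ Q Y) + th Y * th Q) := by abel
        _ = _ := by rw [hX, hY]; abel
    | hsmul c X hX =>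
      simp only [map_smul, smul_mul_assoc, mul_smul_comm]
      rw [← smul_add, hX, smul_add]
  rw [MP446S.LQ_apply, map_add, map_mul, sop_apply]
  exact key

/-! ### the flows -/

theorem cf_th_LQ {n : ℕ} {ψ : List Bool → ℝ} {Q : MP446Y.AA ℝ} (hn : 1 ≤ n) (hQ : IsPol n ψ Q)
    (X : MP446Y.AA ℝ) (v : List Bool) : cf (th (MP446S.LQ Q X)) v = T n ψ (cf (th X)) v := by
  rw [th_LQ]
  refine specTr ℝ n ψ (th Q) hn (fun w => ?_) (th X) v
  rw [cf_th, hQ, List.length_map, map_lf_fl, count_fl]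
  split_ifs with h
  · rw [← mul_assoc, ← mul_pow]
    norm_num
  · rw [mul_zero]

theorem cf_th_aj {N n : ℕ} {Φ ψ : List Bool → ℝ} {Q : MP446Y.AA ℝ} (hn : 1 ≤ n)
    (hQ : IsPol n ψ Q) (j : ℕ) (v : List Bool) (hv : v.length < N) :
    cf (th (MP446S.aj Q (pol N Φ) j)) v = Flow.e n Φ ψ j v := by
  induction j generalizing v with
  | zero =>
    rw [MP446S.aj_zero, cf_th, cf_pol_lt _ (by rw [List.length_map]; exact hv), map_lf_fl,
      count_fl, ← mul_assoc, ← mul_pow]
    norm_num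
    rfl
  | succ j ih =>
    have h1 := congrArg (fun X => cf (th X) v) (MP446S.aj_succ Q (pol N Φ) j)
    simp only [map_smul, cf_smul] at h1
    rw [cf_th_LQ hn hQ] at h1
    have h2 : T n ψ (cf (th (MP446S.aj Q (pol N Φ) j))) v = T n ψ (Flow.e n Φ ψ j) v := by
      apply Flow.TT_congr_len
      intro u hu
      exact ih u (by omega)
    rw [h2, Flow.T_e n Φ ψ j v] at h1
    have h3 : ((j + 1 : ℕ) : ℝ) ≠ 0 := by positivity
    apply mul_left_cancel₀ h3
    rw [h1]
    push_cast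
    ring

end MP154526.Assoc.FlcM

namespace MP154526.Assoc

open Finset MP154526.Bound MP154526.Top MP154526.Top.Pass2 MP154526.Lin MP154526.Low FlcM

/-- FLC: the flows of `Low` and of `sig` coincide. -/
theorem specFlc : SpecFlc := by
  intro N n Φ ψ Q hn hQ w hw
  have hv : (w.map lf).length < N := by rw [List.length_map]; exact hw
  rw [cf_pol_lt _ hw, cf_th', MP446S.flow_eq, map_sum, cf_sum]
  congr 1
  rw [Flow.ex_eq n Φ ψ hn (w.map lf) N (lt_of_lt_of_le hv (Nat.le_mul_of_pos_right N hn))]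
  exact Finset.sum_congr rfl fun j _ => cf_th_aj hn hQ j _ hv

end MP154526.Assoc
end

section
/-!
# EXG: integral elements in `dmr₀ ∩ grt₁`
-/
set_option autoImplicit false

namespace MP154526.Assoc.ExGM

open Finset MP154526.Bound MP154526.Top MP154526.Top.Front MP154526.Top.Pass2 MP154526.Lin
  MP154526.Low MP154526.Assoc

attribute [local instance 100] LieRing.ofAssociativeRing

/-! ### Lie polynomials are primitive -/

theorem prim_assoc (χ : MP446.F2 ℝ) : MP446S.Prim (MP446Y.assoc ℝ χ) := by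
  intro E _ _ a b a' b' hc
  induction χ using MP446.F2_induction with
  | hA =>
    rw [MP446Y.assoc_gA, MP446S.EV_letter_zero, MP446S.EV_letter_zero, MP446S.EV_letter_zero]
  | hB =>
    rw [MP446Y.assoc_gB, MP446S.EV_letter_one, MP446S.EV_letter_one, MP446S.EV_letter_one]
  | hadd x y hx hy =>
    rw [map_add, map_add, map_add, map_add, hx, hy]
    abel
  | hsmul c x hx => rw [map_smul, map_smul, map_smul, map_smul, hx, smul_add]
  | hlie x y hx hy =>
    have comm : ∀ X Y : MP446Y.AA ℝ, MP446Y.EV a b X * MP446Y.EV a' b' Y =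
        MP446Y.EV a' b' Y * MP446Y.EV a b X := by
      intro X Y
      exact MP446Y.EV_commute
        (MP446S.comm_EV (z := a) hc.h1 hc.h2 Y) (MP446S.comm_EV (z := b) hc.h3 hc.h4 Y) X
    rw [LieHom.map_lie, LieRing.of_associative_ring_bracket]
    simp only [map_sub, map_mul]
    rw [hx, hy]
    simp only [add_mul, mul_add]
    rw [comm (MP446Y.assoc ℝ x) (MP446Y.assoc ℝ y), comm (MP446Y.assoc ℝ y) (MP446Y.assoc ℝ x)]
    abel

/-! ### changing the signs -/

theorem sign_rp (hC : SpecGCong) {Φ : List Bool → ℝ} (h : RP Φ) :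
    RP (fun w => (-1) ^ w.length * Φ w) where
  pt := ExW.sign h.pt
  good N hN := by
    refine hC N (MP446S.opp (pol N Φ)) _ hN (fun w hw => ?_) (MP446S.Good.opp (h.good N hN))
    rw [MP446S.cf_opp, FlcM.cf_pol_lt Φ hw, FlcM.cf_pol_lt _ hw, List.length_map]
    ring

/-! ### the lowest difference -/

/-- the properties of the polynomial of the lowest difference -/
theorem diff_pol {Φ Ψ : List Bool → ℝ} (hΦ : RP Φ) (hΨ : RP Ψ) {m : ℕ} (hm : 3 ≤ m)
    (hag : ∀ w : List Bool, w.length < m → Ψ w = Φ w) :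
    ∃ (Q : MP446Y.AA ℝ) (χ : MP446.F2 ℝ), IsPol m (fun w => Φ w - Ψ w) Q ∧
      MP446Y.assoc ℝ χ = Q ∧ MP446.IsGRT χ ∧ MP446S.Prim Q ∧
      MP446S.Dyn Q = (m : ℝ) • Q ∧ MP446S.PLt (MP446S.ee ℝ) Q := by
  obtain ⟨Q, χ, h1, h2, h3, h4, h5, h6, h7⟩ := MP446S.diff_part MP446S.specDIFF
    MP446S.specDSW1 MP446S.specDSW2 MP446S.specMODEL MP446S.specS4 MP446S.specF1
    (MP446S.specF2 MP446S.specF1 MP446S.specMODEL)
    (MP446S.specF3 MP446S.specMODEL MP446S.specF1 (MP446S.specF2 MP446S.specF1 MP446S.specMODEL))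
    (N := m + 1) hm le_rfl (hΨ.good (m + 1) (by omega)) (hΦ.good (m + 1) (by omega)) (by
      intro w hw
      rw [FlcM.cf_pol_lt _ (by omega), FlcM.cf_pol_lt _ (by omega),
        hag _ (by rw [List.length_map]; exact hw)])
  refine ⟨Q, χ, fun w => ?_, h1, h6, h3, h5, h4 _ _ (MP446S.specMODEL ℝ)⟩
  split_ifs with h
  · rw [h7 w h, FlcM.cf_pol_lt _ (by omega), FlcM.cf_pol_lt _ (by omega)]
    ring
  · exact h2 w h

theorem diff_gr {Φ Ψ : List Bool → ℝ} (hΦ : RP Φ) (hΨ : RP Ψ) {m : ℕ} (hm : 3 ≤ m)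
    (hag : ∀ w : List Bool, w.length < m → Ψ w = Φ w) : Gr m (fun w => Φ w - Ψ w) := by
  obtain ⟨Q, χ, h1, h2, h3, h4, _⟩ := diff_pol hΦ hΨ hm hag
  exact ⟨Q, χ, h1, h2, h3, h4⟩

/-- the iteration -/
theorem iter (hC : SpecGCong) (hF : SpecFlRP) {Φ : List Bool → ℝ} (h : RP Φ) (n : ℕ) :
    ∃ Ψ : List Bool → ℝ, RP Ψ ∧ (∀ w : List Bool, w.length < n + 3 → Ψ w = Φ w) ∧
      ∀ m, n + 2 ≤ m → Ψ (bw [m]) = (-1) ^ (m + 1) * Φ (bw [m]) := by
  induction n with
  | zero =>
    refine ⟨_, sign_rp hC h, ?_, ?_⟩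
    · intro w hw
      rcases w with _ | ⟨a, _ | ⟨b, _ | ⟨c, w⟩⟩⟩
      · simp
      · cases a <;> simp [h.pt.zx, h.pt.zy]
      · simp
      · simp only [List.length_cons] at hw; omega
    · intro m _
      rw [ExW.len_bw]
      simp [wt]
  | succ n ih =>
    obtain ⟨Ψ, hΨ, h1, h2⟩ := ih
    have hd : DW (n + 3) fun w => Φ w - Ψ w := by
      refine specDiff ℝ (n + 3) Φ Ψ h.pt hΨ.pt (by omega) (fun w hw => (h1 w hw).symm)
        fun he => ?_
      have h3 := h2 (n + 3 - 1) (by omega)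
      have h4 : n + 3 - 1 + 1 = n + 3 := by omega
      rw [h4, he.neg_one_pow, one_mul] at h3
      exact h3.symm
    obtain ⟨hΨ', h5, h6, h7⟩ := hF (n + 3) Ψ _ hΨ hd (diff_gr h hΨ (by omega) h1)
    refine ⟨_, hΨ', ?_, ?_⟩
    · intro w hw
      rcases lt_or_eq_of_le (Nat.le_of_lt_succ (by omega : w.length < n + 3 + 1)) with h8 | h8
      · rw [h5 w h8, h1 w h8]
      · rw [h6 w h8]; ring
    · intro m hm
      rw [h7 m (by omega), h2 m (by omega)]

/-! ### the descent -/

/-- the descent of the properties of the polynomial -/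
theorem desc {m : ℕ} (hm : 3 ≤ m) {φ : List Bool → ℝ} {Q : MP446Y.AA ℝ} (hQ : IsPol m φ Q)
    (hD : MP446S.Dyn Q = (m : ℝ) • Q) (hP : MP446S.PLt (MP446S.ee ℝ) Q) (ν : ℝ →+ ℝ)
    {ψ : List Bool → ℝ} (hψ : ∀ w : List Bool, w.length = m → ψ w = ν (φ w)) : Gr m ψ := by
  have h1 : IsPol m ψ (MP446S.mm ν Q) := by
    intro w
    have h2 : MP446S.cf (MP446S.mm ν Q) w = ν (MP446S.cf Q w) := rfl
    rw [h2, hQ w]
    split_ifs with h
    · rw [hψ _ (by rw [List.length_map]; exact h)]
      rcases neg_one_pow_eq_or ℝ (w.count 1) with h3 | h3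
      · rw [h3, one_mul, one_mul]
      · rw [h3, neg_one_mul, neg_one_mul, map_neg]
    · exact map_zero ν
  have hHom : MP446S.Hom m (MP446S.mm ν Q) := fun w hw => by rw [h1 w, if_neg hw]
  have h3 : MP446S.Dyn (MP446S.mm ν Q) = (m : ℝ) • MP446S.mm ν Q := by
    rw [← MP446S.mm_Dyn, hD, Nat.cast_smul_eq_nsmul, map_nsmul, Nat.cast_smul_eq_nsmul]
  have h4 : MP446S.PLt (MP446S.ee ℝ) (MP446S.mm ν Q) := MP446S.PLt_mm hP
  obtain ⟨χ, hχ⟩ := MP446S.specDSW2 ℝ m _ (by omega) h3
  refine ⟨MP446S.mm ν Q, χ, h1, hχ, ?_, ?_⟩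
  · apply MP446S.isGRT_of MP446S.specS4 MP446S.specF1
      (MP446S.specF2 MP446S.specF1 MP446S.specMODEL)
      (MP446S.specF3 MP446S.specMODEL MP446S.specF1
        (MP446S.specF2 MP446S.specF1 MP446S.specMODEL)) hm
    · rw [hχ]; exact hHom
    · rw [hχ]; exact h4
  · rw [← hχ]
    exact prim_assoc χ

end MP154526.Assoc.ExGM

namespace MP154526.Assoc

open Finset MP154526.Bound MP154526.Top MP154526.Top.Front MP154526.Top.Pass2 MP154526.Lin
  MP154526.Low ExGM

/-- EXG: integral elements in `dmr₀ ∩ grt₁` with non-zero coefficient in depth one -/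
theorem specExG (hB : SpecBase) (hC : SpecGCong) (hF : SpecFlRP) : SpecExG := by
  intro k
  obtain ⟨Φ, hΦ, hZ⟩ := hB
  obtain ⟨Ψ, hΨ, h1, h2⟩ := iter hC hF hΦ (2 * k)
  have hd : DW (2 * k + 3) fun w => Φ w - Ψ w := by
    refine specDiff ℝ (2 * k + 3) Φ Ψ hΦ.pt hΨ.pt (by omega) (fun w hw => (h1 w hw).symm)
      fun he => ?_
    exact absurd he (by rw [Nat.not_even_iff_odd]; exact ⟨k + 1, by ring⟩)
  have h3 : Φ (bw [2 * k + 2]) - Ψ (bw [2 * k + 2]) = 2 * zeta [2 * k + 3] := by
    rw [h2 (2 * k + 2) le_rfl]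
    have h4 : (-1 : ℝ) ^ (2 * k + 2 + 1) = -1 := Odd.neg_one_pow ⟨k + 1, by ring⟩
    rw [h4, hZ (bw [2 * k + 2])]
    · unfold Zw
      rw [toY_bw]
      show zeta [2 * k + 2 + 1] - -1 * zeta [2 * k + 2 + 1] = _
      ring
    · right
      refine ⟨List.replicate (2 * k + 1) false, ?_⟩
      simp [bw, List.replicate_succ]
  have h5 : Φ (bw [2 * k + 2]) - Ψ (bw [2 * k + 2]) ≠ 0 := by
    rw [h3]
    exact mul_ne_zero two_ne_zero (ExW.zeta_pos _ (by omega)).ne'
  obtain ⟨μ, hμ⟩ : ∃ μ : Module.Dual ℚ ℝ, μ (Φ (bw [2 * k + 2]) - Ψ (bw [2 * k + 2])) ≠ 0 := by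
    by_contra hc
    push Not at hc
    exact h5 ((Module.forall_dual_apply_eq_zero_iff ℚ _).1 hc)
  have h6 := ExW.DW.map' μ.toAddMonoidHom hd
  obtain ⟨N, ψ, hN, h7⟩ := ExW.clear (2 * k + 3) fun w => μ.toAddMonoidHom (Φ w - Ψ w)
  have h8 := ExW.DW.map' (AddMonoidHom.mulLeft (N : ℚ)) h6
  refine ⟨ψ, ExW.DW.of_cast h8 h7, ?_, ?_⟩
  · have h9 := h7 (bw [2 * k + 2]) (by rw [ExW.len_bw]; simp [wt])
    intro h10
    rw [h10, Int.cast_zero] at h9
    rcases mul_eq_zero.1 h9.symm with h11 | h11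
    · exact hN (by exact_mod_cast h11)
    · exact hμ h11
  · obtain ⟨Q, χ, g1, g2, g3, g4, g5, g6⟩ := diff_pol hΦ hΨ (m := 2 * k + 3) (by omega) h1
    refine desc (by omega) g1 g5 g6 ((AddMonoidHom.mulLeft (N : ℝ)).comp
      ((algebraMap ℚ ℝ).toAddMonoidHom.comp μ.toAddMonoidHom)) (fun w hw => ?_)
    have h9 := h7 w hw
    have h10 : ((ψ w : ℚ) : ℝ) = ((N * μ.toAddMonoidHom (Φ w - Ψ w) : ℚ) : ℝ) := by rw [h9]
    rw [Rat.cast_intCast] at h10
    rw [h10, Rat.cast_mul, Rat.cast_natCast]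
    rfl

end MP154526.Assoc
end

section
/-!
# FLRP: the flow preserves the real points
-/
set_option autoImplicit false

namespace MP154526.Assoc.FlRPM

open Finset MP154526.Bound MP154526.Top MP154526.Top.Pass2 MP154526.Lin MP154526.Low MP154526.Assoc

theorem stW : SpecStW :=
  specStW specTens specCodc specPis (specRac specBr) specTr (specStp specTens)

/-- the flow of a solution of the double shuffle equations (see `Low/Flow.lean`) -/
theorem flow_ex {n : ℕ} {Φ ψ : List Bool → ℝ} (hΦ : Pt Φ) (hψ : DW n ψ) :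
    Pt (Flow.ex n Φ ψ) ∧ (∀ w : List Bool, w.length < n → Flow.ex n Φ ψ w = Φ w) ∧
      (∀ w : List Bool, w.length = n → Flow.ex n Φ ψ w = Φ w + ψ w) ∧
      ∀ k, n ≤ k → Flow.ex n Φ ψ (bw [k]) = Φ (bw [k]) := by
  have h3 := hψ.three
  have hn : 1 ≤ n := by omega
  have hlt : ∀ w : List Bool, w.length < n → Flow.ex n Φ ψ w = Φ w := by
    intro w hw
    rw [Flow.ex_eq n Φ ψ hn w 1 (by omega), Finset.sum_range_one]
    rfl
  refine ⟨⟨?_, ?_, ?_, ?_, ?_⟩, hlt, ?_, ?_⟩
  · rw [hlt [] (by simp; omega), hΦ.one]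
  · rw [hlt _ (by simp; omega), hΦ.zx]
  · rw [hlt _ (by simp; omega), hΦ.zy]
  · intro u v
    exact Flow.P_shs n Φ ψ hn u v fun k => Flow.shs_e n Φ ψ specShW hn hψ.sh hΦ.sh k u v
  · intro u v hv
    exact Flow.P_stf n Φ ψ hn u v fun k => Flow.stf_e n Φ ψ stW hψ hΦ.st k u v hv
  · intro w hw
    rw [Flow.ex_eq n Φ ψ hn w 2 (by omega), Finset.sum_range_succ, Finset.sum_range_one]
    have h1 : Flow.e n Φ ψ 1 w = ψ w := by
      rw [Flow.e_succ n Φ ψ 0 w, Flow.T_exact n ψ hn _ w hw]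
      change algebraMap ℚ ℝ (1 / (((0 : ℕ) : ℚ) + 1)) * (ψ w * Φ []) = ψ w
      rw [hΦ.one]
      simp
    rw [h1]
    rfl
  · intro k hk
    exact Flow.ex_xy n Φ ψ hn (Flow.psi_rep n ψ hψ) k hk

/-- the powers of `x` -/
theorem pt_rep {Φ : List Bool → ℝ} (hΦ : Pt Φ) (k : ℕ) :
    Φ (List.replicate (k + 1) false) = 0 := by
  have h1 := hΦ.sh [false] (List.replicate k false)
  have h2 := F2.shs_replicate false 1 k Φ
  rw [List.replicate_one, h1, hΦ.zx, zero_mul, Nat.choose_one_right, nsmul_eq_mul,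
    show 1 + k = k + 1 by omega] at h2
  rcases mul_eq_zero.1 h2.symm with h3 | h3
  · exfalso
    have : ((k + 1 : ℕ) : ℝ) ≠ 0 := by positivity
    exact this h3
  · exact h3

theorem norm_pol {Φ : List Bool → ℝ} (hΦ : Pt Φ) {N : ℕ} (hN : 1 ≤ N) :
    MP446S.Norm1 N (pol N Φ) := by
  constructor
  · rw [FlcM.cf_pol_lt Φ (by simp; omega)]
    simp [hΦ.one]
  · intro k hk hkN
    rw [FlcM.cf_pol_lt Φ (by rw [List.length_replicate]; exact hkN)]
    obtain ⟨k, rfl⟩ : ∃ m, k = m + 1 := ⟨k - 1, by omega⟩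
    have h1 : (List.replicate (k + 1) (0 : Fin 2)).map lf = List.replicate (k + 1) false := by
      rw [List.map_replicate]
      rfl
    rw [h1, pt_rep hΦ k, mul_zero]

end MP154526.Assoc.FlRPM

namespace MP154526.Assoc

open Finset MP154526.Bound MP154526.Top MP154526.Top.Pass2 MP154526.Lin MP154526.Low FlRPM

/-- FLRP: the flow preserves the real points -/
theorem specFlRP (hC : SpecGCong) : SpecFlRP := by
  intro n Φ ψ hΦ hψ hG
  obtain ⟨h1, h2⟩ := flow_ex hΦ.pt hψ
  refine ⟨⟨h1, fun N hN => ?_⟩, h2⟩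
  obtain ⟨Q, χ, hQ, hχ, hgrt, hprim⟩ := hG
  have hn := hψ.three
  have hHom : MP446S.Hom n Q := fun w hw => by rw [hQ w, if_neg hw]
  have hg := hΦ.good N hN
  have hcf := specFlc N n Φ ψ Q (by omega) hQ
  refine hC N (MP446S.flow N Q (pol N Φ)) _ hN hcf
    ⟨?_, MP446S.specFLOWG N n (pol N Φ) Q (by omega) hHom hprim hg.gl,
      MP446S.specFLOWP MP446S.specDEF N n (pol N Φ) Q χ (by omega) hHom hχ hgrt hg.pg⟩
  have hno := norm_pol h1 hN
  exact ⟨by rw [hcf _ (by simp; omega)]; exact hno.1,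
    fun k hk hkN => by rw [hcf _ (by rw [List.length_replicate]; exact hkN)]; exact hno.2 k hk hkN⟩

end MP154526.Assoc
end
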