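import Pool.Agent.Lib.MP_154526_nt.Assoc.Spec
import Pool.Agent.Lib.MP_446dfa_ag.sig.Basic
import Pool.Agent.Lib.MP_154526_nt.Low.Flow
import Pool.Agent.Lib.MP_154526_nt.Low.Ind
import Pool.Agent.Lib.MP_154526_nt.Low.Basic
import Pool.Agent.Lib.MP_154526_nt.Low.ExW
import Pool.Agent.Lib.MP_154526_nt.Low.Tr
import Pool.Agent.Lib.MP_154526_nt.Low.Zshuf
import Pool.Agent.Lib.MP_446dfa_ag.sig.Coef

section
/-!
# FINAL: the final statement, from MAIN, CONV, DUAL, UNIA, UNIC, KILL, RED0
-/
set_option autoImplicit false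

namespace MP154526.Assoc.FinalM

open Finset MP154526.Bound MP154526.Top MP154526.Low

theorem len_H0 {p : ℕ} {h : H} (hh : h ∈ H0 p) : ∀ w, h w ≠ 0 → w.length = p := by
  have key : ∀ w : List Bool, w.length ≠ p → h w = 0 := by
    intro w hw
    unfold H0 at hh
    induction hh using Submodule.span_induction with
    | mem x hx =>
      obtain ⟨u, _, hu, rfl⟩ := hx
      have : u ≠ w := by
        rintro rfl
        exact hw hu
      exact Finsupp.single_eq_of_ne (Ne.symm this)
    | zero => rfl
    | add x y _ _ hx hy => rw [Finsupp.add_apply, hx, hy, add_zero]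
    | smul c x _ hx => rw [Finsupp.smul_apply, hx, smul_zero]
  intro w hw
  by_contra hne
  exact hw (key w hne)

theorem lc_eq {K : Type} [CommRing K] [Algebra ℚ K] {Φ : List Bool → K} (L : H →ₗ[ℚ] K)
    (hL : ∀ w, L (wd w) = Φ w) (h : H) : L h = Finsupp.linearCombination ℚ Φ h := by
  induction h using Finsupp.induction_linear with
  | zero => simp
  | add f g hf hg => rw [map_add, map_add, hf, hg]
  | single w c =>
    have : (Finsupp.single w c : H) = c • wd w := by
      rw [wd, Finsupp.smul_single, smul_eq_mul, mul_one]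
    rw [Finsupp.linearCombination_single, this, map_smul, hL]

/-- the homomorphism of a real point -/
theorem point (hC : SpecConv) (hK : SpecKill) {Φ : List Bool → ℝ} (hΦ : RP Φ) :
    ∃ L : H →ₗ[ℚ] ℝ, GrpLike L ∧ (Pentagon fun w => L (wd w)) ∧
      ∀ h, L h = Finsupp.linearCombination ℚ Φ h := by
  obtain ⟨L, h1, h2, -⟩ := hK ℝ Φ hΦ.pt
  refine ⟨L, h1, ?_, lc_eq L h2⟩
  have e : (fun w => L (wd w)) = Φ := funext h2
  rw [e]
  exact hC Φ hΦ

theorem adm_dual {w : List Bool} (hw : Adm w) : Adm (w.reverse.map (!·)) := by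
  rcases hw with rfl | ⟨u, rfl⟩
  · exact Or.inl rfl
  · right
    refine ⟨u.reverse.map (!·), ?_⟩
    simp

theorem wd_mem {p : ℕ} {w : List Bool} (hw : Adm w) (hl : w.length = p) : wd w ∈ H0 p :=
  Submodule.subset_span ⟨w, hw, hl, rfl⟩

end MP154526.Assoc.FinalM

namespace MP154526.Assoc

open Finset MP154526.Bound MP154526.Top MP154526.Low FinalM

/-- FINAL -/
theorem specFinal (hM : SpecMain) (hC : SpecConv) (hD : SpecDual) (hUA : SpecUniA)
    (hUC : SpecUniC) (hK : SpecKill) (hR : SpecRed0) : SpecFinal where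
  assoc p h hh hL := by
    refine hM p h hh ⟨len_H0 hh, ?_⟩
    intro Φ hΦ
    obtain ⟨L, h1, h2, h3⟩ := point hC hK hΦ
    rw [← h3]
    exact hL L h1 h2
  dual w hw := by
    have hmem : wd w - wd (w.reverse.map (!·)) ∈ H0 w.length :=
      Submodule.sub_mem _ (wd_mem hw rfl) (wd_mem (adm_dual hw) (by simp))
    refine hM _ _ hmem ⟨len_H0 hmem, ?_⟩
    intro Φ hΦ
    obtain ⟨L, h1, h2, h3⟩ := point hC hK hΦ
    rw [← h3, map_sub, hD ℝ L h1 h2 w, sub_self]
  pentagon K _ _ L hL hRDS := by
    refine hUC K L hL fun N m μ hm hμ => ?_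
    have h1 := hUA N m μ hm hμ
    obtain ⟨r, hr, hr2⟩ := hR m (hU m μ) h1.1
    have h2 : RB m r := by
      refine ⟨len_H0 hr, ?_⟩
      intro Φ hΦ
      obtain ⟨L', k1, _, k3⟩ := point hC hK hΦ
      rw [← k3, ← hr2 ℝ L' k1, k3]
      exact h1.2 Φ hΦ
    have h3 := hM m r hr h2
    rw [hr2 K L hL]
    have h4 : Submodule.span ℚ (RDS m) ≤ LinearMap.ker L := by
      rw [Submodule.span_le]
      intro z hz
      exact hRDS m z hz
    exact h4 h3

end MP154526.Assoc
end

section
/-!
# GCONG: `Good N` only depends on the coefficients at the words of length `< N`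
-/
set_option autoImplicit false

namespace MP154526.Assoc

namespace GCongM

open MP446 MP446Y MP446Z MP446S

theorem ev_congr {N : ℕ} {P P' : AA ℝ}
    (h : ∀ w : List (Fin 2), w.length < N → cf P w = cf P' w)
    {E : Type} [Ring E] [Algebra ℝ E] {I : Submodule ℝ E} (hI : Nil N I) {a b : E} (ha : a ∈ I)
    (hb : b ∈ I) : EV a b P = EV a b P' := by
  rw [hI.EV_wl ha hb P, hI.EV_wl ha hb P']
  refine Finset.sum_congr rfl fun w hw => ?_
  rw [h w ((mem_wl N w).1 hw)]

end GCongM

open MP446 MP446Y MP446Z MP446S in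
/-- GCONG -/
theorem specGCong : SpecGCong := by
  intro N P P' hN h hG
  refine ⟨⟨?_, ?_⟩, ?_, ?_⟩
  · rw [← h [] (by rw [List.length_nil]; exact hN)]
    exact hG.norm.1
  · intro k hk hkN
    rw [← h _ (by simpa using hkN)]
    exact hG.norm.2 k hk hkN
  · intro E _ _ I hI a b a' b' ha hb ha' hb' hc
    rw [← GCongM.ev_congr h hI ha hb, ← GCongM.ev_congr h hI ha' hb',
      ← GCongM.ev_congr h hI (I.add_mem ha ha') (I.add_mem hb hb')]
    exact hG.gl E I hI a b a' b' ha hb ha' hb' hc
  · intro E _ _ I hI t ht hm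
    rw [← GCongM.ev_congr h hI (hm 0 1) (I.add_mem (hm 1 2) (hm 1 3)),
      ← GCongM.ev_congr h hI (I.add_mem (hm 0 2) (hm 1 2)) (hm 2 3),
      ← GCongM.ev_congr h hI (hm 1 2) (hm 2 3),
      ← GCongM.ev_congr h hI (I.add_mem (hm 0 1) (hm 0 2)) (I.add_mem (hm 1 3) (hm 2 3)),
      ← GCongM.ev_congr h hI (hm 0 1) (hm 1 2)]
    exact hG.pg E I hI t ht hm

end MP154526.Assoc
end

section
/-!
# GT: the operators of the elements of `dmr₀ ∩ grt₁` preserve the functionals on the relations of
the real points
-/
set_option autoImplicit false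

namespace MP154526.Assoc

open Finset MP154526.Bound MP154526.Top MP154526.Top.Pass2 MP154526.Lin MP154526.Low

namespace GTM

/-! ### scaling -/

theorem dw_smul {K : Type} [CommRing K] {n : ℕ} {ψ : List Bool → K} (h : DW n ψ) (s : K) :
    DW n fun w => s * ψ w where
  three := h.three
  even he := by rw [h.even he, mul_zero]
  sh u v hu hv hn := by rw [Flow.shs_mul, h.sh u v hu hv hn, mul_zero]
  st u v hu hv ha hn := by
    have := Flow.stf_mul s (fun l => ψ (bw l)) u v
    rw [this, h.st u v hu hv ha hn, mul_zero]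

theorem grt_smul {χ : MP446.F2 ℝ} (h : MP446.IsGRT χ) (s : ℝ) : MP446.IsGRT (s • χ) where
  antisymm := by rw [map_smul, h.antisymm, smul_neg]
  cycle := by rw [map_smul, map_smul, ← smul_add, ← smul_add, h.cycle, smul_zero]
  hexagon := by rw [map_smul, lie_smul, lie_smul, ← smul_add, h.hexagon, smul_zero]
  pentagon L _ _ t ht := by
    rw [map_smul, map_smul, map_smul, map_smul, map_smul, ← smul_add, ← smul_add, ← smul_add,
      h.pentagon L t ht]

theorem gr_smul {n : ℕ} {ψ : List Bool → ℝ} (h : Gr n ψ) (s : ℝ) : Gr n fun w => s * ψ w := by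
  obtain ⟨Q, χ, h1, h2, h3, h4⟩ := h
  refine ⟨s • Q, s • χ, ?_, ?_, grt_smul h3 s, ?_⟩
  · intro w
    have e : MP446S.cf (s • Q) w = s * MP446S.cf Q w := rfl
    rw [e, h1 w]
    split_ifs
    · ring
    · rw [mul_zero]
  · rw [map_smul, h2]
  · intro E _ _ a b a' b' hc
    rw [map_smul, map_smul, map_smul, h4 E a b a' b' hc, smul_add]

/-! ### the polynomial of the flow -/

section poly

variable {K : Type} [CommRing K] [Algebra ℚ K] (n : ℕ) (Φ ψ : List Bool → K)

omit [Algebra ℚ K] in
theorem hd_smul_left (s : K) (c : Bool) (φ : List Bool → K) (w : List Bool) :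
    hd n (fun v => s * ψ v) c φ w = s * hd n ψ c φ w := by
  unfold hd
  by_cases h : n ≤ w.length
  · rw [if_pos h, if_pos h, smul_eq_mul, smul_eq_mul]; ring
  · rw [if_neg h, if_neg h, mul_zero]

omit [Algebra ℚ K] in
theorem TT_smul_left (s : K) (c : Bool) (φ : List Bool → K) (w : List Bool) :
    TT n (fun v => s * ψ v) c φ w = s * TT n ψ c φ w := by
  induction w generalizing c φ with
  | nil => exact hd_smul_left n ψ s c φ []
  | cons a w ih =>
    rw [TT, TT, hd_smul_left, ih]
    ring

theorem e_smul (s : K) (k : ℕ) (w : List Bool) :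
    Flow.e n Φ (fun v => s * ψ v) k w = s ^ k * Flow.e n Φ ψ k w := by
  induction k generalizing w with
  | zero =>
    rw [pow_zero, one_mul]
    rfl
  | succ k ih =>
    rw [Flow.e_succ, Flow.e_succ]
    have h1 : T n (fun v => s * ψ v) (Flow.e n Φ (fun v => s * ψ v) k) w =
        s * T n ψ (fun v => s ^ k * Flow.e n Φ ψ k v) w := by
      rw [show Flow.e n Φ (fun v => s * ψ v) k = fun v => s ^ k * Flow.e n Φ ψ k v from
        funext ih]
      exact TT_smul_left n ψ s true _ w
    rw [h1]
    have h2 : T n ψ (fun v => s ^ k * Flow.e n Φ ψ k v) w = s ^ k * T n ψ (Flow.e n Φ ψ k) w :=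
      Flow.TT_smul n ψ true _ _ w
    rw [h2]
    ring

theorem ex_smul (s : K) (w : List Bool) :
    Flow.ex n Φ (fun v => s * ψ v) w = (Flow.P n Φ ψ w).eval s := by
  have h1 : ∀ ψ' : List Bool → K, ∀ s' : K, (Flow.P n Φ ψ' w).eval s' =
      ∑ k ∈ range (w.length + 1), Flow.e n Φ ψ' k w * s' ^ k := by
    intro ψ' s'
    rw [Flow.P, Polynomial.eval_finsetSum]
    simp
  rw [Flow.ex, h1, h1]
  refine Finset.sum_congr rfl fun k _ => ?_
  rw [e_smul, one_pow, mul_one, mul_comm]

end poly

/-! ### the transposed operator -/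

/-- the transposed operator on the words -/
noncomputable def tw (n : ℕ) (ψ : List Bool → ℤ) (w : List Bool) : H := T n ψ wd w

/-- the transposed operator -/
noncomputable def tr (n : ℕ) (ψ : List Bool → ℤ) : H →ₗ[ℚ] H :=
  Finsupp.linearCombination ℚ (tw n ψ)

theorem lc_wd {M : Type} [AddCommGroup M] [Module ℚ M] (F : List Bool → M) (w : List Bool) :
    Finsupp.linearCombination ℚ F (wd w) = F w := by
  unfold wd
  rw [Finsupp.linearCombination_single, one_smul]

theorem lc_tr {M : Type} [AddCommGroup M] [Module ℚ M] (n : ℕ) (ψ : List Bool → ℤ)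
    (F : List Bool → M) (h : H) :
    Finsupp.linearCombination ℚ F (tr n ψ h) = Finsupp.linearCombination ℚ (T n ψ F) h := by
  have h1 : ∀ w, Finsupp.linearCombination ℚ F (tw n ψ w) = T n ψ F w := by
    intro w
    have := Ops.T_map ((Finsupp.linearCombination ℚ F).restrictScalars ℤ) n ψ wd w
    rw [LinearMap.restrictScalars_apply] at this
    unfold tw
    rw [this]
    congr 1
    funext v
    exact lc_wd F v
  unfold tr
  rw [Finsupp.linearCombination_apply ℚ h, Finsupp.linearCombination_apply ℚ h, Finsupp.sum,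
    Finsupp.sum, map_sum]
  refine Finset.sum_congr rfl fun w _ => ?_
  rw [map_smul, h1]

theorem hd_cast (n : ℕ) (ψ : List Bool → ℤ) (c : Bool) (F : List Bool → ℝ) (w : List Bool) :
    hd n ψ c F w = hd n (fun v => (ψ v : ℝ)) c F w := by
  unfold hd
  by_cases h : n ≤ w.length
  · rw [if_pos h, if_pos h, smul_eq_mul, zsmul_eq_mul]
    push_cast
    rfl
  · rw [if_neg h, if_neg h]

theorem T_cast (n : ℕ) (ψ : List Bool → ℤ) (F : List Bool → ℝ) (w : List Bool) :
    T n ψ F w = T n (fun v => (ψ v : ℝ)) F w := by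
  have : ∀ (c : Bool) (F : List Bool → ℝ), TT n ψ c F w = TT n (fun v => (ψ v : ℝ)) c F w := by
    induction w with
    | nil => exact fun c F => hd_cast n ψ c F []
    | cons a w ih =>
      intro c F
      rw [TT, TT, hd_cast, ih]
  exact this true F

/-- the transposed operator is homogeneous -/
theorem tw_len (n : ℕ) (ψ : List Bool → ℤ) (w v : List Bool) (h : tw n ψ w v ≠ 0) :
    v.length + n = w.length := by
  by_contra hc
  apply h
  have h1 := Ops.T_map ((Finsupp.lapply (R := ℚ) v).restrictScalars ℤ) n ψ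
    (wd : List Bool → H) w
  rw [LinearMap.restrictScalars_apply] at h1
  have h2 : tw n ψ w v = T n ψ (fun u => (wd u : H) v) w := by
    unfold tw
    exact h1
  rw [h2]
  have h3 : ∀ (c : Bool) (F : List Bool → ℚ) (w : List Bool),
      (∀ u : List Bool, u.length + n = w.length → F u = 0) → TT n ψ c F w = 0 := by
    intro c F w
    induction w generalizing c F with
    | nil =>
      intro h
      show hd n ψ c F [] = 0
      unfold hd
      split_ifs with h1
      all_goals first
        | rfl
        | (rw [h, smul_zero]; rw [List.length_drop]; simp at h1 ⊢; omega)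
    | cons a w ih =>
      intro h
      rw [TT, ih, add_zero]
      · unfold hd
        by_cases h1 : n ≤ (a :: w).length
        · rw [if_pos h1, h, smul_zero]
          rw [List.length_drop]
          omega
        · rw [if_neg h1]
      · intro u hu
        apply h
        rw [List.length_cons, List.length_cons]
        omega
  refine h3 true _ w fun u hu => ?_
  show (wd u : H) v = 0
  unfold wd
  rw [Finsupp.single_apply, if_neg]
  rintro rfl
  exact hc hu

theorem tr_len (n m : ℕ) (ψ : List Bool → ℤ) (h : H) (hh : ∀ w, h w ≠ 0 → w.length = n + m)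
    (v : List Bool) (hv : tr n ψ h v ≠ 0) : v.length = m := by
  unfold tr at hv
  rw [Finsupp.linearCombination_apply, Finsupp.sum, Finsupp.finsetSum_apply] at hv
  obtain ⟨w, hw, h1⟩ := Finset.exists_ne_zero_of_sum_ne_zero hv
  rw [Finsupp.smul_apply, smul_eq_mul] at h1
  have h2 := tw_len n ψ w v (right_ne_zero_of_mul h1)
  have h3 := hh w (Finsupp.mem_support_iff.1 hw)
  omega

end GTM

open GTM in
/-- module GT -/
theorem specGT (hF : SpecFlRP) : SpecGT := by
  intro n ψ hψ hg m φ hφ h hh
  have hn : 1 ≤ n := le_trans (by norm_num) hψ.three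
  have hc : (fun w => ((T n ψ φ w : ℤ) : ℚ)) = T n ψ fun w => (φ w : ℚ) := by
    funext w
    exact Ops.T_map (Int.castAddHom ℚ).toIntLinearMap n ψ φ w
  rw [hc, ← lc_tr n ψ (fun w => (φ w : ℚ)) h]
  · refine hφ _ ⟨fun w hw => tr_len n m ψ h hh.1 w hw, fun Φ hΦ => ?_⟩
    rw [lc_tr]
    have hψr : DW n fun w => (ψ w : ℝ) := ExW.DW.map' (Int.castAddHom ℝ) hψ
    -- the polynomial
    set q : Polynomial ℝ :=
      Finsupp.linearCombination ℚ (fun w => Flow.P n Φ (fun w => (ψ w : ℝ)) w) h with hq
    have h0 : ∀ s : ℝ, q.eval s = 0 := by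
      intro s
      have h1 := hh.2 _ (hF n Φ _ hΦ (dw_smul hψr s) (gr_smul hg s)).1
      rw [← h1, hq, Finsupp.linearCombination_apply, Finsupp.linearCombination_apply, Finsupp.sum,
        Finsupp.sum, Polynomial.eval_finsetSum]
      refine Finset.sum_congr rfl fun w _ => ?_
      rw [ex_smul n Φ, Polynomial.eval_smul]
    have hq0 : q = 0 := Polynomial.funext fun s => by rw [h0 s, Polynomial.eval_zero]
    have h2 := congrArg (fun r : Polynomial ℝ => r.coeff 1) hq0
    simp only [Polynomial.coeff_zero] at h2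
    rw [hq, Finsupp.linearCombination_apply, Finsupp.sum, Polynomial.finsetSum_coeff] at h2
    rw [← h2, Finsupp.linearCombination_apply, Finsupp.sum]
    refine Finset.sum_congr rfl fun w _ => ?_
    rw [Polynomial.coeff_smul, Flow.P_coeff n Φ _ hn, T_cast]
    have h3 := Flow.T_e n Φ (fun w => (ψ w : ℝ)) 0 w
    have h4 : T n (fun w => (ψ w : ℝ)) Φ w = T n (fun w => (ψ w : ℝ))
      (Flow.e n Φ (fun w => (ψ w : ℝ)) 0) w := rfl
    rw [h4, h3]
    simp

end MP154526.Assoc
end

section
/-!
# IHA: the Ihara bracket in coefficients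
-/
set_option autoImplicit false

namespace MP154526.Assoc

open Finset MP154526.Bound MP154526.Top MP154526.Top.Pass2 MP154526.Lin MP154526.Low

namespace IhaM

section

variable {K : Type} [CommRing K]

/-- the homogeneous polynomial with the coefficients `φ` -/
noncomputable def cutP : ℕ → (List Bool → K) → FA K Bool
  | 0, φ => φ [] • (1 : FA K Bool)
  | n + 1, φ => ow K [false] * cutP n (fun w => φ (false :: w)) +
      ow K [true] * cutP n (fun w => φ (true :: w))

theorem cf_cutP (n : ℕ) (φ : List Bool → K) (w : List Bool) :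
    cf (cutP n φ) w = if w.length = n then φ w else 0 := by
  induction n generalizing φ w with
  | zero =>
    unfold cutP
    rw [cf_smul]
    rcases w with _ | ⟨a, w⟩
    · rw [cf_one_nil, mul_one, if_pos List.length_nil]
    · rw [cf_one_ne (by simp), mul_zero, if_neg (by simp)]
  | succ n ih =>
    unfold cutP
    rw [cf_add]
    rcases w with _ | ⟨a, w⟩
    · rw [cf_ow_mul_nil, cf_ow_mul_nil, add_zero, if_neg (by simp)]
    · rw [cf_ow_mul_cons, cf_ow_mul_cons]
      cases a
      · rw [if_pos rfl, if_neg (by decide), add_zero, ih]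
        simp
      · rw [if_neg (by decide), if_pos rfl, zero_add, ih]
        simp

/-- the derivation `y ↦ [y, Ψ]` -/
theorem dv_mul (Ψ f g : FA K Bool) :
    Tr.dv Ψ (f * g) = Tr.dv Ψ f * g + f * Tr.dv Ψ g := der_mul _ f g

theorem dv_x (Ψ : FA K Bool) : Tr.dv Ψ (ow K [false]) = 0 := der_letter _ false

theorem dv_y (Ψ : FA K Bool) :
    Tr.dv Ψ (ow K [true]) = ow K [true] * Ψ - Ψ * ow K [true] := der_letter _ true

theorem sop_eq (Ψ f : FA K Bool) : sop Ψ f = Ψ * f + Tr.dv Ψ f := sop_apply Ψ f

/-- the commutator of the derivations -/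
theorem dv_comm (G F : FA K Bool) :
    Tr.dv G ∘ₗ Tr.dv F - Tr.dv F ∘ₗ Tr.dv G = Tr.dv (sop G F - sop F G) := by
  refine der_unique _ _ ?_ ?_
  · intro f g
    simp only [LinearMap.sub_apply, LinearMap.comp_apply, dv_mul, map_add]
    simp only [sub_mul, mul_sub]
    abel
  · intro a
    cases a
    · simp only [LinearMap.sub_apply, LinearMap.comp_apply, dv_x, map_zero, sub_zero]
      rfl
    · simp only [LinearMap.sub_apply, LinearMap.comp_apply, dv_y, map_sub, dv_mul, sop_eq,
        if_true]
      noncomm_ring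

/-- the bracket of the operators -/
theorem sop_comm (G F φ : FA K Bool) :
    sop G (sop F φ) - sop F (sop G φ) = sop (sop G F - sop F G) φ := by
  have h := congrArg (fun L : FA K Bool →ₗ[K] FA K Bool => L φ) (dv_comm G F)
  have h' : Tr.dv G (Tr.dv F φ) - Tr.dv F (Tr.dv G φ) = Tr.dv (sop G F - sop F G) φ := h
  rw [sop_eq (sop G F - sop F G) φ, ← h']
  simp only [sop_eq, map_add, dv_mul]
  noncomm_ring

end

end IhaM

open IhaM in
/-- IHA -/
theorem specIha : SpecIha := by
  intro n m f g φ hn hm w
  have hcong : ∀ (n : ℕ) (ψ φ φ' : List Bool → ℤ) (w : List Bool),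
      (∀ v : List Bool, v.length + n = w.length → φ v = φ' v) → T n ψ φ w = T n ψ φ' w :=
    fun n ψ φ φ' w h => Flow.TT_congr_len n ψ true φ φ' w h
  -- the polynomials
  set F := cutP n f with hF
  set G := cutP m g with hG
  set Φ := cutP (w.length - (n + m)) φ with hΦ
  have cF : ∀ v, cf F v = if v.length = n then f v else 0 := cf_cutP n f
  have cG : ∀ v, cf G v = if v.length = m then g v else 0 := cf_cutP m g
  have cΦ : ∀ v, cf Φ v = if v.length = w.length - (n + m) then φ v else 0 := cf_cutP _ φ
  have tF : ∀ (h : FA ℤ Bool) v, cf (sop F h) v = T n f (cf h) v := specTr ℤ n f F hn cF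
  have tG : ∀ (h : FA ℤ Bool) v, cf (sop G h) v = T m g (cf h) v := specTr ℤ m g G hm cG
  have e1 : T m g (T n f φ) w = cf (sop G (sop F Φ)) w := by
    rw [tG]
    refine hcong m g _ _ w fun v hv => ?_
    rw [tF]
    refine hcong n f _ _ v fun u hu => ?_
    rw [cΦ, if_pos (by omega)]
  have e2 : T n f (T m g φ) w = cf (sop F (sop G Φ)) w := by
    rw [tF]
    refine hcong n f _ _ w fun v hv => ?_
    rw [tG]
    refine hcong m g _ _ v fun u hu => ?_
    rw [cΦ, if_pos (by omega)]
  have hB : ∀ v, cf (sop G F - sop F G) v =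
      if v.length = n + m then (fun v => T m g f v - T n f g v) v else 0 := by
    intro v
    rw [cf_sub, tG, tF]
    by_cases hv : v.length = n + m
    · rw [if_pos hv]
      congr 1
      · refine hcong m g _ _ v fun u hu => ?_
        rw [cF, if_pos (by omega)]
      · refine hcong n f _ _ v fun u hu => ?_
        rw [cG, if_pos (by omega)]
    · rw [if_neg hv]
      have h1 : T m g (cf F) v = 0 := Flow.T_zero_len m g _ v fun u hu => by
        rw [cF, if_neg (by omega)]
      have h2 : T n f (cf G) v = 0 := Flow.T_zero_len n f _ v fun u hu => by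
        rw [cG, if_neg (by omega)]
      rw [h1, h2, sub_zero]
  rw [e1, e2, ← cf_sub, sop_comm,
    specTr ℤ (n + m) (fun v => T m g f v - T n f g v) _ (by omega) hB]
  refine hcong (n + m) _ _ _ w fun v hv => ?_
  rw [cΦ, if_pos (by omega)]

end MP154526.Assoc
end

section
/-!
# INDG: independence of the words in `z_2`, `z_2 z_1` modulo a class of functionals

Version of `Low/LynOp.lean`, `Low/Desc.lean`, `Low/Ind.lean` where only the operators `T n ψ` which
preserve the class are used.
-/
set_option autoImplicit false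

namespace MP154526.Assoc.IndGM

open Finset MP154526.Bound MP154526.Top MP154526.Top.F2 MP154526.Top.Pass2 MP154526.Lin
open MP154526.Low MP154526.Low.Ops MP154526.Low.FrontL MP154526.Low.Level MP154526.Low.Anti

variable {Pc : ℕ → (List Bool → ℤ) → Prop}

/-- the operator of `ψ` preserves the class -/
def GT (Pc : ℕ → (List Bool → ℤ) → Prop) (n : ℕ) (ψ : List Bool → ℤ) : Prop :=
  ∀ m φ, Pc m φ → Pc (n + m) (T n ψ φ)

/-- the operator preserves the class -/
def Pres (Pc : ℕ → (List Bool → ℤ) → Prop) (n : ℕ) (Q : Op) : Prop :=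
  ∀ m φ, Pc m φ → Pc (n + m) (pull Q φ)

/-- the operator is `D_ψ`, `ψ` its value at the unit -/
def Inn (n : ℕ) (Q : Op) : Prop := ∀ φ : List Bool → ℤ, pull Q φ = T n (pull Q eps) φ

/-! ### `T n ψ` as a function of `ψ` -/

theorem hd_lin (n : ℕ) (a b : ℤ) (f g : List Bool → ℤ) (c : Bool) (φ : List Bool → ℤ)
    (w : List Bool) : hd n (fun w => a * f w + b * g w) c φ w = a * hd n f c φ w + b * hd n g c φ w := by
  unfold hd
  by_cases h : n ≤ w.length
  · simp only [if_pos h, smul_eq_mul]
    ring
  · simp only [if_neg h]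
    ring

theorem TT_lin (n : ℕ) (a b : ℤ) (f g : List Bool → ℤ) (c : Bool) (φ : List Bool → ℤ)
    (w : List Bool) : TT n (fun w => a * f w + b * g w) c φ w = a * TT n f c φ w + b * TT n g c φ w := by
  induction w generalizing c φ with
  | nil => exact hd_lin n a b f g c φ []
  | cons x w ih =>
    rw [TT_cons, TT_cons, TT_cons, hd_lin, ih]
    ring

theorem T_lin (n : ℕ) (a b : ℤ) (f g : List Bool → ℤ) (φ : List Bool → ℤ) (w : List Bool) :
    T n (fun w => a * f w + b * g w) φ w = a * T n f φ w + b * T n g φ w :=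
  TT_lin n a b f g true φ w

theorem hd_congr {n : ℕ} {f g : List Bool → ℤ} (h : ∀ w : List Bool, w.length = n → f w = g w)
    (c : Bool) (φ : List Bool → ℤ) (w : List Bool) : hd n f c φ w = hd n g c φ w := by
  unfold hd
  by_cases hn : n ≤ w.length
  · rw [if_pos hn, if_pos hn, h _ (by rw [List.length_take]; omega)]
  · rw [if_neg hn, if_neg hn]

theorem TT_congr {n : ℕ} {f g : List Bool → ℤ} (h : ∀ w : List Bool, w.length = n → f w = g w)
    (c : Bool) (φ : List Bool → ℤ) (w : List Bool) : TT n f c φ w = TT n g c φ w := by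
  induction w generalizing c φ with
  | nil => exact hd_congr h c φ []
  | cons x w ih => rw [TT_cons, TT_cons, hd_congr h, ih]

theorem T_congr {n : ℕ} {f g : List Bool → ℤ} (h : ∀ w : List Bool, w.length = n → f w = g w)
    (φ : List Bool → ℤ) : T n f φ = T n g φ := by
  funext w
  exact TT_congr h true φ w

/-- the value at the unit -/
theorem T_eps {n : ℕ} (hn : 1 ≤ n) (ψ : List Bool → ℤ) (w : List Bool) (hw : w.length = n) :
    T n ψ eps w = ψ w := by
  have h := Flow.T_exact n ψ hn eps w hw
  rw [h]
  simp [eps]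

theorem gt_sub (hsub : ∀ m φ χ, Pc m φ → Pc m χ → Pc m fun w => φ w - χ w) {n : ℕ}
    {F G : List Bool → ℤ} (hF : GT Pc n F) (hG : GT Pc n G) : GT Pc n fun w => F w - G w := by
  intro m φ hφ
  have h := hsub _ _ _ (hF m φ hφ) (hG m φ hφ)
  have e : T n (fun w => F w - G w) φ = fun w => T n F φ w - T n G φ w := by
    funext w
    have h1 := T_lin n 1 (-1) F G φ w
    have h2 : (fun w => F w - G w) = fun w => 1 * F w + -1 * G w := by
      funext w
      ring
    rw [h2, h1]
    ring
  rw [e]
  exact h

theorem gt_half (hhalf : ∀ m φ, (Pc m fun w => 2 * φ w) → Pc m φ) {n : ℕ}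
    {F F' : List Bool → ℤ} (hF : GT Pc n F) (h : ∀ w : List Bool, w.length = n → F w = 2 * F' w) :
    GT Pc n F' := by
  intro m φ hφ
  apply hhalf
  have h1 := hF m φ hφ
  have e : T n F φ = fun w => 2 * T n F' φ w := by
    rw [T_congr h φ]
    funext w
    have h1 := T_lin n 2 0 F' F' φ w
    have h2 : (fun w => 2 * F' w) = fun w => 2 * F' w + 0 * F' w := by
      funext w
      ring
    rw [h2, h1]
    ring
  rw [e] at h1
  exact h1

theorem gt_of {n : ℕ} {Q : Op} (h1 : Pres Pc n Q) (h2 : Inn n Q) : GT Pc n (pull Q eps) := by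
  intro m φ hφ
  rw [← h2]
  exact h1 m φ hφ

theorem pres_DD {n : ℕ} {ψ : List Bool → ℤ} (h : GT Pc n ψ) : Pres Pc n (DD n ψ) := by
  intro m φ hφ
  rw [pull_DD']
  exact h m φ hφ

theorem inn_DD (n : ℕ) (hn : 1 ≤ n) (ψ : List Bool → ℤ) : Inn n (DD n ψ) := by
  intro φ
  rw [pull_DD', pull_DD']
  exact (T_congr (fun w hw => T_eps hn ψ w hw) φ).symm

theorem pres_comm (hsub : ∀ m φ χ, Pc m φ → Pc m χ → Pc m fun w => φ w - χ w) {n m : ℕ}
    {P Q : Op} (hP : Pres Pc n P) (hQ : Pres Pc m Q) : Pres Pc (n + m) (P * Q - Q * P) := by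
  intro k φ hφ
  have e : pull (P * Q - Q * P) φ = fun w => pull Q (pull P φ) w - pull P (pull Q φ) w := by
    funext w
    rw [pull_sub, pull_mul, pull_mul]
  rw [e]
  refine hsub _ _ _ ?_ ?_
  · have h := hQ _ _ (hP k φ hφ)
    rwa [show m + (n + k) = n + m + k by omega] at h
  · have h := hP _ _ (hQ k φ hφ)
    rwa [show n + (m + k) = n + m + k by omega] at h

theorem inn_comm (hI : SpecIha) {n m : ℕ} (hn : 1 ≤ n) (hm : 1 ≤ m) {P Q : Op} (hP : Inn n P)
    (hQ : Inn m Q) : Inn (n + m) (P * Q - Q * P) := by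
  have e : ∀ φ : List Bool → ℤ, pull (P * Q - Q * P) φ =
      fun w => T m (pull Q eps) (T n (pull P eps) φ) w - T n (pull P eps) (T m (pull Q eps) φ) w := by
    intro φ
    funext w
    rw [pull_sub, pull_mul, pull_mul, hQ (pull P φ), hP φ, hP (pull Q φ), hQ φ]
  intro φ
  rw [e φ]
  have e2 : pull (P * Q - Q * P) eps =
      fun v => T m (pull Q eps) (pull P eps) v - T n (pull P eps) (pull Q eps) v := by
    funext v
    rw [pull_sub, pull_mul, pull_mul, hQ (pull P eps), hP (pull Q eps)]
  rw [e2]
  funext w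
  exact hI n m (pull P eps) (pull Q eps) φ hn hm w

/-! ### the three theorems -/

/-- existence of the operators -/
theorem exists_op' (hI : SpecIha) (hS : SpecShW) (hR : SpecRacW) (hL : SpecLynF)
    (Pc : ℕ → (List Bool → ℤ) → Prop)
    (hsub : ∀ m φ χ, Pc m φ → Pc m χ → Pc m fun w => φ w - χ w) (N : ℕ)
    (hσ : ∀ r, 2 * (r + 1) + 1 < N → ∃ ψ, Sg r ψ ∧ GT Pc (2 * (r + 1) + 1) ψ) :
    ∀ k : ℕ, ∀ w : List Bool, w.length = k → IsLyn w → 1 ≤ w.count true →
      (expand w).length ≤ N → (2 ≤ w.count true ∨ (expand w).length < N) →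
      ∃ (P : Op) (q : List Bool → ZMod 2), Good (expand w).length (w.count true) q P ∧ Lead w q ∧
        (2 ≤ w.count true → ∀ (φ : List Bool → ℤ) (m : ℕ), (expand w).length ≤ m + 1 →
          pull P φ (bw [m]) = 0) ∧ Pres Pc (expand w).length P ∧ Inn (expand w).length P := by
  intro k
  induction k using Nat.strong_induction_on with
  | _ k ih =>
    intro w hk hw hc hN hor
    by_cases h1 : w.count true = 1
    · obtain ⟨r, rfl⟩ := lyn_one hw h1
      rw [expand_rep_length, count_rep] at *
      obtain ⟨ψ, hψ, hg⟩ := hσ r (by omega)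
      exact ⟨_, _, good_DD hS hR r ψ hψ.1, lead_qq hψ, by omega, pres_DD hg, inn_DD _ (by omega) ψ⟩
    · have h2 : 2 ≤ w.count true := by omega
      obtain ⟨u, v, rfl, hu, hv, hcu, hcv⟩ := hL w hw h2
      have hlu : u.length < k := by
        rw [← hk, List.length_append]
        have := List.length_pos_iff.2 hv.1
        omega
      have hlv : v.length < k := by
        rw [← hk, List.length_append]
        have := List.length_pos_iff.2 hu.1
        omega
      have hexp : (expand (u ++ v)).length = (expand u).length + (expand v).length := by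
        rw [expand_append, List.length_append]
      have hpos : ∀ t : List Bool, 1 ≤ t.count true → 1 ≤ (expand t).length := by
        intro t ht
        have := expand_length t
        omega
      have h3 := hpos u hcu
      have h4 := hpos v hcv
      obtain ⟨P, q, hP, hPl, -, hP1, hP2⟩ := ih _ hlu u rfl hu hcu (by omega) (Or.inr (by omega))
      obtain ⟨Q, q', hQ, hQl, -, hQ1, hQ2⟩ := ih _ hlv v rfl hv hcv (by omega) (Or.inr (by omega))
      have hlt : u ++ v < v := hw.2 u v rfl hu.1 hv.1
      refine ⟨P * Q - Q * P, _, ?_, lead_comm hP hQ hPl hQl rfl rfl rfl rfl hlt, ?_, ?_, ?_⟩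
      · rw [hexp, List.count_append]
        exact good_comm hP hQ
      · intro _ φ m hm
        exact comm_z' hP hQ φ m (by omega)
      · rw [hexp]
        exact pres_comm hsub hP1 hQ1
      · rw [hexp]
        exact inn_comm hI h3 h4 hP2 hQ2

/-- DESCENT -/
theorem desc' (hI : SpecIha) (hS : SpecShW) (hR : SpecRacW) (hL : SpecLynF)
    (Pc : ℕ → (List Bool → ℤ) → Prop)
    (hsub : ∀ m φ χ, Pc m φ → Pc m χ → Pc m fun w => φ w - χ w)
    (hhalf : ∀ m φ, (Pc m fun w => 2 * φ w) → Pc m φ)
    (hE : ∀ k : ℕ, ∃ ψ : List Bool → ℤ, DW (2 * k + 3) ψ ∧ ψ (bw [2 * k + 2]) ≠ 0 ∧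
      GT Pc (2 * k + 3) ψ) (r : ℕ) :
    ∃ ψ, Sg r ψ ∧ GT Pc (2 * (r + 1) + 1) ψ := by
  classical
  induction r using Nat.strong_induction_on with
  | _ r ih =>
    set n := 2 * (r + 1) + 1 with hn
    have hσ : ∀ r', 2 * (r' + 1) + 1 < n → ∃ ψ, Sg r' ψ ∧ GT Pc (2 * (r' + 1) + 1) ψ :=
      fun r' h => ih r' (by omega)
    by_contra hno
    -- an element with minimal depth one coefficient
    let p : ℕ → Prop := fun d => d ≠ 0 ∧ ∃ ψ : List Bool → ℤ, DW n ψ ∧ GT Pc n ψ ∧
      (ψ (bw [n - 1])).natAbs = d
    have hp : ∃ d, p d := by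
      obtain ⟨ψ, h1, h2, h3⟩ := hE r
      have e1 : 2 * r + 3 = n := by omega
      have e2 : 2 * r + 2 = n - 1 := by omega
      rw [e1] at h1 h3
      rw [e2] at h2
      exact ⟨_, by simpa using h2, ψ, h1, h3, rfl⟩
    obtain ⟨hd0, ψ₀, hψ₀, hg₀, hψd⟩ := Nat.find_spec hp
    set d := Nat.find hp with hd
    obtain ⟨W, hW, -⟩ := FinN.exists_words n
    let bad : (List Bool → ℤ) → Finset (List Bool) := fun F =>
      W.filter fun b => IsLyn b ∧ rd F (expand b) ≠ 0
    let U : (List Bool → ℤ) → Finset (List Bool) := fun F =>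
      W.filter fun w => ∃ b ∈ bad F, key b ≤ key w
    have hbad : ∀ F b, b ∈ bad F ↔ (expand b).length = n ∧ IsLyn b ∧ rd F (expand b) ≠ 0 := by
      intro F b
      rw [Finset.mem_filter, hW]
    have hU : ∀ F w, w ∈ U F ↔ (expand w).length = n ∧ ∃ b ∈ bad F, key b ≤ key w := by
      intro F w
      rw [Finset.mem_filter, hW]
    have main : ∀ k : ℕ, ∀ F : List Bool → ℤ, DW n F → GT Pc n F →
        F (bw [n - 1]) = ψ₀ (bw [n - 1]) →
        (U F).card ≤ k → ∃ F' : List Bool → ℤ, DW n F' ∧ GT Pc n F' ∧
          F' (bw [n - 1]) = ψ₀ (bw [n - 1]) ∧ ∀ l, EvL n l F' := by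
      intro k
      induction k with
      | zero =>
        intro F hF hg hc hcard
        refine ⟨F, hF, hg, hc, ?_⟩
        intro l w hw hwl _
        by_contra hne
        have hb : w ∈ bad F := (hbad F w).2 ⟨hwl, hw, fun h =>
          hne ((ZMod.intCast_zmod_eq_zero_iff_dvd _ 2).1 h)⟩
        have h2 : w ∈ U F := (hU F w).2 ⟨hwl, w, hb, le_refl _⟩
        have h3 : U F = ∅ := Finset.card_eq_zero.1 (by omega)
        rw [h3] at h2
        exact absurd h2 (by simp)
      | succ k ihk =>
        intro F hF hg hc hcard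
        by_cases hne : (bad F).Nonempty
        · obtain ⟨b, hb, hmin⟩ := Finset.exists_min_image (bad F) key hne
          obtain ⟨hbl, hbL, hb1⟩ := (hbad F b).1 hb
          have hlenb := expand_length b
          -- the level is at least two
          have h2 : 2 ≤ b.count true := by
            by_contra hlt
            have hc1 : b.count true = 1 := by omega
            obtain ⟨r', rfl⟩ := lyn_one hbL hc1
            have hr' : r' = r := by
              rw [expand_rep_length] at hbl
              omega
            subst hr'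
            exact hno ⟨F, ⟨hF, zmod2_cases _ hb1⟩, hg⟩
          obtain ⟨P, q, hP, hq, hz, hP1, hP2⟩ := exists_op' hI hS hR hL Pc hsub n hσ b.length b
            rfl hbL (by omega) (by omega) (Or.inl h2)
          rw [hbl] at hP hP1 hP2
          have hGz : pull P eps (bw [n - 1]) = 0 := hz h2 eps (n - 1) (by omega)
          have hG : DW n (pull P eps) := dw_op hP hF.three hGz
          refine ihk (fun w => F w - pull P eps w) (dw_sub hF hG)
            (gt_sub hsub hg (gt_of hP1 hP2)) ?_ ?_
          · show F _ - pull P eps _ = _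
            rw [hGz, sub_zero, hc]
          · -- the bad words of the difference are larger
            have hgt : ∀ c ∈ bad (fun w => F w - pull P eps w), key b < key c := by
              intro c hc'
              obtain ⟨hcl, hcL, hc1⟩ := (hbad _ c).1 hc'
              rw [rd_sub] at hc1
              have hlenc := expand_length c
              by_contra hcon
              have hle := not_lt.1 hcon
              rcases lt_or_eq_of_le hle with hlt | heq
              · have hG0 : rd (pull P eps) (expand c) = 0 := by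
                  rcases key_lt.1 hlt with h4 | ⟨h4, h5⟩
                  · rw [op_val hP c (le_of_lt h4), if_neg (by omega)]
                  · rw [op_val hP c (le_of_eq h4), if_pos h4]
                    exact hq.2 c (by omega) h5
                rw [hG0, sub_zero] at hc1
                exact absurd (hmin c ((hbad F c).2 ⟨hcl, hcL, hc1⟩)) (not_le.2 hlt)
              · have hcb : c = b := by
                  have h4 : ¬ key c < key b := by rw [heq]; exact lt_irrefl _
                  have h5 : ¬ key b < key c := by rw [heq]; exact lt_irrefl _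
                  rw [key_lt] at h4 h5
                  have hcnt : c.count true = b.count true := by omega
                  rcases lt_trichotomy c b with h6 | h6 | h6
                  · exact absurd (Or.inr ⟨hcnt, h6⟩) h4
                  · exact h6
                  · exact absurd (Or.inr ⟨hcnt.symm, h6⟩) h5
                rw [hcb, op_val hP b (le_refl _), if_pos rfl, hq.1, zmod2_cases _ hb1, sub_self]
                  at hc1
                exact hc1 rfl
            have hsub : U (fun w => F w - pull P eps w) ⊆ (U F).erase b := by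
              intro w hw
              obtain ⟨hwl, c, hc', hcw⟩ := (hU _ w).1 hw
              have hbw := lt_of_lt_of_le (hgt c hc') hcw
              rw [Finset.mem_erase]
              refine ⟨?_, (hU F w).2 ⟨hwl, b, hb, le_of_lt hbw⟩⟩
              rintro rfl
              exact lt_irrefl _ hbw
            have hbU : b ∈ U F := (hU F b).2 ⟨hbl, b, hb, le_refl _⟩
            have h7 := Finset.card_le_card hsub
            rw [Finset.card_erase_of_mem hbU] at h7
            omega
        · refine ⟨F, hF, hg, hc, ?_⟩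
          intro l w hw hwl _
          by_contra hne'
          exact hne ⟨w, (hbad F w).2 ⟨hwl, hw, fun h =>
            hne' ((ZMod.intCast_zmod_eq_zero_iff_dvd _ 2).1 h)⟩⟩
    obtain ⟨F, hF, hg, hc, hev⟩ := main _ ψ₀ hψ₀ hg₀ rfl (le_refl _)
    obtain ⟨F', hF', h2⟩ := dw_half hF (even_all (by omega) hF hev)
    have h3 := h2 (bw [n - 1]) (by
      rw [bw_length]
      simp only [wt_cons, wt_nil]
      omega)
    rw [hc] at h3
    have h4 : p (F' (bw [n - 1])).natAbs := by
      refine ⟨?_, F', hF', gt_half hhalf hg h2, rfl⟩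
      intro h0
      rw [Int.natAbs_eq_zero] at h0
      rw [h0, mul_zero] at h3
      rw [h3] at hψd
      exact hd0 (by rw [← hψd]; rfl)
    have h5 := Nat.find_min' hp h4
    have h6 : (ψ₀ (bw [n - 1])).natAbs = 2 * (F' (bw [n - 1])).natAbs := by
      rw [h3, Int.natAbs_mul]
      rfl
    omega

/-- IND for a class of functionals stable under the operators -/
theorem indP' (hI : SpecIha) (hS : SpecShW) (hR : SpecRacW) (hL : SpecLynF)
    (Pr : ℕ → (List Bool → ℤ) → Prop)
    (hsub : ∀ m φ χ, Pr m φ → Pr m χ → Pr m fun w => φ w - χ w)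
    (hhalf : ∀ m φ, (Pr m fun w => 2 * φ w) → Pr m φ)
    (hE : ∀ k : ℕ, ∃ ψ : List Bool → ℤ, DW (2 * k + 3) ψ ∧ ψ (bw [2 * k + 2]) ≠ 0 ∧
      GT Pr (2 * k + 3) ψ)
    (hP : ∀ m : ℕ, ∃ φ : List Bool → ℤ, Pr (2 * m) φ ∧ φ (zp m) ≠ 0) :
    ∀ (N : ℕ) (S : Finset (List Bool)) (c : List Bool → ℤ), (∀ s ∈ S, (expand s).length = N) →
      (∀ φ : List Bool → ℤ, Pr N φ → ∑ s ∈ S, c s * φ (expand s) = 0) → ∀ s ∈ S, c s = 0 := by
  classical
  intro N
  induction N using Nat.strong_induction_on with
  | _ N ih =>
    intro S c hlen hφ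
    by_contra hcon
    push Not at hcon
    obtain ⟨s₀, hs₀, hc₀⟩ := hcon
    -- the maximal level
    obtain ⟨s₁, hs₁, hmax⟩ := Finset.exists_max_image (S.filter fun s => c s ≠ 0)
      (fun s => s.count true) ⟨s₀, Finset.mem_filter.2 ⟨hs₀, hc₀⟩⟩
    set k := s₁.count true with hk
    obtain ⟨hs₁S, hc₁⟩ := Finset.mem_filter.1 hs₁
    have hle : ∀ s ∈ S, c s ≠ 0 → s.count true ≤ k := fun s hs hc =>
      hmax s (Finset.mem_filter.2 ⟨hs, hc⟩)
    rcases Nat.eq_zero_or_pos k with hk0 | hkpos
    · -- level zero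
      have h1 := count_zero (t := s₁) (by omega)
      have hN : N = 2 * s₁.length := by
        have := expand_length s₁
        have := hlen s₁ hs₁S
        omega
      obtain ⟨φ, hφR, hφ0⟩ := hP s₁.length
      have h2 := hφ φ (by rw [hN]; exact hφR)
      rw [Finset.sum_eq_single s₁] at h2
      · rw [h1, expand_zp] at h2
        rw [← h1] at h2
        rcases mul_eq_zero.1 h2 with h3 | h3
        · exact hc₁ h3
        · exact hφ0 h3
      · intro b hb hne
        by_contra hne2
        have hcb : c b ≠ 0 := fun h => hne2 (by rw [h, zero_mul])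
        have hb0 := hle b hb hcb
        have h3 := count_zero (t := b) (by omega)
        apply hne
        have hl1 := expand_length b
        have hl2 := hlen b hb
        rw [h3, h1]
        congr 1
        omega
      · intro h
        exact absurd hs₁S h
    · -- positive level
      set Sk := S.filter fun s => s.count true = k ∧ c s ≠ 0 with hSk
      have hs₁k : s₁ ∈ Sk := Finset.mem_filter.2 ⟨hs₁S, rfl, hc₁⟩
      have hex : ∃ v : ℕ, ∃ s ∈ Sk, ¬ (2 : ℤ) ^ (v + 1) ∣ c s := by
        refine ⟨(c s₁).natAbs, s₁, hs₁k, ?_⟩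
        intro hdvd
        have h1 := Int.natAbs_dvd_natAbs.2 hdvd
        rw [Int.natAbs_pow] at h1
        have h2 := Nat.le_of_dvd (Int.natAbs_pos.2 hc₁) h1
        have h3 : (c s₁).natAbs + 1 < 2 ^ ((c s₁).natAbs + 1) := Nat.lt_two_pow_self
        have h4 : ((2 : ℤ).natAbs) = 2 := rfl
        rw [h4] at h2
        omega
      set v₀ := Nat.find hex with hv₀
      have hdvd : ∀ s ∈ Sk, (2 : ℤ) ^ v₀ ∣ c s := by
        intro s hs
        rcases Nat.eq_zero_or_pos v₀ with h0 | hpos
        · rw [h0, pow_zero]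
          exact one_dvd _
        · have h1 := Nat.find_min hex (m := v₀ - 1) (by omega)
          push Not at h1
          have h2 := h1 s hs
          rwa [Nat.sub_add_cancel hpos] at h2
      obtain ⟨s₂, hs₂, hn₂⟩ := Nat.find_spec hex
      obtain ⟨t₀, ht₀, htmin⟩ := Finset.exists_min_image
        (Sk.filter fun s => ¬ (2 : ℤ) ^ (v₀ + 1) ∣ c s) tr
        ⟨s₂, Finset.mem_filter.2 ⟨hs₂, hn₂⟩⟩
      obtain ⟨ht₀k, hn₀⟩ := Finset.mem_filter.1 ht₀
      obtain ⟨ht₀S, ht₀c, ht₀ne⟩ := Finset.mem_filter.1 ht₀k
      obtain ⟨α, j, hα⟩ := exists_tr t₀ (by omega)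
      have htr : tr t₀ = j := by rw [hα, tr_eq]
      obtain ⟨ψ, hψ, hg⟩ := desc' hI hS hR hL Pr hsub hhalf hE j
      set n := 2 * (j + 1) + 1 with hn
      have hG := good_DD hS hR j ψ hψ.1
      have hexpt : (expand t₀).length = (expand α).length + n := by
        have h1 : (expand (true :: List.replicate j false)).length = n := by
          rw [expand_length, List.count_cons, List.count_replicate]
          simp
          omega
        rw [hα, expand_append, List.length_append, h1]
      have hNn : N = (expand α).length + n := by rw [← hexpt, hlen t₀ ht₀S]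
      have hcα : α.count true + 1 = k := by
        rw [← ht₀c, hα, List.count_append, List.count_cons, List.count_replicate]
        simp
      obtain ⟨W, hW, -⟩ := FinN.exists_words (expand α).length
      have hzero := ih (expand α).length (by omega) W
        (fun β => ∑ s ∈ S, c s * pull (DD n ψ) (dl β) (expand s))
        (fun w hw => (hW w).1 hw) (by
          intro φ' hφ'
          have h1 := hφ (pull (DD n ψ) φ') (by
            rw [hNn, add_comm, pull_DD']
            exact hg _ φ' hφ')
          have h3 : ∀ s ∈ S, c s * pull (DD n ψ) φ' (expand s) =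
              ∑ β ∈ W, c s * (pull (DD n ψ) (dl β) (expand s) * φ' (expand β)) := by
            intro s hs
            rw [pull_expand j ψ _ W hW s (by rw [hlen s hs, hNn]) φ', Finset.mul_sum]
          rw [Finset.sum_congr rfl h3, Finset.sum_comm] at h1
          rw [← h1]
          refine Finset.sum_congr rfl fun β _ => ?_
          rw [Finset.sum_mul]
          refine Finset.sum_congr rfl fun s _ => ?_
          ring) α ((hW α).2 rfl)
      -- all terms but one are divisible by `2^{v₀+1}`
      have hodd : ∀ s, rd (dl α) (expand s) = if s = α then 1 else 0 := by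
        intro s
        unfold rd dl
        by_cases h : s = α
        · simp [h]
        · have : expand s ≠ expand α := fun h' => h (expand_inj h')
          simp [h, this]
      have hred : ∀ s : List Bool, s.count true ≤ α.count true + 1 →
          ((pull (DD n ψ) (dl α) (expand s) : ℤ) : ZMod 2) =
            if s.count true = α.count true + 1 then
              cv (fun t => rd (dl α) (expand t)) (qq n (rd ψ)) s else 0 := by
        intro s hs
        have e1 : ((pull (DD n ψ) (dl α) (expand s) : ℤ) : ZMod 2) =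
            pull (DD n ψ) (rd (dl α)) (expand s) :=
          pull_map (Int.castAddHom (ZMod 2)) _ (dl α) (expand s)
        rw [e1]
        refine hG.lev (α.count true) (rd (dl α)) ?_ s hs
        intro s' hs'
        rw [hodd, if_neg]
        rintro rfl
        omega
      have hterm : ∀ s ∈ S, s ≠ t₀ → (2 : ℤ) ^ (v₀ + 1) ∣
          c s * pull (DD n ψ) (dl α) (expand s) := by
        intro s hs hne
        by_cases hcs : c s = 0
        · rw [hcs, zero_mul]
          exact dvd_zero _
        have hsk := hle s hs hcs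
        by_cases hslt : s.count true < k
        · have h0 : pull (DD n ψ) (dl α) (expand s) = 0 := by
            rw [pull_DD]
            refine level0 j ψ s _ ?_
            intro s' _ h2
            unfold dl
            rw [if_neg]
            intro h3
            rw [expand_inj h3] at h2
            omega
          rw [h0, mul_zero]
          exact dvd_zero _
        have hseq : s.count true = k := by omega
        have hsSk : s ∈ Sk := Finset.mem_filter.2 ⟨hs, hseq, hcs⟩
        by_cases heven : ((pull (DD n ψ) (dl α) (expand s) : ℤ) : ZMod 2) = 0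
        · have h1 : (2 : ℤ) ∣ pull (DD n ψ) (dl α) (expand s) :=
            (ZMod.intCast_zmod_eq_zero_iff_dvd _ 2).1 heven
          rw [pow_succ]
          exact mul_dvd_mul (hdvd s hsSk) h1
        · rw [hred s (by omega), if_pos (by omega)] at heven
          obtain ⟨a, t, hat, ha, hq⟩ := cv_ne heven
          have haα : a = α := by
            by_contra h
            exact ha (by rw [hodd, if_neg h])
          subst haα
          -- `t = A^i B A^{i'}`
          have hqs := hG.supp t hq
          obtain ⟨γ, i, hγ⟩ := exists_tr t (by omega)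
          have htrs : tr s = i := by
            rw [hat, hγ, ← List.append_assoc, tr_eq]
          have hcγ : γ.count true = 0 := by
            have h1 := hqs.1
            rw [hγ, List.count_append, List.count_cons, List.count_replicate] at h1
            simp at h1
            exact h1
          have hlt : γ.length + i = j := by
            have h1 := hqs.2
            rw [expand_length, hqs.1, hγ, List.length_append, List.length_cons,
              List.length_replicate] at h1
            omega
          have hγne : γ ≠ [] := by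
            rintro rfl
            apply hne
            rw [hat, hγ, hα]
            simp only [List.length_nil, zero_add] at hlt
            rw [hlt]
            rfl
          have hγpos := List.length_pos_iff.2 hγne
          by_contra hnd
          have h5 : s ∈ Sk.filter fun s => ¬ (2 : ℤ) ^ (v₀ + 1) ∣ c s :=
            Finset.mem_filter.2 ⟨hsSk, fun h => hnd (Dvd.dvd.mul_right h _)⟩
          have h6 := htmin s h5
          rw [htr, htrs] at h6
          omega
      have hlast : ¬ (2 : ℤ) ^ (v₀ + 1) ∣ c t₀ * pull (DD n ψ) (dl α) (expand t₀) := by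
        have h1 : ((pull (DD n ψ) (dl α) (expand t₀) : ℤ) : ZMod 2) = 1 := by
          rw [hred t₀ (by omega), if_pos (by omega)]
          unfold cv
          rw [Finset.sum_eq_single α.length]
          · rw [hα, List.take_left' rfl, List.drop_left' rfl]
            show rd (dl α) (expand α) * _ = 1
            rw [hodd, if_pos rfl, one_mul]
            exact qq_rev hψ
          · intro i hi hne
            show rd (dl α) (expand (t₀.take i)) * _ = 0
            rw [hodd, if_neg, zero_mul]
            intro h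
            have h2 := congrArg List.length h
            rw [List.length_take] at h2
            have h3 := Finset.mem_range.1 hi
            omega
          · intro h
            exfalso
            apply h
            rw [Finset.mem_range, hα, List.length_append]
            omega
        intro h2
        have hodd2 : ¬ (2 : ℤ) ∣ pull (DD n ψ) (dl α) (expand t₀) := by
          intro h3
          rw [(ZMod.intCast_zmod_eq_zero_iff_dvd _ 2).2 h3] at h1
          exact absurd h1 (by decide)
        have hcop : IsCoprime ((2 : ℤ) ^ (v₀ + 1)) (pull (DD n ψ) (dl α) (expand t₀)) := by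
          refine IsCoprime.pow_left ?_
          exact (Int.prime_two.coprime_iff_not_dvd).2 hodd2
        exact hn₀ (hcop.dvd_of_dvd_mul_right h2)
      apply hlast
      have h7 : ∑ s ∈ S, c s * pull (DD n ψ) (dl α) (expand s) = 0 := hzero
      rw [← Finset.add_sum_erase S _ ht₀S] at h7
      have h8 : (2 : ℤ) ^ (v₀ + 1) ∣
          ∑ s ∈ S.erase t₀, c s * pull (DD n ψ) (dl α) (expand s) :=
        Finset.dvd_sum fun s hs => hterm s (Finset.mem_of_mem_erase hs) (Finset.ne_of_mem_erase hs)
      have h9 := (Int.dvd_add_left h8).1 (by rw [h7]; exact dvd_zero _)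
      exact h9

end MP154526.Assoc.IndGM

namespace MP154526.Assoc

open MP154526.Low IndGM

/-- INDG -/
theorem specIndG (hI : SpecIha) (hS : SpecShW) (hR : SpecRacW) (hL : SpecLynF) : SpecIndG := by
  intro Pr hsub hhalf hcongr hE hP
  exact indP' hI hS hR hL Pr hsub hhalf hE hP

end MP154526.Assoc
end

section
/-!
# KZC: the coefficients of the Knizhnik-Zamolodchikov series are multiple zeta values
-/
set_option autoImplicit false

namespace MP154526.Assoc.KZCM

open Finset MP154526.Bound MP154526.Top MP154526.Top.Pass2 MP154526.Lin MP154526.Low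
open MP154526.Low.Lsh Filter Topology

/-! ### the polylogarithms -/

/-- the differential forms -/
noncomputable def om' (b : Bool) (r : ℝ) : ℝ := if b then (1 - r)⁻¹ else r⁻¹

theorem summ (w : List Bool) (k : ℕ) {t : ℝ} (h0 : 0 ≤ t) (h1 : t < 1) :
    Summable fun n : ℕ => ((n : ℝ) + 1) ^ k * cw w n * t ^ n := by
  refine Summable.of_nonneg_of_le (fun n => ?_) (fun n => ?_)
    (Abel.summable_pow (k + w.length) h0 h1)
  · have := cw_nonneg w n
    positivity
  · rw [pow_add]
    have := cw_le w n
    gcongr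

/-- the power series with coefficients `n cw w n` -/
theorem hasDeriv (w : List Bool) {t : ℝ} (h0 : 0 < t) (h1 : t < 1) :
    HasDerivAt (fun t => ev t (F w)) (t⁻¹ * ∑' n : ℕ, (n : ℝ) * cw w n * t ^ n) t := by
  obtain ⟨ρ, hρ1, hρ2⟩ := exists_between h1
  have hρ0 : 0 < ρ := h0.trans hρ1
  have hu : Summable fun n : ℕ => (n : ℝ) * cw w n * ρ ^ (n - 1) := by
    have h2 : Summable fun n : ℕ => ρ⁻¹ * (((n : ℝ) + 1) ^ 1 * cw w n * ρ ^ n) :=
      (summ w 1 hρ0.le hρ2).mul_left _
    refine Summable.of_nonneg_of_le (fun n => ?_) (fun n => ?_) h2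
    · have := cw_nonneg w n
      positivity
    · have h3 := cw_nonneg w n
      rcases Nat.eq_zero_or_pos n with rfl | hn
      · simp only [Nat.cast_zero, zero_mul]
        positivity
      · obtain ⟨m, rfl⟩ : ∃ m, n = m + 1 := ⟨n - 1, by omega⟩
        rw [Nat.add_sub_cancel, pow_one]
        have e : ρ⁻¹ * ((((m + 1 : ℕ) : ℝ) + 1) * cw w (m + 1) * ρ ^ (m + 1)) =
            (((m + 1 : ℕ) : ℝ) + 1) * cw w (m + 1) * ρ ^ m := by
          rw [pow_succ]
          field_simp
        rw [e]
        have : (0 : ℝ) ≤ ρ ^ m := by positivity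
        have h4 : (0 : ℝ) ≤ cw w (m + 1) * ρ ^ m := mul_nonneg h3 this
        nlinarith
  have hd := hasDerivAt_tsum_of_isPreconnected (g := fun (n : ℕ) (t : ℝ) => cw w n * t ^ n)
    (g' := fun (n : ℕ) (t : ℝ) => cw w n * ((n : ℝ) * t ^ (n - 1))) (t := Set.Ioo 0 ρ) hu
    isOpen_Ioo isPreconnected_Ioo (fun n y _ => (hasDerivAt_pow n y).const_mul _)
    (fun n y hy => by
      have h3 := cw_nonneg w n
      have hy0 : 0 ≤ y := hy.1.le
      rw [Real.norm_of_nonneg (by positivity)]
      have : y ^ (n - 1) ≤ ρ ^ (n - 1) := pow_le_pow_left₀ hy0 hy.2.le _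
      have h5 : 0 ≤ cw w n * (n : ℝ) := by positivity
      nlinarith)
    (y₀ := t) ⟨h0, hρ1⟩ (by
      have := summ w 0 h0.le h1
      simpa using this) (y := t) ⟨h0, hρ1⟩
  have e1 : (fun t => ev t (F w)) = fun t => ∑' n : ℕ, cw w n * t ^ n := by
    funext t
    unfold Lsh.ev
    simp only [coeff_F]
  rw [e1]
  refine hd.congr_deriv ?_
  rw [← tsum_mul_left]
  refine tsum_congr fun n => ?_
  rcases Nat.eq_zero_or_pos n with rfl | hn
  · simp
  · obtain ⟨m, rfl⟩ : ∃ m, n = m + 1 := ⟨n - 1, by omega⟩
    rw [Nat.add_sub_cancel, pow_succ]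
    field_simp

theorem cw_th (b : Bool) (w : List Bool) (h : b = true ∨ w ≠ []) (n : ℕ) :
    (n : ℝ) * cw (b :: w) n = if b then ∑ m ∈ range n, cw w m else cw w n := by
  cases b
  · have hw : w ≠ [] := by simpa using h
    rw [cw_false]
    rcases Nat.eq_zero_or_pos n with rfl | hn
    · rw [cw_zero_of_ne hw]; simp
    · have hn' : (n : ℝ) ≠ 0 := by exact_mod_cast hn.ne'
      simp only [Bool.false_eq_true, if_false]
      field_simp
  · rw [cw_true, if_pos rfl]
    rcases Nat.eq_zero_or_pos n with rfl | hn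
    · simp
    · have hn' : (n : ℝ) ≠ 0 := by exact_mod_cast hn.ne'
      field_simp

theorem ev_deriv (b : Bool) (w : List Bool) (h : b = true ∨ w ≠ []) {t : ℝ} (h0 : 0 < t)
    (h1 : t < 1) : HasDerivAt (fun t => ev t (F (b :: w))) (om' b t * ev t (F w)) t := by
  refine (hasDeriv (b :: w) h0 h1).congr_deriv ?_
  have e1 : ev t (F w) = ∑' n : ℕ, cw w n * t ^ n := by
    unfold Lsh.ev
    simp only [coeff_F]
  rw [e1]
  cases b
  · have e2 : ∀ n : ℕ, (n : ℝ) * cw (false :: w) n * t ^ n = cw w n * t ^ n := by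
      intro n
      rw [cw_th false w h n]
      simp
    rw [tsum_congr e2]
    simp [om']
  · have e2 : ∀ n : ℕ, (n : ℝ) * cw (true :: w) n * t ^ n = (∑ m ∈ range n, cw w m) * t ^ n := by
      intro n
      rw [cw_th true w h n, if_pos rfl]
    rw [tsum_congr e2]
    have hs : Summable fun n : ℕ => cw w n * t ^ n := by
      have := summ w 0 h0.le h1
      simpa using this
    have hS : Summable fun n : ℕ => (∑ m ∈ range n, cw w m) * t ^ n := by
      have := summ (true :: w) 1 h0.le h1
      refine Summable.of_nonneg_of_le (fun n => ?_) (fun n => ?_) this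
      · have : 0 ≤ ∑ m ∈ range n, cw w m := Finset.sum_nonneg fun m _ => cw_nonneg w m
        positivity
      · rw [← e2 n, pow_one]
        have h3 := cw_nonneg (true :: w) n
        have : (0 : ℝ) ≤ cw (true :: w) n * t ^ n := by positivity
        nlinarith
    have e3 : ∑' n : ℕ, (∑ m ∈ range n, cw w m) * t ^ n =
        t * ∑' n : ℕ, (∑ m ∈ range n, cw w m) * t ^ n + t * ∑' n : ℕ, cw w n * t ^ n := by
      conv_lhs => rw [hS.tsum_eq_zero_add]
      simp only [range_zero, sum_empty, zero_mul, zero_add]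
      rw [← mul_add, ← hS.tsum_add hs, ← tsum_mul_left]
      refine tsum_congr fun n => ?_
      rw [sum_range_succ, pow_succ]
      ring
    have h4 : (1 : ℝ) - t ≠ 0 := by linarith
    have e4 : ∑' n : ℕ, (∑ m ∈ range n, cw w m) * t ^ n =
        t * (1 - t)⁻¹ * ∑' n : ℕ, cw w n * t ^ n := by
      field_simp
      linarith
    rw [e4]
    simp only [om', if_pos]
    field_simp

theorem ev_nonneg (w : List Bool) {t : ℝ} (h0 : 0 ≤ t) : 0 ≤ ev t (F w) := by
  unfold Lsh.ev
  refine tsum_nonneg fun n => ?_
  rw [coeff_F]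
  have := cw_nonneg w n
  positivity

/-- near the origin -/
theorem ev_small (b : Bool) (w : List Bool) {t₀ : ℝ} (h0 : 0 < t₀) (h1 : t₀ < 1) :
    ∃ C : ℝ, 0 ≤ C ∧ ∀ a, 0 ≤ a → a ≤ t₀ → ev a (F (b :: w)) ≤ C * a := by
  have hs : Summable fun n : ℕ => cw (b :: w) n * t₀ ^ n := by
    have := summ (b :: w) 0 h0.le h1
    simpa using this
  refine ⟨t₀⁻¹ * ∑' n : ℕ, cw (b :: w) n * t₀ ^ n, ?_, ?_⟩
  · refine mul_nonneg (by positivity) (tsum_nonneg fun n => ?_)
    have := cw_nonneg (b :: w) n
    positivity
  · intro a ha hat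
    have e : t₀⁻¹ * (∑' n : ℕ, cw (b :: w) n * t₀ ^ n) * a =
        ∑' n : ℕ, (a / t₀) * (cw (b :: w) n * t₀ ^ n) := by
      rw [tsum_mul_left]
      field_simp
    rw [e]
    unfold Lsh.ev
    simp only [coeff_F]
    refine Summable.tsum_le_tsum (fun n => ?_) ?_ (hs.mul_left _)
    · rcases Nat.eq_zero_or_pos n with rfl | hn
      · rw [cw_cons_zero]; simp
      · obtain ⟨m, rfl⟩ : ∃ m, n = m + 1 := ⟨n - 1, by omega⟩
        have h3 := cw_nonneg (b :: w) (m + 1)
        have e2 : a / t₀ * (cw (b :: w) (m + 1) * t₀ ^ (m + 1)) =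
            cw (b :: w) (m + 1) * (a * t₀ ^ m) := by
          rw [pow_succ]
          field_simp
        rw [e2, pow_succ, mul_comm (a ^ m) a]
        have : a ^ m ≤ t₀ ^ m := pow_le_pow_left₀ ha hat _
        gcongr
    · have := summ (b :: w) 0 ha (lt_of_le_of_lt hat h1)
      simpa using this

/-! ### the iterated integrals -/

/-- iterated integrals with signs -/
noncomputable def KK (w : List Bool) (a t : ℝ) : ℝ :=
  (-1) ^ w.count true * MP446S.II (w.map fl) a t

theorem KK_nil (a t : ℝ) : KK [] a t = 1 := by simp [KK, MP446S.II]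

theorem KK_cons (b : Bool) (w : List Bool) (a t : ℝ) :
    KK (b :: w) a t = ∫ r in a..t, om' b r * KK w a r := by
  unfold KK
  rw [List.map_cons]
  change _ * (∫ r in a..t, MP446S.om (fl b) r * MP446S.II (w.map fl) a r) = _
  rw [← intervalIntegral.integral_const_mul]
  refine intervalIntegral.integral_congr fun r _ => ?_
  cases b
  · simp [om', fl, MP446S.om]
    ring
  · simp only [List.count_cons_self, pow_succ, om', fl, MP446S.om, if_pos, one_ne_zero, if_false]
    rw [← neg_sub 1 r, inv_neg]
    ring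

theorem om'_cont (b : Bool) : ContinuousOn (om' b) (Set.Ioo 0 1) := by
  unfold om'
  cases b
  · simp only [Bool.false_eq_true, if_false]
    exact ContinuousOn.inv₀ continuousOn_id (fun x hx => hx.1.ne')
  · simp only [if_true]
    exact ContinuousOn.inv₀ (continuousOn_const.sub continuousOn_id)
      (fun x hx => (sub_pos.2 hx.2).ne')

theorem om'_nonneg (b : Bool) {r : ℝ} (h0 : 0 < r) (h1 : r < 1) : 0 ≤ om' b r := by
  unfold om'
  cases b
  · simp only [Bool.false_eq_true, if_false]
    positivity
  · simp only [if_true]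
    have : 0 < 1 - r := by linarith
    positivity

theorem KK_cont (w : List Bool) {a : ℝ} (ha : a ∈ Set.Ioo (0 : ℝ) 1) :
    ContinuousOn (fun t => KK w a t) (Set.Ioo 0 1) :=
  continuousOn_const.mul (MP446S.II_cont (w.map fl) ha)

theorem int_om' (b : Bool) {a t t₀ : ℝ} (ha : 0 < a) (hat : a ≤ t) (ht : t ≤ t₀) (ht₀ : t₀ < 1) :
    ∫ r in a..t, om' b r ≤ |Real.log a| + |Real.log (1 - t₀)| := by
  have ht1 : t < 1 := lt_of_le_of_lt ht ht₀
  have ha1 : a < 1 := lt_of_le_of_lt hat ht1
  have ht0 : 0 < t := lt_of_lt_of_le ha hat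
  have hsub := MP446S.uIcc_sub (s := a) (t := t) ⟨ha, ha1⟩ ⟨ht0, ht1⟩
  have hI : IntervalIntegrable (om' b) MeasureTheory.volume a t :=
    ((om'_cont b).mono hsub).intervalIntegrable
  cases b
  · have h1 : ∀ x ∈ Set.uIcc a t, HasDerivAt Real.log (om' false x) x := by
      intro x hx
      have hx' := hsub hx
      have := Real.hasDerivAt_log hx'.1.ne'
      simpa [om'] using this
    rw [intervalIntegral.integral_eq_sub_of_hasDerivAt h1 hI]
    have h2 : Real.log t ≤ 0 := Real.log_nonpos ht0.le ht1.le
    have h3 : Real.log a ≤ 0 := Real.log_nonpos ha.le ha1.le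
    rw [abs_of_nonpos h3]
    have := abs_nonneg (Real.log (1 - t₀))
    linarith
  · have h1 : ∀ x ∈ Set.uIcc a t, HasDerivAt (fun x => -Real.log (1 - x)) (om' true x) x := by
      intro x hx
      have hx' := hsub hx
      have h3 : (1 : ℝ) - x ≠ 0 := (sub_pos.2 hx'.2).ne'
      have h2 := (((hasDerivAt_id x).const_sub 1).log h3).neg
      refine h2.congr_deriv ?_
      simp only [om', if_true]
      rw [neg_div, neg_neg, one_div]
      rfl
    rw [intervalIntegral.integral_eq_sub_of_hasDerivAt h1 hI]
    have h2 : Real.log (1 - a) ≤ 0 := Real.log_nonpos (by linarith) (by linarith)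
    have h3 : Real.log (1 - t₀) ≤ Real.log (1 - t) :=
      Real.log_le_log (by linarith) (by linarith)
    have h4 : -Real.log (1 - t₀) ≤ |Real.log (1 - t₀)| := neg_le_abs _
    have := abs_nonneg (Real.log a)
    linarith

/-- the comparison of the iterated integrals with the polylogarithms -/
theorem compare (w : List Bool) (hw : EndY w) {t₀ : ℝ} (h0 : 0 < t₀) (h1 : t₀ < 1) :
    ∃ C : ℝ, 0 ≤ C ∧ ∀ a t, 0 < a → a ≤ t → t ≤ t₀ →
      |ev t (F w) - KK w a t| ≤ C * (a * (1 + |Real.log a|) ^ w.length) := by
  induction w with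
  | nil =>
    refine ⟨0, le_rfl, ?_⟩
    intro a t ha hat ht
    have e : ev t (F []) = 1 := by
      rw [ev_F (ha.le.trans hat) (lt_of_le_of_lt ht h1)]
      rfl
    rw [e, KK_nil]
    simp
  | cons b w ih =>
    have hw' : EndY w := Pass1.endY_tail hw
    have hb : b = true ∨ w ≠ [] := by
      cases b
      · right
        rintro rfl
        rcases hw with h | ⟨u, h⟩
        · simp at h
        · have := congrArg List.getLast? h
          simp at this
      · exact Or.inl rfl
    obtain ⟨C, hC0, hC⟩ := ih hw'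
    obtain ⟨C', hC'0, hC'⟩ := ev_small b w h0 h1
    set L := |Real.log (1 - t₀)| with hL
    have hL0 : 0 ≤ L := abs_nonneg _
    refine ⟨C' + C * (1 + L), by positivity, ?_⟩
    intro a t ha hat ht
    have ht1 : t < 1 := lt_of_le_of_lt ht h1
    have ha1 : a < 1 := lt_of_le_of_lt hat ht1
    have ht0 : 0 < t := lt_of_lt_of_le ha hat
    have haI : a ∈ Set.Ioo (0 : ℝ) 1 := ⟨ha, ha1⟩
    have hsub := MP446S.uIcc_sub (s := a) (t := t) haI ⟨ht0, ht1⟩
    have hevc : ContinuousOn (fun r => ev r (F w)) (Set.Ioo 0 1) := by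
      intro r hr
      exact (hasDeriv w hr.1 hr.2).continuousAt.continuousWithinAt
    have hI1 : IntervalIntegrable (fun r => om' b r * ev r (F w)) MeasureTheory.volume a t :=
      (((om'_cont b).mul hevc).mono hsub).intervalIntegrable
    have hI2 : IntervalIntegrable (fun r => om' b r * KK w a r) MeasureTheory.volume a t :=
      (((om'_cont b).mul (KK_cont w haI)).mono hsub).intervalIntegrable
    have hI3 : IntervalIntegrable (om' b) MeasureTheory.volume a t :=
      ((om'_cont b).mono hsub).intervalIntegrable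
    have e1 : ev t (F (b :: w)) = ev a (F (b :: w)) + ∫ r in a..t, om' b r * ev r (F w) := by
      rw [intervalIntegral.integral_eq_sub_of_hasDerivAt (f := fun r => ev r (F (b :: w)))
        (fun x hx => ev_deriv b w hb (hsub hx).1 (hsub hx).2) hI1]
      ring
    have e2 : ev t (F (b :: w)) - KK (b :: w) a t =
        ev a (F (b :: w)) + ∫ r in a..t, om' b r * (ev r (F w) - KK w a r) := by
      rw [e1, KK_cons]
      have : (fun r => om' b r * (ev r (F w) - KK w a r)) =
          fun r => om' b r * ev r (F w) - om' b r * KK w a r := by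
        funext r
        ring
      rw [this, intervalIntegral.integral_sub hI1 hI2]
      ring
    set B := C * (a * (1 + |Real.log a|) ^ w.length) with hB
    have hla : 0 ≤ |Real.log a| := abs_nonneg _
    have hB0 : 0 ≤ B := by positivity
    have hint : |∫ r in a..t, om' b r * (ev r (F w) - KK w a r)| ≤ B * (|Real.log a| + L) := by
      calc |∫ r in a..t, om' b r * (ev r (F w) - KK w a r)|
          ≤ ∫ r in a..t, om' b r * B := by
            rw [← Real.norm_eq_abs]
            refine intervalIntegral.norm_integral_le_of_norm_le hat ?_ (hI3.mul_const B)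
            refine Filter.Eventually.of_forall fun r hr => ?_
            have hr0 : 0 < r := ha.trans hr.1
            have hr1 : r < 1 := lt_of_le_of_lt hr.2 ht1
            rw [norm_mul, Real.norm_of_nonneg (om'_nonneg b hr0 hr1), Real.norm_eq_abs]
            exact mul_le_mul_of_nonneg_left (hC a r ha hr.1.le (hr.2.trans ht))
              (om'_nonneg b hr0 hr1)
        _ = (∫ r in a..t, om' b r) * B := intervalIntegral.integral_mul_const _ _
        _ ≤ (|Real.log a| + L) * B := mul_le_mul_of_nonneg_right (int_om' b ha hat ht h1) hB0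
        _ = B * (|Real.log a| + L) := mul_comm _ _
    have h3 := hC' a ha.le (hat.trans ht)
    have h4 := ev_nonneg (b :: w) ha.le
    rw [e2]
    refine (abs_add_le _ _).trans ?_
    rw [abs_of_nonneg h4, List.length_cons]
    set X := 1 + |Real.log a| with hX
    have hX1 : 1 ≤ X := by linarith
    have h5 : C' * a ≤ C' * (a * X ^ (w.length + 1)) := by
      have : 1 ≤ X ^ (w.length + 1) := one_le_pow₀ hX1
      have h6 : a ≤ a * X ^ (w.length + 1) := le_mul_of_one_le_right ha.le this
      exact mul_le_mul_of_nonneg_left h6 hC'0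
    have h6 : B * (|Real.log a| + L) ≤ C * (1 + L) * (a * X ^ (w.length + 1)) := by
      have h7 : |Real.log a| + L ≤ (1 + L) * X := by
        have : 0 ≤ L * |Real.log a| := by positivity
        rw [hX]
        nlinarith
      calc B * (|Real.log a| + L) ≤ B * ((1 + L) * X) := mul_le_mul_of_nonneg_left h7 hB0
        _ = C * (1 + L) * (a * X ^ (w.length + 1)) := by
          rw [hB, pow_succ]
          ring
    calc ev a (F (b :: w)) + |∫ r in a..t, om' b r * (ev r (F w) - KK w a r)|
        ≤ C' * (a * X ^ (w.length + 1)) + C * (1 + L) * (a * X ^ (w.length + 1)) :=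
          add_le_add (h3.trans h5) (hint.trans h6)
      _ = (C' + C * (1 + L)) * (a * X ^ (w.length + 1)) := by ring

theorem small_tendsto (k : ℕ) :
    Tendsto (fun a : ℝ => a * (1 + |Real.log a|) ^ k) (𝓝[>] 0) (𝓝 0) := by
  have h1 : Tendsto (fun x : ℝ => (1 + x) ^ k / Real.exp x) atTop (𝓝 0) := by
    have h2 := Real.tendsto_pow_mul_exp_neg_atTop_nhds_zero k
    have h3 : Tendsto (fun x : ℝ => Real.exp 1 * ((1 + x) ^ k * Real.exp (-(1 + x)))) atTop (𝓝 0) := by
      have := (h2.comp (tendsto_atTop_add_const_left _ (1 : ℝ) tendsto_id)).const_mul (Real.exp 1)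
      simpa using this
    refine h3.congr fun x => ?_
    rw [neg_add, Real.exp_add, Real.exp_neg, Real.exp_neg]
    have := Real.exp_pos 1
    have := Real.exp_pos x
    field_simp
  have h2 : Tendsto (fun a : ℝ => -Real.log a) (𝓝[>] 0) atTop :=
    tendsto_neg_atBot_atTop.comp Real.tendsto_log_nhdsGT_zero
  refine (h1.comp h2).congr' ?_
  have h3 : Set.Ioo (0 : ℝ) 1 ∈ 𝓝[>] (0 : ℝ) := Ioo_mem_nhdsGT (by norm_num)
  filter_upwards [h3] with a ha
  have h4 : Real.log a ≤ 0 := Real.log_nonpos ha.1.le ha.2.le
  simp only [Function.comp]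
  rw [Real.exp_neg, Real.exp_log ha.1, abs_of_nonpos h4]
  rw [div_inv_eq_mul, mul_comm]

theorem KK_tendsto (w : List Bool) (hw : EndY w) {t : ℝ} (h0 : 0 < t) (h1 : t < 1) :
    Tendsto (fun a => KK w a t) (𝓝[>] 0) (𝓝 (ev t (F w))) := by
  obtain ⟨C, hC0, hC⟩ := compare w hw h0 h1
  rw [tendsto_iff_norm_sub_tendsto_zero]
  have h2 := (small_tendsto w.length).const_mul C
  rw [mul_zero] at h2
  refine squeeze_zero' (Eventually.of_forall fun a => norm_nonneg _) ?_ h2
  have h3 : Set.Ioo (0 : ℝ) t ∈ 𝓝[>] (0 : ℝ) := Ioo_mem_nhdsGT h0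
  filter_upwards [h3] with a ha
  rw [Real.norm_eq_abs, abs_sub_comm]
  exact hC a t ha.1 ha.2.le le_rfl

/-! ### the coefficients -/

theorem cf_PP_adm {N : ℕ} {w : List Bool} (hw : Adm w) (hne : w ≠ []) (hN : w.length < N)
    (a b : ℝ) : MP446S.cf (MP446S.PP N a b) (w.map fl) = MP446S.II (w.map fl) a (1 - b) := by
  rcases hw with h | ⟨u, rfl⟩
  · exact absurd h hne
  have hN1 : 1 ≤ N := by omega
  set v : List (Fin 2) := (false :: u ++ [true]).map fl with hv
  have hlen : v.length = (false :: u ++ [true]).length := by rw [hv, List.length_map]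
  have hv2 : v = 0 :: (u.map fl) ++ [1] := by
    rw [hv]
    simp [fl]
  unfold MP446S.PP
  rw [MP446S.cf_mul, Finset.sum_range_succ, Finset.sum_eq_zero, zero_add]
  · rw [List.take_length, List.drop_length, MP446S.cf_ey_nil hN1, mul_one, MP446S.cf_left hN1]
    · rw [hlen]
      exact hN
    · rw [hv2]
      simp
  · intro i hi
    rw [Finset.mem_range] at hi
    rw [MP446S.cf_ey_ne _ 0 1 (by decide), mul_zero]
    have h2 : v.drop i = (0 :: (u.map fl)).drop i ++ [1] := by
      rw [hv2, List.drop_append_of_le_length]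
      rw [hv2] at hi
      simp only [List.length_append, List.length_cons, List.length_nil] at hi ⊢
      omega
    rw [h2]
    simp

end MP154526.Assoc.KZCM

namespace MP154526.Assoc

open Finset MP154526.Bound MP154526.Top MP154526.Low MP154526.Low.Lsh Filter Topology KZCM

/-- KZC -/
theorem specKZC : SpecKZC := by
  intro N P hN h w hw hwN
  by_cases hne : w = []
  · subst hne
    have h1 := (MP446S.specCOEF N P hN h).1.1
    rw [List.map_nil, h1]
    simp [Zw, toY, zeta]
  obtain ⟨C, hC⟩ := MP446S.cf_lim hN h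
  have hwl : (w.map fl).length < N := by rwa [List.length_map]
  have hE : EndY w := Zshuf.endY_of_adm hw
  -- the limit for `a → 0`
  have h1 : ∀ b : ℝ, 0 < b → b ≤ 1 / 2 →
      |ev (1 - b) (F w) - (-1) ^ w.count true * MP446S.cf P (w.map fl)| ≤ C * √b := by
    intro b hb hb2
    have h2 := (KK_tendsto w hE (t := 1 - b) (by linarith) (by linarith)).sub_const
      ((-1) ^ w.count true * MP446S.cf P (w.map fl))
    have h3 : Tendsto (fun a : ℝ => C * (√a + √b)) (𝓝[>] 0) (𝓝 (C * √b)) := by
      have h4 : Continuous (fun a : ℝ => C * (√a + √b)) := by fun_prop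
      have h5 := h4.tendsto 0
      simp only [Real.sqrt_zero, zero_add] at h5
      exact h5.mono_left nhdsWithin_le_nhds
    refine le_of_tendsto_of_tendsto h2.abs h3 ?_
    have h4 : Set.Ioc (0 : ℝ) (1 / 2) ∈ 𝓝[>] (0 : ℝ) := Ioc_mem_nhdsGT (by norm_num)
    filter_upwards [h4] with a ha
    have h5 := hC a b ha.1 ha.2 hb hb2 (w.map fl) hwl
    rw [cf_PP_adm hw hne hwN] at h5
    unfold KK
    rw [← mul_sub, abs_mul, abs_pow, abs_neg, abs_one, one_pow, one_mul, ← Real.norm_eq_abs]
    exact h5
  -- the limit for `b → 0`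
  have h6 : Tendsto (fun b : ℝ => 1 - b) (𝓝[>] 0) (𝓝[<] 1) := by
    rw [tendsto_nhdsWithin_iff]
    refine ⟨?_, ?_⟩
    · have : Continuous fun b : ℝ => 1 - b := by fun_prop
      have h7 := this.tendsto 0
      simp only [sub_zero] at h7
      exact h7.mono_left nhdsWithin_le_nhds
    · filter_upwards [self_mem_nhdsWithin] with b hb
      have : (0 : ℝ) < b := hb
      show 1 - b < 1
      linarith
  have h7 := ((Zshuf.ev_tendsto hw).comp h6).sub_const
    ((-1) ^ w.count true * MP446S.cf P (w.map fl))
  have h8 : Tendsto (fun b : ℝ => C * √b) (𝓝[>] 0) (𝓝 0) := by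
    have h4 : Continuous (fun b : ℝ => C * √b) := by fun_prop
    have h5 := h4.tendsto 0
    simp only [Real.sqrt_zero, mul_zero] at h5
    exact h5.mono_left nhdsWithin_le_nhds
  have h9 : |Zw w - (-1) ^ w.count true * MP446S.cf P (w.map fl)| ≤ 0 := by
    refine le_of_tendsto_of_tendsto h7.abs h8 ?_
    have h4 : Set.Ioc (0 : ℝ) (1 / 2) ∈ 𝓝[>] (0 : ℝ) := Ioc_mem_nhdsGT (by norm_num)
    filter_upwards [h4] with b hb
    exact h1 b hb.1 hb.2
  have h10 := abs_nonpos_iff.1 h9
  rw [sub_eq_zero] at h10
  rw [h10, ← mul_assoc, ← mul_pow]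
  norm_num

end MP154526.Assoc
end
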