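import Pool.Agent.Lib.MP_154526_nt.Assoc.Spec
import Pool.Agent.Lib.MP_154526_nt.Low.Ideal

/-!
# MAIN: the relations of the real points are the double shuffle relations
-/

set_option autoImplicit false

namespace MP154526.Assoc

open Finset MP154526.Bound MP154526.Top MP154526.Top.Pass2 MP154526.Lin MP154526.Low

namespace MainM

/-- rational coefficients -/
theorem indR (hI : SpecIndG) (hE : SpecExG) (hG : SpecGT) (hP : SpecPiG) (N : ℕ)
    (S : Finset (List Bool)) (c : List Bool → ℚ) (hS : ∀ s ∈ S, (expand s).length = N)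
    (h : ∀ φ : List Bool → ℤ, Pr N φ → ∑ s ∈ S, c s * (φ (expand s) : ℚ) = 0) :
    ∀ s ∈ S, c s = 0 := by
  classical
  intro s hs
  set d : ℤ := ∏ s ∈ S, ((c s).den : ℤ) with hd
  have hd0 : d ≠ 0 := Finset.prod_ne_zero_iff.2 fun s _ => by exact_mod_cast (c s).den_nz
  set c' : List Bool → ℤ := fun s => (∏ t ∈ S.erase s, ((c t).den : ℤ)) * (c s).num with hc'
  have hcc : ∀ s ∈ S, (c' s : ℚ) = d * c s := by
    intro s hs
    rw [hc', hd, ← Finset.mul_prod_erase S _ hs]
    push_cast
    have h1 := Rat.mul_den_eq_num (c s)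
    rw [← h1]
    ring
  have key := hI Pr (by
      intro m φ χ h1 h2 x hx
      have e : Finsupp.linearCombination ℚ (fun w => ((φ w - χ w : ℤ) : ℚ)) x =
          Finsupp.linearCombination ℚ (fun w => (φ w : ℚ)) x -
            Finsupp.linearCombination ℚ (fun w => (χ w : ℚ)) x := by
        rw [Finsupp.linearCombination_apply, Finsupp.linearCombination_apply,
          Finsupp.linearCombination_apply, Finsupp.sum, Finsupp.sum, Finsupp.sum,
          ← Finset.sum_sub_distrib]
        refine Finset.sum_congr rfl fun w _ => ?_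
        push_cast
        rw [smul_sub]
      rw [e, h1 x hx, h2 x hx, sub_zero])
    (by
      intro m φ h1 x hx
      have h2 := h1 x hx
      have e : Finsupp.linearCombination ℚ (fun w => ((2 * φ w : ℤ) : ℚ)) x =
          2 * Finsupp.linearCombination ℚ (fun w => (φ w : ℚ)) x := by
        rw [Finsupp.linearCombination_apply, Finsupp.linearCombination_apply, Finsupp.sum,
          Finsupp.sum, Finset.mul_sum]
        refine Finset.sum_congr rfl fun w _ => ?_
        push_cast
        rw [smul_eq_mul, smul_eq_mul]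
        ring
      rw [e] at h2
      exact (mul_eq_zero.1 h2).resolve_left two_ne_zero)
    (by
      intro m φ χ hc h1 x hx
      rw [← h1 x hx, Finsupp.linearCombination_apply, Finsupp.linearCombination_apply, Finsupp.sum,
        Finsupp.sum]
      refine Finset.sum_congr rfl fun w hw => ?_
      rw [hc w (hx.1 w (Finsupp.mem_support_iff.1 hw))])
    (by
      intro k
      obtain ⟨ψ, h1, h2, h3⟩ := hE k
      exact ⟨ψ, h1, h2, hG _ ψ h1 h3⟩)
    hP N S c' hS (by
      intro φ hφ
      have h1 := h φ hφ
      have h2 : ((∑ s ∈ S, c' s * φ (expand s) : ℤ) : ℚ) =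
          d * ∑ s ∈ S, c s * (φ (expand s) : ℚ) := by
        push_cast
        rw [Finset.mul_sum]
        refine Finset.sum_congr rfl fun s hs => ?_
        rw [hcc s hs]
        ring
      rw [h1, mul_zero] at h2
      exact_mod_cast h2) s hs
  have h3 := hcc s hs
  rw [key, Int.cast_zero] at h3
  rcases mul_eq_zero.1 h3.symm with h4 | h4
  · exact absurd (by exact_mod_cast h4) hd0
  · exact h4

theorem len_H0 {p : ℕ} {h : H} (hh : h ∈ H0 p) (w : List Bool) (hw : h w ≠ 0) : w.length = p := by
  rw [H0] at hh
  induction hh using Submodule.span_induction with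
  | mem x hx =>
    obtain ⟨v, _, hv, rfl⟩ := hx
    unfold wd at hw
    rw [Finsupp.single_apply] at hw
    by_cases h1 : v = w
    · rw [← h1, hv]
    · rw [if_neg h1] at hw
      exact absurd rfl hw
  | zero => exact absurd rfl hw
  | add x y _ _ h1 h2 =>
    rw [Finsupp.add_apply] at hw
    by_cases h3 : x w = 0
    · exact h2 (by rwa [h3, zero_add] at hw)
    · exact h1 h3
  | smul r x _ h1 =>
    rw [Finsupp.smul_apply] at hw
    exact h1 (right_ne_zero_of_mul hw)

theorem lc_wd {M : Type} [AddCommGroup M] [Module ℚ M] (F : List Bool → M) (w : List Bool) :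
    Finsupp.linearCombination ℚ F (wd w) = F w := by
  unfold wd
  rw [Finsupp.linearCombination_single, one_smul]

end MainM

open MainM in
/-- module MAIN -/
theorem specMain (hK : SpecKill) (hI : SpecIndG) (hE : SpecExG) (hG : SpecGT) (hP : SpecPiG) :
    SpecMain := by
  classical
  intro N x hx hr
  have hx' := hx
  rw [(asmStatement N).span, Submodule.mem_sup] at hx'
  obtain ⟨r, hr', z, hz, rfl⟩ := hx'
  have hR0 : Submodule.span ℚ (RDS N) ≤ H0 N := Submodule.span_le.2 fun r hr => hr.1
  have hzH : z ∈ H0 N := by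
    have := Submodule.sub_mem _ hx (hR0 hr')
    rwa [add_sub_cancel_left] at this
  -- the real points kill `r`
  have hrk : ∀ Φ : List Bool → ℝ, RP Φ → Finsupp.linearCombination ℚ Φ r = 0 := by
    intro Φ hΦ
    obtain ⟨L, _, h2, h3⟩ := hK ℝ Φ hΦ.pt
    have e : Finsupp.linearCombination ℚ Φ = L := by
      refine Finsupp.lhom_ext fun w a => ?_
      rw [Finsupp.linearCombination_single, ← h2, ← map_smul]
      unfold wd
      rw [Finsupp.smul_single, smul_eq_mul, mul_one]
    rw [e]
    clear hr hx
    induction hr' using Submodule.span_induction with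
    | mem x hx => exact h3 N x hx
    | zero => exact map_zero _
    | add x y _ _ h1 h2 => rw [map_add, h1, h2, add_zero]
    | smul r x _ h => rw [map_smul, h, smul_zero]
  have hzr : RB N z := ⟨len_H0 hzH, fun Φ hΦ => by
    have h1 := hr.2 Φ hΦ
    rwa [map_add, hrk Φ hΦ, zero_add] at h1⟩
  have hset : {z : H | ∃ w, (expand w).length = N ∧ z = wd (expand w)} =
      Set.range fun w : {w : List Bool // (expand w).length = N} => wd (expand w.1) := by
    ext z
    constructor
    · rintro ⟨w, hw, rfl⟩
      exact ⟨⟨w, hw⟩, rfl⟩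
    · rintro ⟨w, rfl⟩
      exact ⟨w.1, w.2, rfl⟩
  rw [hset, Finsupp.mem_span_range_iff_exists_finsupp] at hz
  obtain ⟨c, rfl⟩ := hz
  have h0 : ∀ i ∈ c.support, c i = 0 := by
    intro i hi
    have h2 := indR hI hE hG hP N (c.support.map (Function.Embedding.subtype _))
      (fun w => if h : (expand w).length = N then c ⟨w, h⟩ else 0) (by
        intro x hx
        rw [Finset.mem_map] at hx
        obtain ⟨y, _, rfl⟩ := hx
        exact y.2) (by
        intro φ hφ
        have h3 := hφ _ hzr
        rw [Finsupp.sum, map_sum] at h3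
        rw [Finset.sum_map, ← h3]
        refine Finset.sum_congr rfl fun x _ => ?_
        rw [map_smul, lc_wd, smul_eq_mul]
        simp [x.2]) i.1 (by
        rw [Finset.mem_map]
        exact ⟨i, hi, rfl⟩)
    simpa [i.2] using h2
  have hc : c.sum (fun i a => a • wd (expand i.1)) = 0 := by
    rw [Finsupp.sum]
    refine Finset.sum_eq_zero fun i hi => ?_
    rw [h0 i hi, zero_smul]
  rw [hc, add_zero]
  exact hr'

end MP154526.Assoc
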