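import Pool.Agent.Lib.MP_154526_nt.Assoc.Spec

/-!
# Regularisation: modules SPXY, RED0, REGU
-/

set_option autoImplicit false

namespace MP154526.Assoc.RegUM

open Finset MP154526.Bound MP154526.Top MP154526.Top.RegN MP154526.Assoc

/-- the linear extension of `f` -/
noncomputable def lf {M : Type} [AddCommGroup M] [Module ℚ M] (f : List Bool → M) : H →ₗ[ℚ] M :=
  Finsupp.linearCombination ℚ f

section lf

variable {M : Type} [AddCommGroup M] [Module ℚ M]

theorem lf_wd (f : List Bool → M) (w : List Bool) : lf f (wd w) = f w := by
  simp [lf, wd]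

theorem lf_lmul (f : List Bool → M) (a : Bool) (p : H) :
    lf f (lmul a p) = lf (fun l => f (a :: l)) p := by
  unfold lf lmul
  rw [Finsupp.linearCombination_mapDomain]
  rfl

theorem lf_sh : ∀ (u v : List Bool) (f : List Bool → M), lf f (sh u v) = shs f u v := by
  intro u v
  induction u, v using shs_induct with
  | h0 W => intro f; rw [sh_nil, lf_wd, shs_nil_left]
  | h1 a σ => intro f; rw [sh_nil', lf_wd, shs_nil_right]
  | h2 a σ c W h1 h2 =>
    intro f
    rw [sh_cons, map_add, lf_lmul, lf_lmul, shs_cons_cons, h1, h2]

end lf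

/-- the right side of SPXY -/
noncomputable def S (m : ℕ) : Submodule ℚ H :=
  H0 m ⊔ Submodule.span ℚ {z : H | ∃ (a : Bool) (v : List Bool), v.length + 1 = m ∧
      z = shuffle (wd [a]) (wd v)}

theorem sh_mem_S (a : Bool) (v : List Bool) {m : ℕ} (hm : v.length + 1 = m) :
    sh [a] v ∈ S m := by
  refine (le_sup_right : _ ≤ S m) (Submodule.subset_span ⟨a, v, hm, ?_⟩)
  rw [shuffle_wd]

theorem sh_pow (a : Bool) : ∀ m : ℕ,
    sh [a] (List.replicate m a) = ((m : ℚ) + 1) • wd (List.replicate (m + 1) a)
  | 0 => by rw [List.replicate_zero, sh_nil']; simp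
  | m + 1 => by
    rw [List.replicate_succ, sh_cons, sh_nil, lmul_wd, sh_pow a m, lmul_smul, lmul_wd,
      ← List.replicate_succ, ← List.replicate_succ]
    push_cast
    module

theorem pos (m : ℕ) : ((m : ℚ) + 1) ≠ 0 := by positivity

theorem rep_mem (a : Bool) : ∀ m : ℕ, wd (List.replicate m a) ∈ S m
  | 0 => (le_sup_left : H0 0 ≤ S 0) (Submodule.subset_span ⟨[], Or.inl rfl, rfl, rfl⟩)
  | m + 1 => by
    have h1 : ((m : ℚ) + 1) • wd (List.replicate (m + 1) a) ∈ S (m + 1) := by
      rw [← sh_pow]
      exact sh_mem_S a _ (by simp)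
    exact (Submodule.smul_mem_iff _ (pos m)).1 h1

/-- the span of the words of length `m` of the form `u y x^k` -/
noncomputable def E (k m : ℕ) : Submodule ℚ H :=
  Submodule.span ℚ {z : H | ∃ u : List Bool, (u ++ true :: List.replicate k false).length = m ∧
    z = wd (u ++ true :: List.replicate k false)}

theorem lmul_mem {k m : ℕ} (b : Bool) {z : H} (hz : z ∈ E k m) : lmul b z ∈ E k (m + 1) := by
  induction hz using Submodule.span_induction with
  | mem z hz =>
    obtain ⟨u, hu, rfl⟩ := hz
    rw [lmul_wd]
    refine Submodule.subset_span ⟨b :: u, ?_, rfl⟩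
    rw [List.cons_append, List.length_cons, hu]
  | zero =>
    rw [← lmulL_apply, map_zero]
    exact Submodule.zero_mem _
  | add x y _ _ hx hy =>
    rw [lmul_add]
    exact Submodule.add_mem _ hx hy
  | smul r x _ hx =>
    rw [lmul_smul]
    exact Submodule.smul_mem _ _ hx

theorem sh_x_word (k : ℕ) : ∀ u : List Bool,
    ∃ z ∈ E k ((u ++ true :: List.replicate k false).length + 1),
      sh [false] (u ++ true :: List.replicate k false) =
        ((k : ℚ) + 1) • wd (u ++ true :: List.replicate (k + 1) false) + z
  | [] => by
    refine ⟨wd (false :: true :: List.replicate k false),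
      Submodule.subset_span ⟨[false], ?_, rfl⟩, ?_⟩
    · simp
    · rw [List.nil_append, sh_cons, sh_nil, lmul_wd, sh_pow, lmul_smul, lmul_wd, add_comm]
      rfl
  | b :: u => by
    obtain ⟨z, hz, h⟩ := sh_x_word k u
    refine ⟨wd (false :: b :: (u ++ true :: List.replicate k false)) + lmul b z,
      Submodule.add_mem _ (Submodule.subset_span ⟨false :: b :: u, ?_, rfl⟩) (lmul_mem b hz), ?_⟩
    · simp
    · rw [List.cons_append, sh_cons, sh_nil, lmul_wd, h, lmul_add, lmul_smul, lmul_wd,
        List.cons_append]
      abel

/-- words ending with `y` -/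
theorem endY_mem : ∀ (j : ℕ) (v : List Bool),
    wd (List.replicate j true ++ false :: (v ++ [true])) ∈ S (j + (v.length + 2))
  | 0, v => by
    refine (le_sup_left : H0 _ ≤ S _) (Submodule.subset_span ⟨_, Or.inr ⟨v, ?_⟩, ?_, rfl⟩)
    · simp
    · simp
  | j + 1, v => by
    have h1 := sh_y_word (v ++ [true]) j
    have h2 : sh [true] (List.replicate j true ++ false :: (v ++ [true])) ∈
        S (j + 1 + (v.length + 2)) := sh_mem_S true _ (by simp; omega)
    have h3 : T j (sh [true] (v ++ [true])) ∈ S (j + 1 + (v.length + 2)) := by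
      have h4 : sh [true] (v ++ [true]) ∈ Submodule.span ℚ {z : H | ∃ u : List Bool,
          u.length = v.length + 1 ∧ z = wd (u ++ [true])} := by
        clear h1 h2
        induction v with
        | nil =>
          have e : sh [true] ([] ++ [true]) = (((1 : ℕ) : ℚ) + 1) • wd (List.replicate 2 true) :=
            sh_pow true 1
          rw [e]
          exact Submodule.smul_mem _ _ (Submodule.subset_span ⟨[true], rfl, rfl⟩)
        | cons b v ih =>
          rw [List.cons_append, sh_cons, sh_nil, lmul_wd]
          refine Submodule.add_mem _ (Submodule.subset_span ⟨true :: b :: v, rfl, rfl⟩) ?_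
          have key : ∀ z ∈ Submodule.span ℚ {z : H | ∃ u : List Bool,
              u.length = v.length + 1 ∧ z = wd (u ++ [true])}, lmul b z ∈
              Submodule.span ℚ {z : H | ∃ u : List Bool,
                u.length = (b :: v).length + 1 ∧ z = wd (u ++ [true])} := by
            intro z hz
            induction hz using Submodule.span_induction with
            | mem z hz =>
              obtain ⟨u, hu, rfl⟩ := hz
              rw [lmul_wd]
              exact Submodule.subset_span ⟨b :: u, by simp [hu], rfl⟩
            | zero =>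
              rw [← lmulL_apply, map_zero]
              exact Submodule.zero_mem _
            | add x y _ _ hx hy =>
              rw [lmul_add]
              exact Submodule.add_mem _ hx hy
            | smul r x _ hx =>
              rw [lmul_smul]
              exact Submodule.smul_mem _ _ hx
          exact key _ ih
      have h5 : Submodule.span ℚ {z : H | ∃ u : List Bool,
          u.length = v.length + 1 ∧ z = wd (u ++ [true])} ≤
          (S (j + 1 + (v.length + 2))).comap (T j) := by
        rw [Submodule.span_le]
        rintro z ⟨u, hu, rfl⟩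
        show T j (wd (u ++ [true])) ∈ S _
        rw [T_wd]
        have := endY_mem j u
        rw [hu] at this
        rw [show j + 1 + (v.length + 2) = j + (v.length + 1 + 2) by omega]
        exact this
      exact h5 h4
    have h6 : ((j : ℚ) + 1) • wd (List.replicate (j + 1) true ++ false :: (v ++ [true])) ∈
        S (j + 1 + (v.length + 2)) := by
      have e : ((j : ℚ) + 1) • wd (List.replicate (j + 1) true ++ false :: (v ++ [true])) =
          sh [true] (List.replicate j true ++ false :: (v ++ [true])) -
            T j (sh [true] (v ++ [true])) := by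
        rw [h1]; abel
      rw [e]
      exact Submodule.sub_mem _ h2 h3
    exact (Submodule.smul_mem_iff _ (pos j)).1 h6

/-- every word is a power of `y` or `y^j x v` -/
theorem cases_y (w : List Bool) : (∃ m, w = List.replicate m true) ∨
    ∃ (j : ℕ) (v : List Bool), w = List.replicate j true ++ false :: v := by
  induction w with
  | nil => exact Or.inl ⟨0, rfl⟩
  | cons b w ih =>
    cases b with
    | false => exact Or.inr ⟨0, w, rfl⟩
    | true =>
      rcases ih with ⟨m, h⟩ | ⟨j, v, h⟩
      · exact Or.inl ⟨m + 1, by rw [h]; rfl⟩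
      · exact Or.inr ⟨j + 1, v, by rw [h]; rfl⟩

theorem E_zero_le (m : ℕ) : E 0 m ≤ S m := by
  rw [E, Submodule.span_le]
  rintro z ⟨u, hu, rfl⟩
  show wd (u ++ true :: List.replicate 0 false) ∈ S m
  rw [List.replicate_zero] at hu ⊢
  rcases cases_y (u ++ [true]) with ⟨k, h⟩ | ⟨j, v, h⟩
  · rw [h] at hu ⊢
    rw [List.length_replicate] at hu
    subst hu
    exact rep_mem true k
  · rcases List.eq_nil_or_concat v with rfl | ⟨v', b, rfl⟩
    · exfalso
      have h1 : (u ++ [true]).getLast? = (List.replicate j true ++ [false]).getLast? := by rw [h]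
      rw [List.getLast?_append, List.getLast?_append] at h1
      simp at h1
    · have h1 : (u ++ [true]).getLast? =
          (List.replicate j true ++ false :: (v' ++ [b])).getLast? := by
        rw [h, List.concat_eq_append]
      have h2 : b = true := by
        rw [show List.replicate j true ++ false :: (v' ++ [b]) =
          (List.replicate j true ++ false :: v') ++ [b] by simp] at h1
        rw [List.getLast?_append, List.getLast?_append] at h1
        simpa using h1.symm
      subst h2
      rw [h, List.concat_eq_append] at hu ⊢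
      have h3 := endY_mem j v'
      rw [← hu]
      convert h3 using 2
      simp

theorem E_le : ∀ k m : ℕ, E k m ≤ S m
  | 0, m => E_zero_le m
  | k + 1, m => by
    rw [E, Submodule.span_le]
    rintro z ⟨u, hu, rfl⟩
    show wd (u ++ true :: List.replicate (k + 1) false) ∈ S m
    obtain ⟨z, hz, h⟩ := sh_x_word k u
    have hl : (u ++ true :: List.replicate k false).length + 1 = m := by
      rw [← hu]; simp; omega
    have h1 : ((k : ℚ) + 1) • wd (u ++ true :: List.replicate (k + 1) false) ∈ S m := by
      have e : ((k : ℚ) + 1) • wd (u ++ true :: List.replicate (k + 1) false) =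
          sh [false] (u ++ true :: List.replicate k false) - z := by
        rw [h]; abel
      rw [e]
      refine Submodule.sub_mem _ (sh_mem_S false _ hl) (E_le k m ?_)
      rwa [hl] at hz
    exact (Submodule.smul_mem_iff _ (pos k)).1 h1

/-- every word is a power of `x` or `u y x^k` -/
theorem cases_x (w : List Bool) : (∃ m, w = List.replicate m false) ∨
    ∃ (k : ℕ) (u : List Bool), w = u ++ true :: List.replicate k false := by
  induction w with
  | nil => exact Or.inl ⟨0, rfl⟩
  | cons b w ih =>
    rcases ih with ⟨m, h⟩ | ⟨k, u, h⟩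
    · cases b with
      | false => exact Or.inl ⟨m + 1, by rw [h]; rfl⟩
      | true => exact Or.inr ⟨m, [], by rw [h]; rfl⟩
    · exact Or.inr ⟨k, b :: u, by rw [h]; rfl⟩

theorem wd_mem (w : List Bool) : wd w ∈ S w.length := by
  rcases cases_x w with ⟨m, h⟩ | ⟨k, u, h⟩
  · rw [h, List.length_replicate]
    exact rep_mem false m
  · exact E_le k _ (Submodule.subset_span ⟨u, by rw [← h], by rw [← h]⟩)

end MP154526.Assoc.RegUM

namespace MP154526.Assoc

open Finset MP154526.Bound MP154526.Top MP154526.Top.RegN RegUM

theorem specSpXY : SpecSpXY := by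
  intro m w hw
  subst hw
  exact wd_mem w

theorem specRed0 : SpecRed0 := by
  intro m h hm
  have h1 : h ∈ S m := by
    have e : h = h.sum fun w c => c • wd w := by
      rw [show (fun (w : List Bool) (c : ℚ) => c • wd w) = Finsupp.single by
        funext w c
        simp [wd]]
      exact (Finsupp.sum_single h).symm
    rw [e]
    refine Submodule.sum_mem _ fun w hw => Submodule.smul_mem _ _ ?_
    rw [Finsupp.mem_support_iff] at hw
    rw [← hm w hw]
    exact wd_mem w
  obtain ⟨r, hr, z, hz, rfl⟩ := Submodule.mem_sup.1 h1
  refine ⟨r, hr, fun K _ _ L hL => ?_⟩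
  have h2 : Submodule.span ℚ {z : H | ∃ (a : Bool) (v : List Bool), v.length + 1 = m ∧
      z = shuffle (wd [a]) (wd v)} ≤ LinearMap.ker L := by
    rw [Submodule.span_le]
    rintro z ⟨a, v, -, rfl⟩
    show L _ = 0
    rw [hL.mul]
    cases a with
    | false => rw [hL.x, zero_mul]
    | true => rw [hL.y, zero_mul]
  rw [map_add, LinearMap.mem_ker.1 (h2 hz), add_zero]

theorem specRegU : SpecRegU := by
  intro N f g _h0 hf hg hfm hgm hA w hw
  have key : S w.length ≤ LinearMap.eqLocus (RegUM.lf f) (RegUM.lf g) := by
    refine sup_le ?_ ?_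
    · rw [H0, Submodule.span_le]
      rintro z ⟨v, hv, hl, rfl⟩
      show RegUM.lf f (wd v) = RegUM.lf g (wd v)
      rw [RegUM.lf_wd, RegUM.lf_wd]
      exact hA v hv (by omega)
    · rw [Submodule.span_le]
      rintro z ⟨a, v, hl, rfl⟩
      show RegUM.lf f _ = RegUM.lf g _
      rw [RegN.shuffle_wd, RegUM.lf_sh, RegUM.lf_sh, hfm, hgm, hf, hg, zero_mul, zero_mul]
      · simp; omega
      · simp; omega
  have h1 : RegUM.lf f (wd w) = RegUM.lf g (wd w) := key (wd_mem w)
  rwa [RegUM.lf_wd, RegUM.lf_wd] at h1

end MP154526.Assoc
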