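import Pool.Agent.Lib.MP_154526_nt.Assoc.Spec
import Pool.Agent.Lib.MP_154526_nt.Low.Lower
import Pool.Agent.Lib.MP_154526_nt.Low.PiW
import Pool.Agent.Lib.MP_154526_nt.Low.Basic

section
/-!
# KILL: solutions of the double shuffle equations kill the regularised double shuffle elements
-/
set_option autoImplicit false

namespace MP154526.Assoc

open Finset MP154526.Bound MP154526.Top MP154526.Top.Pass2 MP154526.Lin MP154526.Low

namespace KillM

section

variable {K : Type} [CommRing K] [Algebra ℚ K] (Φ : List Bool → K)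

/-- the linear extension -/
noncomputable def LL : H →ₗ[ℚ] K := Finsupp.linearCombination ℚ Φ

theorem LL_wd (w : List Bool) : LL Φ (wd w) = Φ w := by
  unfold LL wd
  rw [Finsupp.linearCombination_single, one_smul]

theorem LL_sh (u v : List Bool) : LL Φ (sh u v) = shs Φ u v := by
  have h1 := map_sh (LL Φ).toAddMonoidHom u v
  simp only [LinearMap.toAddMonoidHom_coe, LL_wd] at h1
  exact h1

theorem single_eq (w : List Bool) (a : ℚ) : (Finsupp.single w a : H) = a • wd w := by
  unfold wd
  rw [Finsupp.smul_single, smul_eq_mul, mul_one]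

variable {Φ}

theorem LL_shuffle (h : Pt Φ) (a b : H) : LL Φ (shuffle a b) = LL Φ a * LL Φ b := by
  have hA := specAlg
  have add' : ∀ a b c : H, shuffle a (b + c) = shuffle a b + shuffle a c := fun a b c => by
    rw [hA.comm, hA.add, hA.comm b, hA.comm c]
  have smul' : ∀ (r : ℚ) (a b : H), shuffle a (r • b) = r • shuffle a b := fun r a b => by
    rw [hA.comm, hA.smul, hA.comm b]
  induction a using Finsupp.induction_linear with
  | zero =>
    have h0 : shuffle 0 b = 0 := by
      have := hA.smul 0 0 b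
      rwa [zero_smul, zero_smul] at this
    rw [h0, map_zero, zero_mul]
  | add f g hf hg => rw [hA.add, map_add, map_add, hf, hg, add_mul]
  | single w r =>
    rw [single_eq, hA.smul, map_smul, map_smul, LL_wd, smul_mul_assoc]
    congr 1
    induction b using Finsupp.induction_linear with
    | zero =>
      have h0 : shuffle (wd w) 0 = 0 := by
        have := smul' 0 (wd w) 0
        rwa [zero_smul, zero_smul] at this
      rw [h0, map_zero, mul_zero]
    | add f g hf hg => rw [add', map_add, map_add, hf, hg, mul_add]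
    | single v s =>
      rw [single_eq, smul', map_smul, map_smul, LL_wd, Pass2.shuffle_wd, LL_sh, h.sh,
        mul_smul_comm]

theorem grp (h : Pt Φ) : GrpLike (LL Φ) where
  one := by rw [LL_wd, h.one]
  x := by rw [LL_wd, h.zx]
  y := by rw [LL_wd, h.zy]
  mul := LL_shuffle h

theorem rds (h : Pt Φ) (p : ℕ) (r : H) (hr : r ∈ RDS p) : LL Φ r = 0 := by
  obtain ⟨_, w₁, w₀, hi1, hi0, _, N, c, hc, hsum, hrc⟩ := hr
  have hy : ∀ j, LL Φ (ypow (j + 1)) = 0 := by
    intro j
    show LL Φ (shuffle (wd [true]) (ypow j)) = 0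
    rw [LL_shuffle h, LL_wd, h.zy, zero_mul]
  have e1 : LL Φ (∑ j ∈ range (N + 1), shuffle (c j) (ypow j)) = LL Φ r := by
    rw [Finset.sum_range_succ', map_add, map_sum, Finset.sum_eq_zero]
    · rw [zero_add, hrc, LL_shuffle h]
      show LL Φ (c 0) * LL Φ (wd []) = _
      rw [LL_wd, h.one, mul_one]
    · intro j _
      rw [LL_shuffle h, hy, mul_zero]
  obtain ⟨u, rfl⟩ := ZrdsM.idx_map hi1
  obtain ⟨v, rfl⟩ := ZrdsM.idx_map hi0.1
  have hAd : Ad v := by
    intro a ha
    have := hi0.2 (a + 1) (by
      cases v with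
      | nil => simp at ha
      | cons b v =>
        simp only [List.head?_cons, Option.mem_def, Option.some.injEq] at ha
        subst ha
        simp)
    omega
  rw [← e1, ← hsum, map_sub, word_map, word_map, LL_shuffle h, LL_wd, LL_wd, stuffle_eq]
  have h2 := stf_map (LL Φ).toAddMonoidHom (fun l => wd (bw l)) u v
  simp only [LinearMap.toAddMonoidHom_coe, LL_wd] at h2
  rw [h2, h.st u v hAd, sub_self]

end

end KillM

/-- module KILL -/
theorem specKill : SpecKill := by
  intro K _ _ Φ h
  exact ⟨KillM.LL Φ, KillM.grp h, KillM.LL_wd Φ, KillM.rds h⟩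

end MP154526.Assoc
end

section
/-!
# PIG: a functional on the relations of the real points with non-zero value at `(xy)^m`
-/
set_option autoImplicit false

namespace MP154526.Assoc

open Finset MP154526.Bound MP154526.Top MP154526.Top.Pass2 MP154526.Lin MP154526.Low

/-- module PIG -/
theorem specPiG (hB : SpecBase) : SpecPiG := by
  intro m
  obtain ⟨Φ, hΦ, hZ⟩ := hB
  have h0 : Φ (zp m) ≠ 0 := by
    rw [hZ _ (PiW.adm_zp m), PiW.zw_zp]
    exact (PiW.zeta_pos m).ne'
  obtain ⟨μ, hμ⟩ : ∃ μ : Module.Dual ℚ ℝ, μ (Φ (zp m)) ≠ 0 := by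
    by_contra hc
    push Not at hc
    exact h0 ((Module.forall_dual_apply_eq_zero_iff ℚ _).1 hc)
  obtain ⟨N, ψ, hN, h2⟩ := ExW.clear (2 * m) fun w => μ (Φ w)
  refine ⟨ψ, fun h hh => ?_, fun h10 => ?_⟩
  · have h3 := congrArg μ (hh.2 Φ hΦ)
    rw [map_zero, Finsupp.linearCombination_apply, Finsupp.sum, map_sum] at h3
    rw [Finsupp.linearCombination_apply, Finsupp.sum]
    have h4 : ∑ w ∈ h.support, h w • (ψ w : ℚ) =
        (N : ℚ) * ∑ w ∈ h.support, μ (h w • Φ w) := by
      rw [Finset.mul_sum]
      refine Finset.sum_congr rfl fun w hw => ?_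
      rw [h2 w (hh.1 w (Finsupp.mem_support_iff.1 hw)), map_smul, smul_eq_mul, smul_eq_mul]
      ring
    rw [h4, h3, mul_zero]
  · have h9 := h2 (zp m) (PiW.len_zp m)
    rw [h10, Int.cast_zero] at h9
    rcases mul_eq_zero.1 h9.symm with h11 | h11
    · exact hN (by exact_mod_cast h11)
    · exact hμ h11

end MP154526.Assoc
end

section
/-!
# Common part of the modules UNIA and UNIC: pairing of the pentagon equation with functionals
-/
set_option autoImplicit false

namespace MP154526.Assoc.UniM

open Finset MP154526.Bound MP154526.Top MP154526.Top.Pass2 MP154526.Lin MP154526.Low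

/-! ### `sumW` -/

section sumW

variable {M M' : Type} [AddCommMonoid M] [AddCommMonoid M']

theorem map_sumW (f : M →+ M') (n : ℕ) (F : List Bool → M) :
    f (sumW n F) = sumW n fun w => f (F w) := by
  induction n generalizing F with
  | zero => rfl
  | succ n ih => simp only [sumW, map_add, ih]

theorem sumW_congr {n : ℕ} {F G : List Bool → M} (h : ∀ w, w.length = n → F w = G w) :
    sumW n F = sumW n G := by
  induction n generalizing F G with
  | zero => exact h [] rfl
  | succ n ih =>
    rw [sumW, sumW, ih fun w hw => h (false :: w) (by simp [hw]),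
      ih fun w hw => h (true :: w) (by simp [hw])]

theorem sumW_zero (n : ℕ) : sumW n (fun _ => (0 : M)) = 0 := by
  induction n with
  | zero => rfl
  | succ n ih => rw [sumW, ih, add_zero]

theorem sumW_eq_zero {n : ℕ} {F : List Bool → M} (h : ∀ w, w.length = n → F w = 0) :
    sumW n F = 0 := by
  rw [sumW_congr h, sumW_zero]

theorem sumW_add (n : ℕ) (F G : List Bool → M) :
    sumW n (fun w => F w + G w) = sumW n F + sumW n G := by
  induction n generalizing F G with
  | zero => rfl
  | succ n ih =>
    simp only [sumW]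
    rw [ih (fun w => F (false :: w)) (fun w => G (false :: w)),
      ih (fun w => F (true :: w)) (fun w => G (true :: w))]
    abel

theorem sumW_list_sum {ι : Type} (A : List ι) (n : ℕ) (F : ι → List Bool → M) :
    sumW n (fun w => (A.map fun i => F i w).sum) = (A.map fun i => sumW n (F i)).sum := by
  induction A with
  | nil => simp [sumW_zero]
  | cons a A ih =>
    simp only [List.map_cons, List.sum_cons]
    rw [sumW_add, ih]

theorem sumW_sum {ι : Type} (s : Finset ι) (n : ℕ) (F : ι → List Bool → M) :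
    sumW n (fun w => ∑ i ∈ s, F i w) = ∑ i ∈ s, sumW n (F i) := by
  classical
  induction s using Finset.induction_on with
  | empty => simp [sumW_zero]
  | insert a s ha ih =>
    simp only [Finset.sum_insert ha]
    rw [sumW_add, ih]

end sumW

/-! ### `ws` -/

section ws

variable {M M' : Type} [AddCommMonoid M] [AddCommMonoid M']

theorem map_ws (f : M →+ M') (A B : List LT) (u : List Bool) (F : List LT → M) :
    f (ws A B u F) = ws A B u fun w => f (F w) := by
  induction u generalizing F with
  | nil => rfl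
  | cons a u ih =>
    cases a <;> simp only [ws, map_list_sum, List.map_map, Function.comp_def, ih]

theorem ws_congr {A B : List LT} {u : List Bool} {F G : List LT → M}
    (h : ∀ w, w.length = u.length → F w = G w) : ws A B u F = ws A B u G := by
  induction u generalizing F G with
  | nil => exact h [] rfl
  | cons a u ih =>
    cases a
    · simp only [ws]
      congr 1
      refine List.map_congr_left fun i _ => ?_
      exact ih fun w hw => h _ (by simp [hw])
    · simp only [ws]
      congr 1
      refine List.map_congr_left fun i _ => ?_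
      exact ih fun w hw => h _ (by simp [hw])

theorem ws_zero (A B : List LT) (u : List Bool) : ws A B u (fun _ => (0 : M)) = 0 := by
  have h := map_ws (0 : M →+ M) A B u (fun _ => (0 : M))
  simpa using h.symm

theorem ws_eq_zero {A B : List LT} {u : List Bool} {F : List LT → M}
    (h : ∀ w, w.length = u.length → F w = 0) : ws A B u F = 0 := by
  rw [ws_congr h, ws_zero]

theorem ws_add (A B : List LT) (u : List Bool) (F G : List LT → M) :
    ws A B u (fun w => F w + G w) = ws A B u F + ws A B u G := by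
  induction u generalizing F G with
  | nil => rfl
  | cons a u ih =>
    cases a <;> simp only [ws, ih, List.sum_map_add]

theorem ws_sumW (A B : List LT) (u : List Bool) (k : ℕ) (G : List Bool → List LT → M) :
    ws A B u (fun w => sumW k fun v => G v w) = sumW k fun v => ws A B u (G v) := by
  induction k generalizing G with
  | zero => rfl
  | succ k ih =>
    simp only [sumW]
    rw [ws_add, ih (fun v => G (false :: v)), ih (fun v => G (true :: v))]

theorem ws_smul {R : Type} [Monoid R] [DistribMulAction R M] (A B : List LT) (u : List Bool)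
    (c : R) (F : List LT → M) : ws A B u (fun w => c • F w) = c • ws A B u F :=
  (map_ws (DistribSMul.toAddMonoidHom M c) A B u F).symm

end ws

/-! ### algebras -/

section alg

variable {K : Type} [CommRing K]

/-- the sign of a word -/
def sgK (K : Type) [CommRing K] (u : List Bool) : K := (-1) ^ u.count true

theorem algebraMap_sg [Algebra ℚ K] (u : List Bool) : algebraMap ℚ K (sg u) = sgK K u := by
  simp [sg, sgK]

variable {E : Type} [Ring E] [Algebra K E]

theorem prod_ws (A B : List LT) (t : LT → E) (u : List Bool) :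
    (u.map fun l => if l then -(B.map t).sum else (A.map t).sum).prod =
      sgK K u • ws A B u fun w => (w.map t).prod := by
  induction u with
  | nil => simp [sgK, ws]
  | cons a u ih =>
    rw [List.map_cons, List.prod_cons, ih, mul_smul_comm]
    cases a
    · have h : sgK K (false :: u) = sgK K u := by simp [sgK]
      rw [h]
      congr 1
      simp only [Bool.false_eq_true, if_false, ws]
      rw [← List.sum_map_mul_right]
      congr 1
      refine List.map_congr_left fun i _ => ?_
      have := map_ws (AddMonoidHom.mulLeft (t i)) A B u fun w => (w.map t).prod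
      simp only [AddMonoidHom.coe_mulLeft] at this
      rw [this]
      simp only [List.map_cons, List.prod_cons]
    · have h : sgK K (true :: u) = -sgK K u := by simp [sgK, pow_succ]
      rw [h, neg_smul, ← smul_neg]
      congr 1
      simp only [if_true, ws]
      rw [neg_mul, ← List.sum_map_mul_right]
      congr 2
      refine List.map_congr_left fun i _ => ?_
      have := map_ws (AddMonoidHom.mulLeft (t i)) A B u fun w => (w.map t).prod
      simp only [AddMonoidHom.coe_mulLeft] at this
      rw [this]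
      simp only [List.map_cons, List.prod_cons]

theorem val_hom {F : Type} [Ring F] [Algebra K F] (φ : E →ₐ[K] F) (N : ℕ) (Φ : List Bool → K)
    (a b : E) : φ (val N Φ a b) = val N Φ (φ a) (φ b) := by
  simp only [val]
  rw [map_sum]
  refine Finset.sum_congr rfl fun n _ => ?_
  have h := map_sumW (φ.toLinearMap.toAddMonoidHom) n
    fun w => Φ w • (w.map fun l => if l then -b else a).prod
  refine h.trans (sumW_congr fun w _ => ?_)
  show φ (Φ w • (w.map fun l => if l then -b else a).prod) = _
  rw [map_smul, map_list_prod, List.map_map]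
  congr 2
  refine List.map_congr_left fun l _ => ?_
  cases l <;> simp

/-- a letter -/
noncomputable def tl (K : Type) [CommRing K] (i j : Fin 4) : FA K LT := ow K [(i, j)]

/-- the difference of the two sides of the pentagon equation in the free algebra -/
noncomputable def PU (N : ℕ) (Φ : List Bool → K) : FA K LT :=
  val N Φ (tl K 0 1) (tl K 1 2 + tl K 1 3) * val N Φ (tl K 0 2 + tl K 1 2) (tl K 2 3) -
    val N Φ (tl K 1 2) (tl K 2 3) * val N Φ (tl K 0 1 + tl K 0 2) (tl K 1 3 + tl K 2 3) *
      val N Φ (tl K 0 1) (tl K 1 2)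

/-- evaluation -/
noncomputable def evl (t : LT → E) : FA K LT →ₐ[K] E :=
  MonoidAlgebra.lift K E (FreeMonoid LT) (FreeMonoid.lift t)

theorem evl_ow (t : LT → E) (w : List LT) : evl t (ow K w) = (w.map t).prod := by
  unfold evl ow
  rw [MonoidAlgebra.lift_single, one_smul, FreeMonoid.lift_apply]
  rfl

theorem evl_lext (t : LT → E) (f : FA K LT) : evl t f = lext (fun w => (w.map t).prod) f := by
  have : (evl t).toLinearMap = lext (R := K) fun w => (w.map t).prod :=
    FA_lin_ext fun w => by rw [lext_ow]; exact evl_ow t w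
  exact LinearMap.congr_fun this f

theorem evl_tl (t : Fin 4 → Fin 4 → E) (i j : Fin 4) :
    evl (fun p => t p.1 p.2) (tl K i j) = t i j := by
  rw [tl, evl_ow]
  simp

theorem evl_PU (N : ℕ) (Φ : List Bool → K) (t : Fin 4 → Fin 4 → E) :
    evl (fun p => t p.1 p.2) (PU N Φ) =
      val N Φ (t 0 1) (t 1 2 + t 1 3) * val N Φ (t 0 2 + t 1 2) (t 2 3) -
        val N Φ (t 1 2) (t 2 3) * val N Φ (t 0 1 + t 0 2) (t 1 3 + t 2 3) *
          val N Φ (t 0 1) (t 1 2) := by
  simp only [PU, map_sub, map_mul, val_hom, map_add, evl_tl]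

/-! ### pairing with functionals -/

variable {M : Type} [AddCommGroup M] [Module K M]

theorem lext_ow_mul (μ : List LT → M) (v : List LT) (Y : FA K LT) :
    lext μ (ow K v * Y) = lext (fun w => μ (v ++ w)) Y := by
  have : (lext μ) ∘ₗ (LinearMap.mulLeft K (ow K v)) = lext (R := K) fun w => μ (v ++ w) := by
    refine FA_lin_ext fun w => ?_
    rw [LinearMap.comp_apply, LinearMap.mulLeft_apply, ← ow_append, lext_ow, lext_ow]
  exact LinearMap.congr_fun this Y

theorem lext_mul (μ : List LT → M) (X Y : FA K LT) :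
    lext μ (X * Y) = lext (fun v => lext (fun w => μ (v ++ w)) Y) X := by
  have : (lext μ) ∘ₗ (LinearMap.mulRight K Y) =
      lext (R := K) fun v => lext (fun w => μ (v ++ w)) Y := by
    refine FA_lin_ext fun v => ?_
    rw [LinearMap.comp_apply, LinearMap.mulRight_apply, lext_ow, lext_ow_mul]
  exact LinearMap.congr_fun this X

theorem prod_tl (w : List LT) : (w.map fun p => tl K p.1 p.2).prod = ow K w := by
  induction w with
  | nil => exact (ow_nil (R := K)).symm
  | cons p w ih =>
    rw [List.map_cons, List.prod_cons, ow_cons, ih]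
    rfl

/-- the part of length `n` of the pairing -/
def pv (Φ : List Bool → K) (A B : List LT) (n : ℕ) (μ : List LT → M) : M :=
  sumW n fun u => (Φ u * sgK K u) • ws A B u μ

theorem pv_congr (Φ : List Bool → K) (A B : List LT) {n : ℕ} {μ ν : List LT → M}
    (h : ∀ w, w.length = n → μ w = ν w) : pv Φ A B n μ = pv Φ A B n ν := by
  refine sumW_congr fun u hu => ?_
  rw [ws_congr fun w hw => h w (hw.trans hu)]

theorem pv_eq_zero (Φ : List Bool → K) (A B : List LT) {n : ℕ} {μ : List LT → M}
    (h : ∀ w, w.length = n → μ w = 0) : pv Φ A B n μ = 0 := by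
  refine sumW_eq_zero fun u hu => ?_
  rw [ws_eq_zero fun w hw => h w (hw.trans hu), smul_zero]

theorem lext_val (N : ℕ) (Φ : List Bool → K) (A B : List LT) (μ : List LT → M) :
    lext μ (val N Φ (A.map fun p => tl K p.1 p.2).sum (B.map fun p => tl K p.1 p.2).sum) =
      ∑ n ∈ range N, pv Φ A B n μ := by
  rw [val, map_sum]
  refine Finset.sum_congr rfl fun n _ => ?_
  have h := map_sumW ((lext (R := K) μ).toAddMonoidHom) n fun w => Φ w • (w.map fun l =>
    if l then -(B.map fun p => tl K p.1 p.2).sum else (A.map fun p => tl K p.1 p.2).sum).prod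
  refine h.trans (sumW_congr fun u _ => ?_)
  show lext μ (Φ u • (u.map fun l =>
    if l then -(B.map fun p => tl K p.1 p.2).sum else (A.map fun p => tl K p.1 p.2).sum).prod) = _
  rw [prod_ws (K := K), smul_smul, map_smul]
  congr 1
  have h2 := map_ws ((lext (R := K) μ).toAddMonoidHom) A B u
    fun w => (w.map fun p => tl K p.1 p.2).prod
  refine h2.trans (ws_congr fun w _ => ?_)
  show lext μ (w.map fun p => tl K p.1 p.2).prod = μ w
  rw [prod_tl, lext_ow]

/-- a functional supported in one degree -/
theorem hom1 (Φ : List Bool → K) (A B : List LT) {N k : ℕ} (hk : k < N) {μ : List LT → M}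
    (h : ∀ w, w.length ≠ k → μ w = 0) : ∑ n ∈ range N, pv Φ A B n μ = pv Φ A B k μ := by
  rw [Finset.sum_eq_single k]
  · intro n _ hn
    exact pv_eq_zero Φ A B fun w hw => h w (by rw [hw]; exact hn)
  · intro h'
    exact absurd (Finset.mem_range.2 hk) h'

theorem hom2 (Φ : List Bool → K) (A B A' B' : List LT) {N k : ℕ} (hk : k < N) {μ : List LT → M}
    (h : ∀ w, w.length ≠ k → μ w = 0) :
    (∑ n ∈ range N, pv Φ A B n fun w₁ => ∑ n' ∈ range N, pv Φ A' B' n' fun w₂ => μ (w₁ ++ w₂)) =
      ∑ i ∈ range (k + 1), pv Φ A B i fun w₁ => pv Φ A' B' (k - i) fun w₂ => μ (w₁ ++ w₂) := by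
  have hsub : range (k + 1) ⊆ range N := by
    intro i hi
    rw [Finset.mem_range] at hi ⊢
    omega
  rw [← Finset.sum_subset hsub]
  · refine Finset.sum_congr rfl fun i hi => ?_
    rw [Finset.mem_range] at hi
    refine pv_congr Φ A B fun w₁ hw₁ => ?_
    refine hom1 Φ A' B' (by omega) fun w₂ hw₂ => h _ ?_
    rw [List.length_append]
    omega
  · intro i _ hi
    rw [Finset.mem_range] at hi
    refine pv_eq_zero Φ A B fun w₁ hw₁ => ?_
    refine Finset.sum_eq_zero fun n' _ => pv_eq_zero Φ A' B' fun w₂ _ => h _ ?_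
    rw [List.length_append]
    omega

theorem hom3 (Φ : List Bool → K) (A B A' B' A'' B'' : List LT) {N k : ℕ} (hk : k < N)
    {μ : List LT → M} (h : ∀ w, w.length ≠ k → μ w = 0) :
    (∑ n ∈ range N, pv Φ A B n fun w₁ => ∑ n' ∈ range N, pv Φ A' B' n' fun w₂ =>
      ∑ n'' ∈ range N, pv Φ A'' B'' n'' fun w₃ => μ (w₁ ++ w₂ ++ w₃)) =
      ∑ i ∈ range (k + 1), pv Φ A B i fun w₁ => ∑ j ∈ range (k - i + 1),
        pv Φ A' B' j fun w₂ => pv Φ A'' B'' (k - i - j) fun w₃ => μ (w₁ ++ w₂ ++ w₃) := by
  have hsub : range (k + 1) ⊆ range N := by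
    intro i hi
    rw [Finset.mem_range] at hi ⊢
    omega
  rw [← Finset.sum_subset hsub]
  · refine Finset.sum_congr rfl fun i hi => ?_
    rw [Finset.mem_range] at hi
    refine pv_congr Φ A B fun w₁ hw₁ => ?_
    have := hom2 Φ A' B' A'' B'' (N := N) (k := k - i) (by omega)
      (μ := fun w => μ (w₁ ++ w)) fun w hw => h _ (by rw [List.length_append]; omega)
    simp only [List.append_assoc]
    exact this
  · intro i _ hi
    rw [Finset.mem_range] at hi
    refine pv_eq_zero Φ A B fun w₁ hw₁ => ?_
    refine Finset.sum_eq_zero fun n' _ => pv_eq_zero Φ A' B' fun w₂ _ => ?_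
    refine Finset.sum_eq_zero fun n'' _ => pv_eq_zero Φ A'' B'' fun w₃ _ => h _ ?_
    rw [List.length_append, List.length_append]
    omega

/-- the pairing of the pentagon equation with a functional supported in one degree -/
theorem lext_PU (Φ : List Bool → K) {N k : ℕ} (hk : k < N) {μ : List LT → M}
    (h : ∀ w, w.length ≠ k → μ w = 0) :
    lext μ (PU N Φ) =
      (∑ i ∈ range (k + 1), pv Φ [(0, 1)] [(1, 2), (1, 3)] i fun w₁ =>
        pv Φ [(0, 2), (1, 2)] [(2, 3)] (k - i) fun w₂ => μ (w₁ ++ w₂)) -
      ∑ i ∈ range (k + 1), pv Φ [(1, 2)] [(2, 3)] i fun w₁ => ∑ j ∈ range (k - i + 1),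
        pv Φ [(0, 1), (0, 2)] [(1, 3), (2, 3)] j fun w₂ =>
          pv Φ [(0, 1)] [(1, 2)] (k - i - j) fun w₃ => μ (w₁ ++ w₂ ++ w₃) := by
  have e1 : PU N Φ =
      val N Φ (([(0, 1)] : List LT).map fun p => tl K p.1 p.2).sum
        (([(1, 2), (1, 3)] : List LT).map fun p => tl K p.1 p.2).sum *
      val N Φ (([(0, 2), (1, 2)] : List LT).map fun p => tl K p.1 p.2).sum
        (([(2, 3)] : List LT).map fun p => tl K p.1 p.2).sum -
      val N Φ (([(1, 2)] : List LT).map fun p => tl K p.1 p.2).sum
        (([(2, 3)] : List LT).map fun p => tl K p.1 p.2).sum *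
      val N Φ (([(0, 1), (0, 2)] : List LT).map fun p => tl K p.1 p.2).sum
        (([(1, 3), (2, 3)] : List LT).map fun p => tl K p.1 p.2).sum *
      val N Φ (([(0, 1)] : List LT).map fun p => tl K p.1 p.2).sum
        (([(1, 2)] : List LT).map fun p => tl K p.1 p.2).sum := by
    simp [PU]
  rw [e1, map_sub]
  congr 1
  · rw [lext_mul, lext_val]
    simp only [lext_val]
    exact hom2 Φ _ _ _ _ hk h
  · rw [lext_mul, lext_mul, lext_val]
    simp only [lext_val]
    exact hom3 Φ _ _ _ _ _ _ hk h

/-! ### the relations `hU` -/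

variable [Algebra ℚ K]

/-- the double sum -/
theorem L_two {L : H →ₗ[ℚ] K} (hL : GrpLike L) (A B A' B' : List LT) (i k : ℕ)
    (μ : List LT → ℚ) :
    L (sumW i fun u => sumW k fun v =>
      (sg u * sg v * ws A B u fun w₁ => ws A' B' v fun w₂ => μ (w₁ ++ w₂)) •
        shuffle (wd u) (wd v)) =
      pv (fun w => L (wd w)) A B i fun w₁ => pv (fun w => L (wd w)) A' B' k fun w₂ =>
        algebraMap ℚ K (μ (w₁ ++ w₂)) := by
  have h1 := map_sumW L.toAddMonoidHom i fun u => sumW k fun v =>
      (sg u * sg v * ws A B u fun w₁ => ws A' B' v fun w₂ => μ (w₁ ++ w₂)) •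
        shuffle (wd u) (wd v)
  refine h1.trans (sumW_congr fun u _ => ?_)
  have h2 := map_sumW L.toAddMonoidHom k fun v =>
      (sg u * sg v * ws A B u fun w₁ => ws A' B' v fun w₂ => μ (w₁ ++ w₂)) •
        shuffle (wd u) (wd v)
  refine h2.trans ?_
  simp only [pv]
  rw [ws_sumW]
  have h3 := map_sumW (DistribSMul.toAddMonoidHom K (L (wd u) * sgK K u)) k fun v =>
    ws A B u fun w₁ => (L (wd v) * sgK K v) • ws A' B' v fun w₂ => algebraMap ℚ K (μ (w₁ ++ w₂))
  refine Eq.trans (sumW_congr fun v _ => ?_) h3.symm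
  show L ((sg u * sg v * ws A B u fun w₁ => ws A' B' v fun w₂ => μ (w₁ ++ w₂)) •
    shuffle (wd u) (wd v)) = (L (wd u) * sgK K u) • ws A B u fun w₁ =>
      (L (wd v) * sgK K v) • ws A' B' v fun w₂ => algebraMap ℚ K (μ (w₁ ++ w₂))
  rw [ws_smul, map_smul, Algebra.smul_def, hL.mul, map_mul, map_mul, algebraMap_sg,
    algebraMap_sg]
  have h4 : algebraMap ℚ K (ws A B u fun w₁ => ws A' B' v fun w₂ => μ (w₁ ++ w₂)) =
      ws A B u fun w₁ => ws A' B' v fun w₂ => algebraMap ℚ K (μ (w₁ ++ w₂)) := by
    refine (map_ws (algebraMap ℚ K : ℚ →+ K) A B u _).trans (ws_congr fun w₁ _ => ?_)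
    exact map_ws (algebraMap ℚ K : ℚ →+ K) A' B' v _
  rw [h4, smul_eq_mul, smul_eq_mul]
  ring

/-- the triple sum -/
theorem L_three {L : H →ₗ[ℚ] K} (hL : GrpLike L) (A B A' B' A'' B'' : List LT) (i j k : ℕ)
    (μ : List LT → ℚ) :
    L (sumW i fun u => sumW j fun v => sumW k fun r =>
      (sg u * sg v * sg r * ws A B u fun w₁ => ws A' B' v fun w₂ => ws A'' B'' r fun w₃ =>
        μ (w₁ ++ w₂ ++ w₃)) • shuffle (shuffle (wd u) (wd v)) (wd r)) =
      pv (fun w => L (wd w)) A B i fun w₁ => pv (fun w => L (wd w)) A' B' j fun w₂ =>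
        pv (fun w => L (wd w)) A'' B'' k fun w₃ => algebraMap ℚ K (μ (w₁ ++ w₂ ++ w₃)) := by
  have h1 := map_sumW L.toAddMonoidHom i fun u => sumW j fun v => sumW k fun r =>
      (sg u * sg v * sg r * ws A B u fun w₁ => ws A' B' v fun w₂ => ws A'' B'' r fun w₃ =>
        μ (w₁ ++ w₂ ++ w₃)) • shuffle (shuffle (wd u) (wd v)) (wd r)
  refine h1.trans (sumW_congr fun u _ => ?_)
  have h2 := map_sumW L.toAddMonoidHom j fun v => sumW k fun r =>
      (sg u * sg v * sg r * ws A B u fun w₁ => ws A' B' v fun w₂ => ws A'' B'' r fun w₃ =>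
        μ (w₁ ++ w₂ ++ w₃)) • shuffle (shuffle (wd u) (wd v)) (wd r)
  refine h2.trans ?_
  simp only [pv]
  rw [ws_sumW]
  have h3 := map_sumW (DistribSMul.toAddMonoidHom K (L (wd u) * sgK K u)) j fun v =>
    ws A B u fun w₁ => (L (wd v) * sgK K v) • ws A' B' v fun w₂ => sumW k fun r =>
      (L (wd r) * sgK K r) • ws A'' B'' r fun w₃ => algebraMap ℚ K (μ (w₁ ++ w₂ ++ w₃))
  refine Eq.trans (sumW_congr fun v _ => ?_) h3.symm
  have h2' := map_sumW L.toAddMonoidHom k fun r =>
      (sg u * sg v * sg r * ws A B u fun w₁ => ws A' B' v fun w₂ => ws A'' B'' r fun w₃ =>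
        μ (w₁ ++ w₂ ++ w₃)) • shuffle (shuffle (wd u) (wd v)) (wd r)
  refine h2'.trans ?_
  show _ = (L (wd u) * sgK K u) • ws A B u fun w₁ => (L (wd v) * sgK K v) • ws A' B' v fun w₂ =>
    sumW k fun r => (L (wd r) * sgK K r) • ws A'' B'' r fun w₃ =>
      algebraMap ℚ K (μ (w₁ ++ w₂ ++ w₃))
  simp only [ws_sumW, ws_smul]
  have h5 := map_sumW (DistribSMul.toAddMonoidHom K (L (wd v) * sgK K v)) k fun r =>
    (L (wd r) * sgK K r) • ws A B u fun w₁ => ws A' B' v fun w₂ => ws A'' B'' r fun w₃ =>
      algebraMap ℚ K (μ (w₁ ++ w₂ ++ w₃))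
  have h6 := map_sumW (DistribSMul.toAddMonoidHom K (L (wd u) * sgK K u)) k fun r =>
    (L (wd v) * sgK K v) • (L (wd r) * sgK K r) • ws A B u fun w₁ => ws A' B' v fun w₂ =>
      ws A'' B'' r fun w₃ => algebraMap ℚ K (μ (w₁ ++ w₂ ++ w₃))
  simp only [DistribSMul.toAddMonoidHom_apply] at h5 h6
  rw [h5, h6]
  refine sumW_congr fun r _ => ?_
  show L ((sg u * sg v * sg r * ws A B u fun w₁ => ws A' B' v fun w₂ => ws A'' B'' r fun w₃ =>
        μ (w₁ ++ w₂ ++ w₃)) • shuffle (shuffle (wd u) (wd v)) (wd r)) = _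
  rw [map_smul, Algebra.smul_def, hL.mul, hL.mul, map_mul, map_mul, map_mul, algebraMap_sg,
    algebraMap_sg, algebraMap_sg]
  have h4 : algebraMap ℚ K (ws A B u fun w₁ => ws A' B' v fun w₂ => ws A'' B'' r fun w₃ =>
      μ (w₁ ++ w₂ ++ w₃)) =
      ws A B u fun w₁ => ws A' B' v fun w₂ => ws A'' B'' r fun w₃ =>
        algebraMap ℚ K (μ (w₁ ++ w₂ ++ w₃)) := by
    refine (map_ws (algebraMap ℚ K : ℚ →+ K) A B u _).trans (ws_congr fun w₁ _ => ?_)
    refine (map_ws (algebraMap ℚ K : ℚ →+ K) A' B' v _).trans (ws_congr fun w₂ _ => ?_)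
    exact map_ws (algebraMap ℚ K : ℚ →+ K) A'' B'' r _
  rw [h4, smul_eq_mul, smul_eq_mul, smul_eq_mul]
  ring

/-- **key lemma**: the pairing of the pentagon equation with a rational functional supported in
degree `m` is the value at the relation `hU m μ` -/
theorem lext_hU {L : H →ₗ[ℚ] K} (hL : GrpLike L) {N m : ℕ} (hm : m < N) {μ : List LT → ℚ}
    (h : ∀ w, w.length ≠ m → μ w = 0) :
    lext (fun w => algebraMap ℚ K (μ w)) (PU N fun w => L (wd w)) = L (hU m μ) := by
  rw [lext_PU (K := K) (fun w => L (wd w)) hm (μ := fun w => algebraMap ℚ K (μ w))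
    (fun w hw => by rw [h w hw, map_zero]), hU, map_sub, map_sum, map_sum]
  congr 1
  · refine Finset.sum_congr rfl fun i _ => ?_
    rw [L_two hL]
  · refine Finset.sum_congr rfl fun i _ => ?_
    rw [map_sum]
    refine Eq.trans ?_ (Finset.sum_congr rfl fun j _ => (L_three hL _ _ _ _ _ _ _ _ _ _).symm)
    simp only [pv]
    rw [← sumW_sum]
    refine sumW_congr fun u _ => ?_
    rw [← Finset.smul_sum]
    congr 1
    have h5 : ∀ (s : Finset ℕ) (G : ℕ → List LT → K),
        ws [(1, 2)] [(2, 3)] u (fun w => ∑ j ∈ s, G j w) =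
          ∑ j ∈ s, ws [(1, 2)] [(2, 3)] u (G j) := by
      intro s G
      classical
      induction s using Finset.induction_on with
      | empty => simp [ws_zero]
      | insert a s ha ih =>
        simp only [Finset.sum_insert ha]
        rw [ws_add, ih]
    exact h5 _ _

/-- the restriction of a functional to the words of length `m` -/
def res (m : ℕ) (μ : List LT → ℚ) (w : List LT) : ℚ := if w.length = m then μ w else 0

theorem inv_res {N : ℕ} (m : ℕ) {μ : List LT → ℚ} (h : Inv N μ) : Inv N (res m μ) where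
  nil w hw := by
    rw [res, h.nil w hw, ite_self]
  symm u v i j := by
    simp only [res, List.length_append, List.length_cons, h.symm u v i j]
  comm u v i j k l h1 h2 h3 h4 h5 h6 := by
    simp only [res, List.length_append, List.length_cons, h.comm u v i j k l h1 h2 h3 h4 h5 h6]
  rel u v i j k h1 h2 h3 := by
    simp only [res, List.length_append, List.length_cons]
    split_ifs
    · exact h.rel u v i j k h1 h2 h3
    · rfl

theorem res_supp (m : ℕ) (μ : List LT → ℚ) (w : List LT) (hw : w.length ≠ m) : res m μ w = 0 := by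
  rw [res, if_neg hw]

theorem hU_res (m : ℕ) (μ : List LT → ℚ) : hU m (res m μ) = hU m μ := by
  rw [hU, hU]
  congr 1
  · refine Finset.sum_congr rfl fun i hi => ?_
    rw [Finset.mem_range] at hi
    refine sumW_congr fun u hu => sumW_congr fun v hv => ?_
    congr 2
    refine ws_congr fun w₁ h1 => ws_congr fun w₂ h2 => ?_
    rw [res, if_pos]
    rw [List.length_append]
    omega
  · refine Finset.sum_congr rfl fun i hi => Finset.sum_congr rfl fun j hj => ?_
    rw [Finset.mem_range] at hi hj
    refine sumW_congr fun u hu => sumW_congr fun v hv => sumW_congr fun r hr => ?_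
    congr 2
    refine ws_congr fun w₁ h1 => ws_congr fun w₂ h2 => ws_congr fun w₃ h3 => ?_
    rw [res, if_pos]
    rw [List.length_append, List.length_append]
    omega

end alg

end MP154526.Assoc.UniM
end
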