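import Pool.Agent.Lib.MP_154526_nt.Assoc.Uni
import Pool.Agent.Lib.MP_154526_nt.Top.Alg

/-!
# Module UNIA: the relations `hU` are relations of the real points
-/

set_option autoImplicit false

namespace MP154526.Assoc

open Finset MP154526.Bound MP154526.Top MP154526.Top.Pass2 MP154526.Lin MP154526.Low

namespace UniAM

open UniM

/-! ### the space of real invariant functionals -/

/-- the real functionals `μ` with `Inv N μ` -/
def V (N : ℕ) : Submodule ℝ (List LT → ℝ) where
  carrier := {μ | Inv N μ}
  zero_mem' := ⟨fun _ _ => rfl, fun _ _ _ _ => rfl, fun _ _ _ _ _ _ _ _ _ _ _ _ => rfl,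
    fun _ _ _ _ _ _ _ _ => rfl⟩
  add_mem' := by
    intro μ ν h h'
    refine ⟨fun w hw => ?_, fun u v i j => ?_, fun u v i j k l h1 h2 h3 h4 h5 h6 => ?_,
      fun u v i j k h1 h2 h3 => ?_⟩
    · rw [Pi.add_apply, h.nil w hw, h'.nil w hw, add_zero]
    · rw [Pi.add_apply, Pi.add_apply, h.symm, h'.symm]
    · rw [Pi.add_apply, Pi.add_apply, h.comm u v i j k l h1 h2 h3 h4 h5 h6,
        h'.comm u v i j k l h1 h2 h3 h4 h5 h6]
    · have e1 := h.rel u v i j k h1 h2 h3
      have e2 := h'.rel u v i j k h1 h2 h3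
      simp only [Pi.add_apply]
      linear_combination e1 + e2
  smul_mem' := by
    intro c μ h
    refine ⟨fun w hw => ?_, fun u v i j => ?_, fun u v i j k l h1 h2 h3 h4 h5 h6 => ?_,
      fun u v i j k h1 h2 h3 => ?_⟩
    · rw [Pi.smul_apply, h.nil w hw, smul_zero]
    · rw [Pi.smul_apply, Pi.smul_apply, h.symm]
    · rw [Pi.smul_apply, Pi.smul_apply, h.comm u v i j k l h1 h2 h3 h4 h5 h6]
    · have e1 := h.rel u v i j k h1 h2 h3
      simp only [Pi.smul_apply, smul_eq_mul]
      linear_combination c * e1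

theorem inv_op {N : ℕ} {μ : List LT → ℝ} (h : Inv N μ) (a : LT) :
    Inv N fun w => μ (w ++ [a]) where
  nil w hw := h.nil _ (by rw [List.length_append]; omega)
  symm u v i j := by
    have := h.symm u (v ++ [a]) i j
    simpa using this
  comm u v i j k l h1 h2 h3 h4 h5 h6 := by
    have := h.comm u (v ++ [a]) i j k l h1 h2 h3 h4 h5 h6
    simpa using this
  rel u v i j k h1 h2 h3 := by
    have := h.rel u (v ++ [a]) i j k h1 h2 h3
    simpa using this

/-- the operator of a letter -/
def op (N : ℕ) (a : LT) : Module.End ℝ (V N) where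
  toFun μ := ⟨fun w => μ.1 (w ++ [a]), inv_op μ.2 a⟩
  map_add' _ _ := rfl
  map_smul' _ _ := rfl

theorem op_apply (N : ℕ) (a : LT) (μ : V N) (w : List LT) : (op N a μ).1 w = μ.1 (w ++ [a]) := rfl

theorem op_prod (N : ℕ) (l : List LT) (μ : V N) (w : List LT) :
    ((l.map fun p => op N (p.1, p.2)).prod μ).1 w = μ.1 (w ++ l) := by
  induction l generalizing w with
  | nil => simp
  | cons a l ih =>
    rw [List.map_cons, List.prod_cons, Module.End.mul_apply, op_apply, ih]
    simp

theorem End_ext {N : ℕ} {X Y : Module.End ℝ (V N)} (h : ∀ μ w, (X μ).1 w = (Y μ).1 w) : X = Y := by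
  apply LinearMap.ext
  intro μ
  apply Subtype.ext
  funext w
  exact h μ w

theorem braid (N : ℕ) : MP446S.Braid fun i j => op N (i, j) where
  symm i j := End_ext fun μ w => μ.2.symm w [] i j
  comm i j k l h1 h2 h3 h4 h5 h6 := by
    refine End_ext fun μ w => ?_
    simp only [Module.End.mul_apply, op_apply]
    have := μ.2.comm w [] i j k l h1 h2 h3 h4 h5 h6
    simpa using this
  rel i j k h1 h2 h3 := by
    refine End_ext fun μ w => ?_
    have := μ.2.rel w [] i j k h1 h2 h3
    rw [mul_add, add_mul]
    simp only [LinearMap.add_apply, Submodule.coe_add, Pi.add_apply, Module.End.mul_apply,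
      op_apply]
    simpa using this

theorem nilp (N : ℕ) (l : List LT) (hl : l.length = N) :
    (l.map fun p => op N (p.1, p.2)).prod = 0 := by
  refine End_ext fun μ w => ?_
  rw [op_prod, μ.2.nil _ (by rw [List.length_append]; omega)]
  rfl

/-- evaluation of an operator at `μ` and the empty word -/
def evalAt {N : ℕ} (μ : V N) : Module.End ℝ (V N) →ₗ[ℝ] ℝ where
  toFun X := (X μ).1 []
  map_add' _ _ := rfl
  map_smul' _ _ := rfl

theorem mem_V {N : ℕ} {μ : List LT → ℝ} (h : Inv N μ) : μ ∈ V N := h

theorem lext_zero {N : ℕ} {Φ : List Bool → ℝ} (hP : Pentagon Φ) {μ : List LT → ℝ}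
    (hμ' : Inv N μ) : lext μ (PU N Φ) = 0 := by
  have hμ : μ ∈ V N := mem_V hμ'
  have h := sub_eq_zero.2 (hP (Module.End ℝ (V N)) N (fun i j => op N (i, j)) (braid N) (nilp N))
  have h1 := evl_PU N Φ fun i j => op N (i, j)
  have h := h1.trans h
  rw [evl_lext] at h
  have h2 := congrArg (evalAt (⟨μ, hμ⟩ : V N)) h
  have h2 := (lext_comp (evalAt (⟨μ, hμ⟩ : V N))
    (fun w : List LT => (w.map fun p => op N (p.1, p.2)).prod) (PU N Φ)).symm.trans h2
  rw [map_zero] at h2
  have h3 : (fun w : List LT => evalAt (⟨μ, hμ⟩ : V N)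
      (w.map fun p => op N (p.1, p.2)).prod) = μ := by
    funext w
    show ((w.map fun p => op N (p.1, p.2)).prod (⟨μ, hμ⟩ : V N)).1 [] = μ w
    rw [op_prod]
    rfl
  rw [h3] at h2
  exact h2

/-- real version of a rational functional -/
theorem inv_cast {N : ℕ} {μ : List LT → ℚ} (h : Inv N μ) :
    Inv N fun w => algebraMap ℚ ℝ (μ w) where
  nil w hw := by rw [h.nil w hw, map_zero]
  symm u v i j := by rw [h.symm u v i j]
  comm u v i j k l h1 h2 h3 h4 h5 h6 := by rw [h.comm u v i j k l h1 h2 h3 h4 h5 h6]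
  rel u v i j k h1 h2 h3 := by
    rw [← map_add, ← map_add, h.rel u v i j k h1 h2 h3]

/-! ### homogeneity -/

/-- the elements of `ℚ⟨x,y⟩` of weight `m` -/
def Wt (m : ℕ) : Submodule ℚ H where
  carrier := {h | ∀ w, h w ≠ 0 → w.length = m}
  zero_mem' := fun w hw => absurd rfl hw
  add_mem' := by
    intro f g hf hg w hw
    by_contra h
    apply hw
    have h1 : f w = 0 := by
      by_contra h'
      exact h (hf w h')
    have h2 : g w = 0 := by
      by_contra h'
      exact h (hg w h')
    rw [Finsupp.add_apply, h1, h2, add_zero]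
  smul_mem' := by
    intro c f hf w hw
    refine hf w fun h => hw ?_
    rw [Finsupp.smul_apply, h, smul_zero]

theorem wd_mem (w : List Bool) : wd w ∈ Wt w.length := by
  intro v hv
  by_cases h : w = v
  · rw [h]
  · exact absurd (Finsupp.single_eq_of_ne fun h' => h h'.symm) hv

theorem lmul_mem {m : ℕ} (a : Bool) {h : H} (hh : h ∈ Wt m) : lmul a h ∈ Wt (m + 1) := by
  intro w hw
  rw [lmul] at hw
  cases w with
  | nil =>
    exfalso
    apply hw
    refine Finsupp.mapDomain_of_notMem_range _ _ ?_
    rintro ⟨v, hv⟩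
    simp at hv
  | cons b v =>
    by_cases hb : a = b
    · subst hb
      rw [Finsupp.mapDomain_apply (List.cons_injective)] at hw
      rw [List.length_cons, hh v hw]
    · exfalso
      apply hw
      refine Finsupp.mapDomain_of_notMem_range _ _ ?_
      rintro ⟨v, hv⟩
      simp only [List.cons.injEq] at hv
      exact hb hv.1

theorem sh_mem (u v : List Bool) : sh u v ∈ Wt (u.length + v.length) := by
  induction h : u.length + v.length using Nat.strong_induction_on generalizing u v with
  | _ n ih =>
    cases u with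
    | nil =>
      rw [sh]
      have := wd_mem v
      rw [← h]
      simpa using this
    | cons a u =>
      cases v with
      | nil =>
        rw [sh]
        have := wd_mem (a :: u)
        rw [← h]
        simpa using this
      | cons b v =>
        rw [sh]
        simp only [List.length_cons] at h
        have h1 := ih (n - 1) (by omega) u (b :: v) (by simp only [List.length_cons]; omega)
        have h2 := ih (n - 1) (by omega) (a :: u) v (by simp only [List.length_cons]; omega)
        have hn : n = n - 1 + 1 := by omega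
        rw [hn]
        exact Submodule.add_mem _ (lmul_mem a h1) (lmul_mem b h2)

theorem shuffle_mem {i j : ℕ} {f g : H} (hf : f ∈ Wt i) (hg : g ∈ Wt j) :
    shuffle f g ∈ Wt (i + j) := by
  rw [shuffle, Finsupp.sum]
  refine Submodule.sum_mem _ fun u hu => ?_
  rw [Finsupp.sum]
  refine Submodule.sum_mem _ fun v hv => ?_
  refine Submodule.smul_mem _ _ ?_
  rw [← hf u (Finsupp.mem_support_iff.1 hu), ← hg v (Finsupp.mem_support_iff.1 hv)]
  exact sh_mem u v

theorem sumW_mem {m n : ℕ} {F : List Bool → H} (h : ∀ w, w.length = n → F w ∈ Wt m) :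
    sumW n F ∈ Wt m := by
  induction n generalizing F with
  | zero => exact h [] rfl
  | succ n ih =>
    exact Submodule.add_mem _ (ih fun w hw => h _ (by simp [hw])) (ih fun w hw => h _ (by simp [hw]))

theorem wd_mem' {w : List Bool} {n : ℕ} (h : w.length = n) : wd w ∈ Wt n := h ▸ wd_mem w

theorem hU_mem (m : ℕ) (μ : List LT → ℚ) : hU m μ ∈ Wt m := by
  rw [hU]
  refine Submodule.sub_mem _ (Submodule.sum_mem _ fun i hi => ?_)
    (Submodule.sum_mem _ fun i hi => Submodule.sum_mem _ fun j hj => ?_)
  · rw [Finset.mem_range] at hi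
    refine sumW_mem fun u hu => sumW_mem fun v hv => Submodule.smul_mem _ _ ?_
    have := shuffle_mem (wd_mem' hu) (wd_mem' hv)
    rwa [show i + (m - i) = m by omega] at this
  · rw [Finset.mem_range] at hi hj
    refine sumW_mem fun u hu => sumW_mem fun v hv => sumW_mem fun r hr =>
      Submodule.smul_mem _ _ ?_
    have := shuffle_mem (shuffle_mem (wd_mem' hu) (wd_mem' hv)) (wd_mem' hr)
    rwa [show i + j + (m - i - j) = m by omega] at this

end UniAM

open UniM UniAM

/-- UNIA, from KILL (only the homomorphism is used) and CONV -/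
theorem specUniA (hK : SpecKill) (hC : SpecConv) : SpecUniA := by
  intro N m μ hm hμ
  refine ⟨hU_mem m μ, fun Φ hΦ => ?_⟩
  obtain ⟨L, hL, hLw, -⟩ := hK ℝ Φ hΦ.pt
  have hLl : L = Finsupp.linearCombination ℚ Φ := by
    apply Finsupp.lhom_ext'
    intro w
    apply LinearMap.ext_ring
    rw [LinearMap.comp_apply, LinearMap.comp_apply]
    show L (wd w) = Finsupp.linearCombination ℚ Φ (Finsupp.single w 1)
    rw [hLw, Finsupp.linearCombination_single, one_smul]
  have hLΦ : (fun w => L (wd w)) = Φ := funext hLw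
  rw [← hLl, ← hU_res, ← lext_hU hL hm (res_supp m μ), hLΦ]
  exact lext_zero (hC Φ hΦ) (inv_cast (inv_res m hμ))

end MP154526.Assoc
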