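import Pool.Agent.Lib.MP_154526_nt.Assoc.Uni

/-!
# Module UNIC: the relations `hU` imply the pentagon equation over all `ℚ`-algebras
-/

set_option autoImplicit false

namespace MP154526.Assoc

open Finset MP154526.Bound MP154526.Top MP154526.Top.Pass2 MP154526.Lin MP154526.Low

namespace UniCM

open UniM

/-- the defining relations of the algebra generated by the letters -/
inductive Rel (N : ℕ) : (List LT →₀ ℚ) → Prop
  | nil (w : List LT) : N ≤ w.length → Rel N (Finsupp.single w 1)
  | symm (u v : List LT) (i j : Fin 4) :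
      Rel N (Finsupp.single (u ++ (i, j) :: v) 1 - Finsupp.single (u ++ (j, i) :: v) 1)
  | comm (u v : List LT) (i j k l : Fin 4) : i ≠ j → i ≠ k → i ≠ l → j ≠ k → j ≠ l → k ≠ l →
      Rel N (Finsupp.single (u ++ (i, j) :: (k, l) :: v) 1 -
        Finsupp.single (u ++ (k, l) :: (i, j) :: v) 1)
  | rel (u v : List LT) (i j k : Fin 4) : i ≠ j → i ≠ k → j ≠ k →
      Rel N (Finsupp.single (u ++ (i, j) :: (i, k) :: v) 1 +
        Finsupp.single (u ++ (i, j) :: (j, k) :: v) 1 -
        (Finsupp.single (u ++ (i, k) :: (i, j) :: v) 1 +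
          Finsupp.single (u ++ (j, k) :: (i, j) :: v) 1))

/-- their span -/
noncomputable def RS (N : ℕ) : Submodule ℚ (List LT →₀ ℚ) := Submodule.span ℚ {x | Rel N x}

/-- the class of a word -/
noncomputable def qw (N : ℕ) (w : List LT) : (List LT →₀ ℚ) ⧸ RS N :=
  (RS N).mkQ (Finsupp.single w 1)

theorem qw_eq_zero {N : ℕ} {w : List LT} (h : N ≤ w.length) : qw N w = 0 := by
  rw [qw, Submodule.mkQ_apply, Submodule.Quotient.mk_eq_zero]
  exact Submodule.subset_span (Rel.nil w h)

theorem qw_symm (N : ℕ) (u v : List LT) (i j : Fin 4) :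
    qw N (u ++ (i, j) :: v) = qw N (u ++ (j, i) :: v) := by
  rw [← sub_eq_zero, qw, qw, ← map_sub, Submodule.mkQ_apply, Submodule.Quotient.mk_eq_zero]
  exact Submodule.subset_span (Rel.symm u v i j)

theorem qw_comm (N : ℕ) (u v : List LT) (i j k l : Fin 4) (h1 : i ≠ j) (h2 : i ≠ k)
    (h3 : i ≠ l) (h4 : j ≠ k) (h5 : j ≠ l) (h6 : k ≠ l) :
    qw N (u ++ (i, j) :: (k, l) :: v) = qw N (u ++ (k, l) :: (i, j) :: v) := by
  rw [← sub_eq_zero, qw, qw, ← map_sub, Submodule.mkQ_apply, Submodule.Quotient.mk_eq_zero]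
  exact Submodule.subset_span (Rel.comm u v i j k l h1 h2 h3 h4 h5 h6)

theorem qw_rel (N : ℕ) (u v : List LT) (i j k : Fin 4) (h1 : i ≠ j) (h2 : i ≠ k) (h3 : j ≠ k) :
    qw N (u ++ (i, j) :: (i, k) :: v) + qw N (u ++ (i, j) :: (j, k) :: v) =
      qw N (u ++ (i, k) :: (i, j) :: v) + qw N (u ++ (j, k) :: (i, j) :: v) := by
  rw [← sub_eq_zero, qw, qw, qw, qw, ← map_add, ← map_add, ← map_sub, Submodule.mkQ_apply,
    Submodule.Quotient.mk_eq_zero]
  exact Submodule.subset_span (Rel.rel u v i j k h1 h2 h3)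

/-- coordinates of the words modulo the relations -/
theorem exists_coord {K : Type} [CommRing K] [Algebra ℚ K] {E : Type} [Ring E] [Algebra K E]
    (N : ℕ) (t : Fin 4 → Fin 4 → E) (ht : MP446S.Braid t)
    (hN : ∀ l : List (Fin 4 × Fin 4), l.length = N → (l.map fun p => t p.1 p.2).prod = 0) :
    ∃ (ι : Type) (J : Finset ι) (μ : ι → List LT → ℚ) (e : ι → E), (∀ j, Inv N (μ j)) ∧
      ∀ w : List LT, (w.map fun p => t p.1 p.2).prod =
        ∑ j ∈ J, algebraMap ℚ K (μ j w) • e j := by
  classical
  let _ : Module ℚ E := Module.compHom E (algebraMap ℚ K)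
  have hsm : ∀ (r : ℚ) (x : E), r • x = algebraMap ℚ K r • x := fun r x => rfl
  let pr : List LT → E := fun w => (w.map fun p => t p.1 p.2).prod
  let ε : (List LT →₀ ℚ) →ₗ[ℚ] E := Finsupp.linearCombination ℚ pr
  have hε1 : ∀ w, ε (Finsupp.single w 1) = pr w := by
    intro w
    show Finsupp.linearCombination ℚ pr (Finsupp.single w 1) = pr w
    rw [Finsupp.linearCombination_single, one_smul]
  have hpr : ∀ u v, pr (u ++ v) = pr u * pr v := by
    intro u v
    show ((u ++ v).map fun p => t p.1 p.2).prod = _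
    rw [List.map_append, List.prod_append]
  have hprc : ∀ p v, pr (p :: v) = t p.1 p.2 * pr v := by
    intro p v
    show ((p :: v).map fun p => t p.1 p.2).prod = _
    rw [List.map_cons, List.prod_cons]
  have hker : RS N ≤ LinearMap.ker ε := by
    refine Submodule.span_le.2 ?_
    rintro x hx
    show ε x = 0
    cases hx with
    | nil w hw =>
      rw [hε1]
      show (w.map fun p => t p.1 p.2).prod = 0
      rw [← List.take_append_drop N w, List.map_append, List.prod_append,
        hN _ (by rw [List.length_take]; omega), zero_mul]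
    | symm u v i j =>
      rw [map_sub, hε1, hε1, hpr, hpr, hprc, hprc]
      simp only
      rw [ht.symm i j, sub_self]
    | comm u v i j k l h1 h2 h3 h4 h5 h6 =>
      rw [map_sub, hε1, hε1, hpr, hpr, hprc, hprc, hprc, hprc]
      simp only
      rw [← mul_assoc (t i j), ht.comm i j k l h1 h2 h3 h4 h5 h6, mul_assoc (t k l), sub_self]
    | rel u v i j k h1 h2 h3 =>
      rw [map_sub, map_add, map_add, hε1, hε1, hε1, hε1, hpr, hpr, hpr, hpr]
      simp only [hprc]
      have h := ht.rel i j k h1 h2 h3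
      have e : pr u * (t i j * (t i k * pr v)) + pr u * (t i j * (t j k * pr v)) -
          (pr u * (t i k * (t i j * pr v)) + pr u * (t j k * (t i j * pr v))) =
          pr u * ((t i j * (t i k + t j k) - (t i k + t j k) * t i j) * pr v) := by
        noncomm_ring
      rw [e, h, sub_self, zero_mul, mul_zero]
  let ε' : ((List LT →₀ ℚ) ⧸ RS N) →ₗ[ℚ] E := (RS N).liftQ ε hker
  have hε' : ∀ w, ε' (qw N w) = pr w := by
    intro w
    rw [← hε1 w]
    exact Submodule.liftQ_apply _ _ _
  let b := Module.Basis.ofVectorSpace ℚ ((List LT →₀ ℚ) ⧸ RS N)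
  let S : Finset (List LT) := (List.finite_length_lt LT N).toFinset
  refine ⟨_, S.biUnion fun w => (b.repr (qw N w)).support, fun j w => b.repr (qw N w) j,
    fun j => ε' (b j), fun j => ?_, fun w => ?_⟩
  · refine ⟨fun w hw => ?_, fun u v i j => ?_, fun u v i j k l h1 h2 h3 h4 h5 h6 => ?_,
      fun u v i j k h1 h2 h3 => ?_⟩
    · simp only
      rw [qw_eq_zero hw, map_zero, Finsupp.zero_apply]
    · simp only
      rw [qw_symm]
    · simp only
      rw [qw_comm N u v i j k l h1 h2 h3 h4 h5 h6]
    · simp only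
      rw [← Finsupp.add_apply, ← Finsupp.add_apply, ← map_add, ← map_add,
        qw_rel N u v i j k h1 h2 h3]
  · have h1 : pr w = ∑ j ∈ (b.repr (qw N w)).support, (b.repr (qw N w) j) • ε' (b j) := by
      rw [← hε' w]
      conv_lhs => rw [← b.linearCombination_repr (qw N w)]
      rw [Finsupp.linearCombination_apply, Finsupp.sum, map_sum]
      refine Finset.sum_congr rfl fun j _ => ?_
      rw [map_smul]
    show pr w = _
    rw [h1]
    simp only [hsm]
    refine Finset.sum_subset ?_ fun j _ hj => ?_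
    · intro j hj
      by_cases hw : w.length < N
      · exact Finset.mem_biUnion.2 ⟨w, by simpa [S] using hw, hj⟩
      · rw [qw_eq_zero (by omega), map_zero] at hj
        simp at hj
    · rw [Finsupp.notMem_support_iff.1 hj, map_zero, zero_smul]

end UniCM

open UniM UniCM

theorem specUniC : SpecUniC := by
  intro K _ _ L hL h E _ _ N t ht hN
  obtain ⟨ι, J, μ, e, hμ, hw⟩ := exists_coord (K := K) N t ht hN
  rw [← sub_eq_zero, ← evl_PU, evl_lext]
  have h1 : (fun w : List LT => (w.map fun p => t p.1 p.2).prod) = fun w =>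
      ∑ j ∈ J, ∑ m ∈ range N, algebraMap ℚ K (res m (μ j) w) • e j := by
    funext w
    rw [hw w]
    refine Finset.sum_congr rfl fun j _ => ?_
    rw [← Finset.sum_smul, ← map_sum]
    congr 2
    by_cases hl : w.length < N
    · rw [Finset.sum_eq_single w.length]
      · rw [res, if_pos rfl]
      · intro m _ hm
        rw [res, if_neg hm.symm]
      · intro h'
        exact absurd (Finset.mem_range.2 hl) h'
    · rw [(hμ j).nil w (by omega), Finset.sum_eq_zero]
      intro m _
      rw [res, (hμ j).nil w (by omega), ite_self]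
  have h2 : ∀ f : FA K LT, lext (fun w : List LT => (w.map fun p => t p.1 p.2).prod) f =
      ∑ j ∈ J, ∑ m ∈ range N, (lext (fun w => algebraMap ℚ K (res m (μ j) w)) f : K) • e j := by
    intro f
    rw [h1]
    have : lext (R := K) (fun w : List LT =>
        ∑ j ∈ J, ∑ m ∈ range N, algebraMap ℚ K (res m (μ j) w) • e j) =
        ∑ j ∈ J, ∑ m ∈ range N, (LinearMap.toSpanSingleton K E (e j)) ∘ₗ
          (lext (R := K) fun w => algebraMap ℚ K (res m (μ j) w)) := by
      refine FA_lin_ext fun w => ?_
      rw [lext_ow, LinearMap.sum_apply]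
      refine Finset.sum_congr rfl fun j _ => ?_
      rw [LinearMap.sum_apply]
      refine Finset.sum_congr rfl fun m _ => ?_
      rw [LinearMap.comp_apply, lext_ow, LinearMap.toSpanSingleton_apply]
    rw [this, LinearMap.sum_apply]
    refine Finset.sum_congr rfl fun j _ => ?_
    rw [LinearMap.sum_apply]
    refine Finset.sum_congr rfl fun m _ => ?_
    rw [LinearMap.comp_apply, LinearMap.toSpanSingleton_apply]
  rw [h2]
  refine Finset.sum_eq_zero fun j _ => Finset.sum_eq_zero fun m hm => ?_
  rw [Finset.mem_range] at hm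
  rw [lext_hU hL hm (res_supp m (μ j)), h N m _ hm (inv_res m (hμ j)), zero_smul]

end MP154526.Assoc
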