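import Pool.Agent.Lib.MP_154526_nt.Assoc.Gls
import Pool.Agent.Lib.MP_446dfa_ag.sig.Asm
import Pool.Agent.Lib.MP_446dfa_ag.sig.Lim
import Pool.Agent.Lib.MP_446dfa_ag.sig.Coef
import Pool.Agent.Lib.MP_446dfa_ag.sig.KGL
import Pool.Agent.Lib.MP_446dfa_ag.sig.KPG
import Pool.Agent.Lib.MP_446dfa_ag.sig.UNIQ
import Pool.Agent.Lib.MP_446dfa_ag.sig.PW
import Pool.Agent.Lib.MP_446dfa_ag.sig.KZ
import Pool.Agent.Lib.MP_446dfa_ag.sig.REG
import Pool.Agent.Lib.MP_446dfa_ag.sig.EDGE
import Pool.Agent.Lib.MP_446dfa_ag.sig.FLAT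
import Pool.Agent.Lib.MP_446dfa_ag.sig.TRANSFER
import Pool.Agent.Lib.MP_154526_nt.Low.Ideal
import Pool.Agent.Lib.MP_154526_nt.Assoc.KZC
import Pool.Agent.Lib.MP_154526_nt.Assoc.Dual
import Pool.Agent.Lib.MP_154526_nt.Assoc.FlRP
import Pool.Agent.Lib.MP_154526_nt.Assoc.Uni
import Pool.Agent.Lib.MP_154526_nt.Assoc.Main
import Pool.Agent.Lib.MP_154526_nt.Assoc.RegU
import Pool.Agent.Lib.MP_154526_nt.Assoc.UniA
import Pool.Agent.Lib.MP_154526_nt.Assoc.UniC

section
/-!
# BASE: the real point given by multiple zeta values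
-/
set_option autoImplicit false

namespace MP154526.Assoc.BaseM

open Finset MP154526.Top MP154526.Top.Pass2 MP446S MP446Y
open MP154526.Low (Pt Zw SpecPtR)
open MP154526.Lyn (Shuf)
open GlsM (shsInd)

lemma fl_lf (i : Fin 2) : fl (lf i) = i := by
  fin_cases i <;> rfl

lemma lf_fl (b : Bool) : lf (fl b) = b := by
  cases b <;> rfl

lemma map_fl_lf (w : List (Fin 2)) : (w.map lf).map fl = w := by
  rw [List.map_map]
  conv_rhs => rw [← List.map_id w]
  refine List.map_congr_left fun i _ => fl_lf i

lemma map_lf_fl (w : List Bool) : (w.map fl).map lf = w := by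
  rw [List.map_map]
  conv_rhs => rw [← List.map_id w]
  refine List.map_congr_left fun i _ => lf_fl i

lemma count_map_fl (w : List Bool) : (w.map fl).count 1 = w.count true := by
  induction w with
  | nil => rfl
  | cons a w ih =>
    rw [List.map_cons, List.count_cons, List.count_cons, ih]
    cases a <;> simp [fl]

/-- the coefficients of `pol` -/
lemma cf_pol (N : ℕ) (Φ : List Bool → ℝ) (w : List (Fin 2)) :
    cf (pol N Φ) w = if w.length < N then (-1) ^ w.count 1 * Φ (w.map lf) else 0 := by
  unfold pol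
  rw [cf_sum]
  simp only [cf_smul, cf_ow, mul_ite, mul_one, mul_zero]
  rw [Finset.sum_ite_eq']
  simp only [mem_wl]

lemma pm_sq (n : ℕ) : ((-1 : ℝ) ^ n) * (-1) ^ n = 1 := by
  rw [← pow_add, ← two_mul, pow_mul]
  simp

lemma shs_congr (u v : List Bool) : ∀ F G : List Bool → ℝ, (∀ t, Shuf u v t → F t = G t) →
    shs F u v = shs G u v := by
  induction u, v using shsInd with
  | case1 v =>
    intro F G h
    rw [shs_nil_left, shs_nil_left]
    exact h _ (Shuf.nil_self v)
  | case2 a u =>
    intro F G h
    rw [shs_nil_right, shs_nil_right]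
    exact h _ (Shuf.self_nil _)
  | case3 a u c v ih1 ih2 =>
    intro F G h
    rw [shs, shs, ih1 _ (fun w => G (a :: w)) fun t ht => h _ (Shuf.left ht),
      ih2 _ (fun w => G (c :: w)) fun t ht => h _ (Shuf.right ht)]

lemma shs_smul' (c : ℝ) (F : List Bool → ℝ) (u v : List Bool) :
    shs (fun t => c * F t) u v = c * shs F u v := by
  induction u, v using shsInd generalizing F with
  | case1 v => simp [shs_nil_left]
  | case2 a u => simp [shs_nil_right]
  | case3 a u c' v ih1 ih2 =>
    rw [shs, shs, ih1, ih2]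
    ring

/-- the sign of a shuffle -/
lemma shs_sign (F : List Bool → ℝ) (u v : List Bool) :
    shs (fun w => (-1 : ℝ) ^ w.count true * F w) u v =
      (-1) ^ u.count true * (-1) ^ v.count true * shs F u v := by
  rw [← shs_smul']
  refine shs_congr u v _ _ fun t ht => ?_
  rw [ht.perm.count_eq, List.count_append, pow_add]

/-- the Knizhnik-Zamolodchikov polynomial and the real point agree -/
theorem base (hPt : SpecPtR) (hK : SpecKZC) (hR : SpecRegU) (hGL : SpecGls) (hGC : SpecGCong)
    (hLIM : SpecLIM) (hCOEF : SpecCOEF) (hKGL : SpecKGL) (hKPG : SpecKPG)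
    (hT : SpecTRANSFER) : SpecBase := by
  obtain ⟨Φ, hΦ, hZ⟩ := hPt
  refine ⟨Φ, ⟨hΦ, fun N hN => ?_⟩, hZ⟩
  obtain ⟨P, hP, -⟩ := hLIM N hN
  obtain ⟨c1, c2, -⟩ := hCOEF N P hN hP
  have hgood : Good N P := ⟨c1, toGrL hT (hKGL _ _ hP), toPG hT (hKPG _ _ hN c1 hP)⟩
  refine hGC N P (pol N Φ) hN (fun w hw => ?_) hgood
  rw [cf_pol, if_pos hw]
  have key : ∀ w : List Bool, w.length < N →
      (-1) ^ w.count true * cf P (w.map fl) = Φ w := by
    by_cases h1 : N = 1
    · intro w hw
      have : w = [] := List.length_eq_zero_iff.1 (by omega)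
      subst this
      rw [List.map_nil, c1.1, hΦ.one]
      simp
    · refine hR N (fun w => (-1) ^ w.count true * cf P (w.map fl)) Φ ?_ ?_ ?_ ?_ ?_ ?_
      · rw [List.map_nil, c1.1, hΦ.one]
        simp
      · intro a
        cases a
        · have := c1.2 1 le_rfl (by omega)
          rw [List.map_cons, List.map_nil]
          simp only [fl]
          have h2 : List.replicate 1 (0 : Fin 2) = [0] := rfl
          rw [h2] at this
          simp [this]
        · rw [List.map_cons, List.map_nil]
          simp only [fl]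
          have := c2 (by omega)
          simp [this]
      · intro a
        cases a
        · exact hΦ.zx
        · exact hΦ.zy
      · intro u v h
        rw [shs_sign (fun w => cf P (w.map fl)) u v, hGL N P hN hgood.gl u v h]
        ring
      · intro u v _
        exact hΦ.sh u v
      · intro w hw hl
        show (-1) ^ w.count true * cf P (w.map fl) = Φ w
        rw [hK N P hN hP w hw hl, hZ w hw, ← mul_assoc, pm_sq, one_mul]
  have h2 := key (w.map lf) (by rw [List.length_map]; exact hw)
  rw [map_fl_lf] at h2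
  have h3 : (w.map lf).count true = w.count 1 := by
    rw [← count_map_fl (w.map lf), map_fl_lf]
  rw [h3] at h2
  rw [← h2, ← mul_assoc, pm_sq, one_mul]

end MP154526.Assoc.BaseM

namespace MP154526.Assoc

open MP154526.Top MP154526.Low

theorem specBase (hPt : SpecPtR) (hK : SpecKZC) (hR : SpecRegU) (hGC : SpecGCong) : SpecBase :=
  BaseM.base hPt hK hR specGls hGC (MP446S.specLIM MP446S.specREG) MP446S.specCOEF
    (MP446S.specKGL MP446S.specUNIQ MP446S.specKZ MP446S.specPW)
    (MP446S.specKPG (MP446S.specEDGE MP446S.specKZ MP446S.specPW) MP446S.specFLAT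
      (MP446S.specKGL MP446S.specUNIQ MP446S.specKZ MP446S.specPW) MP446S.specPW)
    MP446S.specTRANSFER

end MP154526.Assoc
end

section
/-!
# Double shuffle implies the pentagon equation: assembly
-/
set_option autoImplicit false

namespace MP154526.Assoc

open MP154526.Low

theorem asmBase : SpecBase := specBase asmPtR specKZC specRegU specGCong

theorem asmFlRP : SpecFlRP := specFlRP specGCong

theorem asmIndG : SpecIndG := specIndG specIha specShW asmRacW specLynF

theorem asmExG : SpecExG := specExG asmBase specGCong asmFlRP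

theorem asmMain : SpecMain :=
  specMain specKill asmIndG asmExG (specGT asmFlRP) (specPiG asmBase)

theorem asmFinal : SpecFinal :=
  specFinal asmMain specConv specDual (specUniA specKill specConv) specUniC specKill specRed0

end MP154526.Assoc
end
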