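import Pool.Agent.Lib.MP_154526_nt.Assoc.SpecB
import Pool.Agent.Lib.MP_154526_nt.Low.STP
import Pool.Agent.Lib.MP_154526_nt.Low.BR
import Pool.Agent.Lib.MP_154526_nt.Low.RAC
import Pool.Agent.Lib.MP_154526_nt.Low.Tens
import Pool.Agent.Lib.MP_154526_nt.Low.SHW
import Pool.Agent.Lib.MP_154526_nt.Low.Tr
import Pool.Agent.Lib.MP_154526_nt.Low.RacW
import Pool.Agent.Lib.MP_154526_nt.Low.Flow

/-!
# BRK: the double shuffle Lie algebra is closed under the Ihara bracket
-/

set_option autoImplicit false

namespace MP154526.Assoc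

open Finset MP154526.Bound MP154526.Top MP154526.Top.Pass2 MP154526.Lin MP154526.Low
open MP446 (F2 gA gB ev iharaBracket F2_induction)
open MP446D (wordCoeff IsHomog)

namespace BrkM

theorem stW : SpecStW :=
  specStW specTens specCodc specPis (specRac specBr) specTr (specStp specTens)

/-! ### the bracket of two functionals -/

section DW

variable {K : Type} [CommRing K]

theorem T_nil {n : ℕ} (hn : 1 ≤ n) (ψ F : List Bool → K) (u : List Bool)
    (h : ∀ s : List Bool, s ≠ [] → s.length + n = u.length → F s = 0) :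
    T n ψ F u = if u.length = n then ψ u * F [] else 0 := by
  by_cases hu : u.length = n
  · rw [if_pos hu, Flow.T_exact n ψ hn F u hu]
  · rw [if_neg hu]
    refine Flow.T_zero_len n ψ F u fun v hv => h v ?_ hv
    rintro rfl
    apply hu
    rw [← hv]
    simp

theorem sh_T {n m : ℕ} {ψ χ : List Bool → K} (h1 : DW n ψ) (h2 : DW m χ) (u v : List Bool)
    (hu : u ≠ []) (hv : v ≠ []) (h : u.length + v.length = n + m) :
    shs (T n ψ χ) u v =
      (if u.length = n then ψ u * χ v else 0) + if v.length = n then ψ v * χ u else 0 := by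
  have hn : 1 ≤ n := le_trans (by norm_num) h1.three
  rw [specShW K K n ψ hn h1.sh χ u v]
  congr 1
  · rw [T_nil hn ψ _ u, Top.shs_nil_left]
    intro s hs hs'
    exact h2.sh s v hs hv (by omega)
  · rw [T_nil hn ψ _ v, Top.shs_nil_right]
    intro s hs hs'
    exact h2.sh u s hu hs (by omega)

theorem st_T [Algebra ℚ K] {n m : ℕ} {ψ χ : List Bool → K} (h1 : DW n ψ) (h2 : DW m χ)
    (u v : List ℕ) (hu : u ≠ []) (hv : v ≠ []) (hA : Ad v) (h : wt u + wt v = n + m) :
    stf (fun l => T n ψ χ (bw l)) u v =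
      (if wt u = n then ψ (bw u) * χ (bw v) else 0) +
        if wt v = n then ψ (bw v) * χ (bw u) else 0 := by
  have hn : 1 ≤ n := le_trans (by norm_num) h1.three
  rw [stW K n ψ h1 χ u v hA]
  congr 1
  · rw [RacWM.T_congr n ψ _ (fun s => if s = [] then χ (bw v) else 0) (bw u) (Pass2.endY_bw u),
      T_nil hn ψ _ (bw u) fun s hs _ => if_neg hs, if_pos rfl, Pass2.bw_length]
    intro s hs hs'
    obtain ⟨l, rfl⟩ := exists_bw hs
    rw [RacWM.toY_bw, Option.elim_some]
    rw [Pass2.bw_length, Pass2.bw_length] at hs'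
    by_cases hl : l = []
    · subst hl
      rw [Top.Pass2.stf_nil_left, if_pos (by rfl)]
    · rw [if_neg, h2.st l v hl hv hA (by omega)]
      intro h0
      apply hl
      exact bw_injective (by rw [h0]; rfl)
  · rw [RacWM.T_congr_ad n ψ _ (fun s => if s = [] then χ (bw u) else 0) (bw v)
      (Pass2.endY_bw v) (RacWM.head_bw hA),
      T_nil hn ψ _ (bw v) fun s hs _ => if_neg hs, if_pos rfl, Pass2.bw_length]
    intro s hs hs0 hs'
    obtain ⟨l, rfl⟩ := exists_bw hs
    rw [RacWM.toY_bw, Option.elim_some]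
    rw [Pass2.bw_length, Pass2.bw_length] at hs'
    by_cases hl : l = []
    · subst hl
      rw [Top.Pass2.stf_nil_right, if_pos (by rfl)]
    · rw [if_neg, h2.st u l hu hl (RacWM.ad_of_head hs0) (by omega)]
      intro h0
      apply hl
      exact bw_injective (by rw [h0]; rfl)

theorem dw_br [Algebra ℚ K] {n m : ℕ} {ψ χ : List Bool → K} (h1 : DW n ψ) (h2 : DW m χ) :
    DW (n + m) fun w => T n ψ χ w - T m χ ψ w where
  three := by
    have := h1.three
    omega
  even _ := by
    have e1 := h1.three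
    have e2 := h2.three
    rw [Flow.T_xy n ψ (by omega) (Flow.psi_rep n ψ h1) (n + m - 1) (by omega),
      Flow.T_xy m χ (by omega) (Flow.psi_rep m χ h2) (n + m - 1) (by omega), sub_zero]
  sh u v hu hv h := by
    rw [Ops.shs_sub, sh_T h1 h2 u v hu hv h, sh_T h2 h1 u v hu hv (by omega)]
    have a1 : u.length = n ↔ v.length = m := by omega
    have a2 : v.length = n ↔ u.length = m := by omega
    simp only [a1, a2]
    split_ifs <;> ring
  st u v hu hv hA h := by
    rw [Ops.stf_sub, st_T h1 h2 u v hu hv hA h, st_T h2 h1 u v hu hv hA (by omega)]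
    have a1 : wt u = n ↔ wt v = m := by omega
    have a2 : wt v = n ↔ wt u = m := by omega
    simp only [a1, a2]
    split_ifs <;> ring

end DW

/-! ### the polynomial of a Lie element -/

section Poly

attribute [local instance 100] LieRing.ofAssociativeRing

/-- the letters -/
def le : Fin 2 ≃ Bool where
  toFun := lf
  invFun := fl
  left_inv := by decide
  right_inv := by decide

variable {K : Type} [Field K]

variable (K) in
/-- change of letters -/
noncomputable def pm : MP154526.NC K ≃ₐ[K] FA K Bool :=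
  MonoidAlgebra.domCongr K K (FreeMonoid.freeMonoidCongr le)

theorem cf_pm (f : MP154526.NC K) (w : List Bool) :
    cf (pm K f) w = f.coeff (FreeMonoid.ofList (w.map fl)) := by
  unfold cf pm
  rw [MonoidAlgebra.coeff_domCongr]
  rfl

/-- the polynomial of a Lie element -/
noncomputable def P (ψ : F2 K) : FA K Bool := pm K (MP154526.expand ψ)

theorem cf_P (ψ : F2 K) (w : List Bool) : cf (P ψ) w = fn ψ w := cf_pm _ w

theorem P_add (ψ χ : F2 K) : P (ψ + χ) = P ψ + P χ := by
  unfold P
  rw [map_add, map_add]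

theorem P_sub (ψ χ : F2 K) : P (ψ - χ) = P ψ - P χ := by
  unfold P
  rw [map_sub, map_sub]

theorem P_smul (c : K) (ψ : F2 K) : P (c • ψ) = c • P ψ := by
  unfold P
  rw [map_smul, map_smul]

theorem P_zero : P (0 : F2 K) = 0 := by
  unfold P
  rw [map_zero, map_zero]

theorem P_lie (ψ χ : F2 K) : P ⁅ψ, χ⁆ = P ψ * P χ - P χ * P ψ := by
  unfold P
  rw [LieHom.map_lie, LieRing.of_associative_ring_bracket, map_sub, map_mul, map_mul]

theorem P_gA : P (gA K) = ow K [false] := by
  unfold P gA MP154526.expand pm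
  rw [FreeLieAlgebra.lift_of_apply]
  simp only [Matrix.cons_val_zero, MonoidAlgebra.of_apply]
  rw [MonoidAlgebra.domCongr_single]
  rfl

theorem P_gB : P (gB K) = ow K [true] := by
  unfold P gB MP154526.expand pm
  rw [FreeLieAlgebra.lift_of_apply]
  simp only [Matrix.cons_val_one, MonoidAlgebra.of_apply, Matrix.cons_val_fin_one]
  rw [MonoidAlgebra.domCongr_single]
  rfl

theorem P_der (s t : F2 K) : P (MP446.der s t) =
    Low.der (fun a => if a then ow K [true] * P s - P s * ow K [true] else 0) (P t) := by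
  induction t using F2_induction with
  | hA =>
    rw [MP446.der_gA, P_zero, P_gA, der_letter]
    rfl
  | hB =>
    rw [MP446.der_gB, P_lie, P_gB, der_letter]
    rfl
  | hadd x y hx hy => rw [map_add, P_add, P_add, map_add, hx, hy]
  | hsmul c x hx => rw [map_smul, P_smul, P_smul, map_smul, hx]
  | hlie x y hx hy =>
    rw [LieDerivation.apply_lie_eq_add, P_add, P_lie, P_lie, P_lie, hx, hy, map_sub, der_mul,
      der_mul]
    abel

theorem P_ihara (s t : F2 K) : P (iharaBracket s t) = sop (P s) (P t) - sop (P t) (P s) := by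
  unfold iharaBracket
  rw [P_sub, P_add, P_lie, P_der, P_der, sop_apply, sop_apply]
  abel

theorem wordCoeff_eq (ψ : F2 K) (w : List (Fin 2)) : wordCoeff ψ w = MP154526.coef ψ w := by
  unfold wordCoeff MP154526.coef MP446D.toWords MP154526.expand
  congr 3
  congr 1
  funext i
  fin_cases i <;> rfl

theorem fn_hom {n : ℕ} {ψ : F2 K} (h : IsHomog n ψ) (w : List Bool) (hw : w.length ≠ n) :
    fn ψ w = 0 := by
  unfold fn
  rw [← wordCoeff_eq]
  apply h
  simpa using hw

theorem hom_fn {n : ℕ} {ψ : F2 K} (h : ∀ w : List Bool, w.length ≠ n → fn ψ w = 0) :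
    IsHomog n ψ := by
  intro w hw
  rw [wordCoeff_eq]
  have h1 := h (w.map lf) (by simpa using hw)
  unfold fn at h1
  rw [List.map_map] at h1
  have h2 : (fl ∘ lf) = id := by
    funext i
    exact le.left_inv i
  rwa [h2, List.map_id] at h1

theorem fn_ihara {n m : ℕ} (hn : 1 ≤ n) (hm : 1 ≤ m) {ψ χ : F2 K} (h1 : IsHomog n ψ)
    (h2 : IsHomog m χ) (w : List Bool) :
    fn (iharaBracket ψ χ) w = T n (fn ψ) (fn χ) w - T m (fn χ) (fn ψ) w := by
  rw [← cf_P, P_ihara, cf_sub]
  have a1 : ∀ w, cf (P ψ) w = if w.length = n then fn ψ w else 0 := by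
    intro w
    rw [cf_P]
    by_cases hw : w.length = n
    · rw [if_pos hw]
    · rw [if_neg hw, fn_hom h1 w hw]
  have a2 : ∀ w, cf (P χ) w = if w.length = m then fn χ w else 0 := by
    intro w
    rw [cf_P]
    by_cases hw : w.length = m
    · rw [if_pos hw]
    · rw [if_neg hw, fn_hom h2 w hw]
  rw [specTr K n (fn ψ) (P ψ) hn a1, specTr K m (fn χ) (P χ) hm a2]
  have b1 : cf (P ψ) = fn ψ := funext (cf_P ψ)
  have b2 : cf (P χ) = fn χ := funext (cf_P χ)
  rw [b1, b2]

theorem hom_ihara {n m : ℕ} (hn : 1 ≤ n) (hm : 1 ≤ m) {ψ χ : F2 K} (h1 : IsHomog n ψ)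
    (h2 : IsHomog m χ) : IsHomog (n + m) (iharaBracket ψ χ) := by
  refine hom_fn fun w hw => ?_
  rw [fn_ihara hn hm h1 h2, Flow.T_zero_len n _ _ w fun v hv => fn_hom h2 v (by omega),
    Flow.T_zero_len m _ _ w fun v hv => fn_hom h1 v (by omega), sub_zero]

end Poly

end BrkM

open BrkM in
/-- module BRK -/
theorem specBrk (hG : SpecGrad) (hW : SpecDWB) (hO : SpecOfDW) : SpecBrk := by
  intro K _ _ ψ χ hψ hχ
  have h0 : MP154526.IsDMR (0 : F2 K) := by
    obtain ⟨N, c, _, h2, h3, _⟩ := hG.comp K ψ hψ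
    rw [← h3 0 (by norm_num)]
    exact h2 0
  obtain ⟨N, c, c1, c2, c3, rfl⟩ := hG.comp K ψ hψ
  obtain ⟨M, d, d1, d2, d3, rfl⟩ := hG.comp K χ hχ
  have hz1 : ∀ x : F2 K, iharaBracket 0 x = 0 := by
    intro x
    have h := MP446.ihara_add_left 0 0 x
    rw [add_zero] at h
    exact left_eq_add.1 h
  have hz2 : ∀ x : F2 K, iharaBracket x 0 = 0 := by
    intro x
    have h := MP446.ihara_add_right x 0 0
    rw [add_zero] at h
    exact left_eq_add.1 h
  have key : ∀ n m, MP154526.IsDMR (iharaBracket (c n) (d m)) := by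
    intro n m
    rcases Nat.lt_or_ge n 3 with hn | hn
    · rw [c3 n hn, hz1]
      exact h0
    rcases Nat.lt_or_ge m 3 with hm | hm
    · rw [d3 m hm, hz2]
      exact h0
    refine hO K (n + m) _ (hom_ihara (by omega) (by omega) (c1 n) (d1 m)) ?_
    have := dw_br (hW K _ (c2 n) n hn) (hW K _ (d2 m) m hm)
    have e : fn (iharaBracket (c n) (d m)) = fun w =>
        T n (fn (c n)) (fn (d m)) w - T m (fn (d m)) (fn (c n)) w :=
      funext (fn_ihara (by omega) (by omega) (c1 n) (d1 m))
    rw [e]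
    exact this
  clear hψ hχ
  induction N with
  | zero =>
    rw [Finset.sum_range_zero, hz1]
    exact h0
  | succ N ihN =>
    rw [Finset.sum_range_succ, MP446.ihara_add_left]
    refine hG.add K _ _ ihN ?_
    clear ihN
    induction M with
    | zero =>
      rw [Finset.sum_range_zero, hz2]
      exact h0
    | succ M ihM =>
      rw [Finset.sum_range_succ, MP446.ihara_add_right]
      exact hG.add K _ _ ihM (key N M)

end MP154526.Assoc
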