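import Pool.Agent.Lib.MP_154526_nt.Assoc.Tw
import Pool.Agent.Lib.MP_154526_nt.Assoc.FlRP

/-!
# EXK: elements of `dmr₀` over every field of characteristic zero
-/

set_option autoImplicit false

namespace MP154526.Assoc.ExKM

open Finset MP154526.Bound MP154526.Top MP154526.Top.Front MP154526.Top.Pass2 MP154526.Lin
  MP154526.Low MP154526.Assoc
open MP446 (F2 gA gB ev)
open MP446D (wordCoeff IsHomog)

attribute [local instance 100] LieRing.ofAssociativeRing

/-- only the values at the words of length `n` matter -/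
theorem dw_congr {K : Type} [CommRing K] {n : ℕ} {ψ φ : List Bool → K} (h : DW n φ)
    (hc : ∀ w : List Bool, w.length = n → ψ w = φ w) : DW n ψ where
  three := h.three
  even he := by
    have h3 := h.three
    rw [hc _ (by rw [ExW.len_bw]; simp [wt]; omega)]
    exact h.even he
  sh u v hu hv hn := by
    rw [shs_congr_len (F := ψ) (G := φ) u v (fun l hl => hc l (by omega))]
    exact h.sh u v hu hv hn
  st u v hu hv ha hn := by
    rw [stf_congr (f := fun l => ψ (bw l)) (g := fun l => φ (bw l)) u v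
      (fun l hl => hc (bw l) (by rw [ExW.len_bw]; omega))]
    exact h.st u v hu hv ha hn

end MP154526.Assoc.ExKM

namespace MP154526.Assoc

open Finset MP154526.Bound MP154526.Top MP154526.Top.Front MP154526.Top.Pass2 MP154526.Lin
  MP154526.Low ExKM
open MP446 (F2 gA gB ev)
open MP446D (wordCoeff IsHomog)

/-- EXK: elements over every field -/
theorem specExK (hE : SpecExG) (hO : SpecOfDW) : SpecExK := by
  intro K _ _ i
  obtain ⟨ψ, hd, hne, Q, χ, hQ, hχ, _, _⟩ := hE i
  set n := 2 * i + 3 with hn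
  -- the real Lie polynomial with the coefficients of `ψ`
  set P : MP446Y.AA ℝ := MP446Y.assoc ℝ (TwM.ta ℝ χ) with hP
  have hcf : ∀ w : List (Fin 2), MP446S.cf P w =
      if w.length = n then (ψ (w.map lf) : ℝ) else 0 := by
    intro w
    rw [hP, TwM.cf_ta, hχ, hQ w]
    split_ifs with h
    · rw [← mul_assoc, ← mul_pow]
      norm_num
    · rw [mul_zero]
  have hHom : MP446S.Hom n P := fun w hw => by rw [hcf w, if_neg hw]
  have hDyn : MP446S.Dyn P = (n : ℝ) • P :=
    MP446S.specDSW1 n P (ExGM.prim_assoc _) hHom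
  -- change of the field
  obtain ⟨g, hg⟩ := LinearMap.exists_leftInverse_of_injective (Algebra.linearMap ℚ ℝ)
    (LinearMap.ker_eq_bot.2 (algebraMap ℚ ℝ).injective)
  let μ : ℝ →+ K := (algebraMap ℚ K).toAddMonoidHom.comp g.toAddMonoidHom
  have hμ : ∀ z : ℤ, μ (z : ℝ) = (z : K) := by
    intro z
    have h1 := LinearMap.congr_fun hg (z : ℚ)
    change g (algebraMap ℚ ℝ (z : ℚ)) = (z : ℚ) at h1
    rw [map_intCast] at h1
    change algebraMap ℚ K (g (z : ℝ)) = (z : K)
    rw [h1, map_intCast]
  have hcfK : ∀ w : List (Fin 2), MP446S.cf (MP446S.mm μ P) w =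
      if w.length = n then (ψ (w.map lf) : K) else 0 := by
    intro w
    change μ (MP446S.cf P w) = _
    rw [hcf w]
    split_ifs with h
    · exact hμ _
    · exact map_zero μ
  have hDynK : MP446S.Dyn (MP446S.mm μ P) = (n : K) • MP446S.mm μ P := by
    rw [← MP446S.mm_Dyn, hDyn, Nat.cast_smul_eq_nsmul, map_nsmul, Nat.cast_smul_eq_nsmul]
  obtain ⟨σ, hσ⟩ := MP446S.specDSW2 K n _ (by omega) hDynK
  have hh : IsHomog n σ := fun w hw => by rw [LieShM.wordCoeff_eq, hσ, hcfK w, if_neg hw]
  have hw : DW n (fn σ) := by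
    refine dw_congr (ExW.DW.map' (Int.castAddHom K) hd) (fun w hw => ?_)
    unfold fn
    rw [LieShM.coef_eq, hσ, hcfK, if_pos (by rw [List.length_map]; exact hw), FlcM.map_lf_fl]
    rfl
  refine ⟨σ, hO K n σ hh hw, hh, ?_⟩
  rw [LieShM.wordCoeff_eq, hσ, hcfK, if_pos (by simp [hn])]
  have h1 : (List.replicate (2 * i + 2) (0 : Fin 2) ++ [1]).map lf = bw [2 * i + 2] := by
    rw [List.map_append, List.map_replicate]
    rfl
  rw [h1]
  exact_mod_cast hne

end MP154526.Assoc
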