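import Pool.Agent.Lib.MP_154526_nt.Assoc.Spec
import Pool.Agent.Lib.MP_446dfa_ag.sig.Basic
import Pool.Agent.Lib.MP_154526_nt.Top.LynSpan

/-!
# GLS: the coefficients of a group-like polynomial are multiplicative for the shuffle product
-/

set_option autoImplicit false

namespace MP154526.Assoc.GlsM

open Finset MP154526.Top MP446S MP446Y

/-- induction on the shuffles -/
theorem shsInd {α : Type} {motive : List α → List α → Prop} (case1 : ∀ v, motive [] v)
    (case2 : ∀ a u, motive (a :: u) [])
    (case3 : ∀ a u c v, motive u (c :: v) → motive (a :: u) v → motive (a :: u) (c :: v)) :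
    ∀ u v, motive u v
  | [], v => case1 v
  | a :: u, [] => case2 a u
  | a :: u, c :: v => case3 a u c v (shsInd case1 case2 case3 u (c :: v))
      (shsInd case1 case2 case3 (a :: u) v)
termination_by u v => u.length + v.length

/-- words -/
abbrev W : Type := List (Fin 2)

/-- remove the first letter of the first word -/
def aO (N : ℕ) (i : Fin 2) : Module.End ℝ (W → W → ℝ) where
  toFun f := fun u v => if u.length + v.length < N then
    (if u.head? = some i then f u.tail v else 0) else 0
  map_add' f g := by
    funext u v
    simp only [Pi.add_apply]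
    split_ifs <;> simp
  map_smul' c f := by
    funext u v
    simp only [Pi.smul_apply, RingHom.id_apply, smul_eq_mul]
    split_ifs <;> simp

/-- remove the first letter of the second word -/
def bO (N : ℕ) (i : Fin 2) : Module.End ℝ (W → W → ℝ) where
  toFun f := fun u v => if u.length + v.length < N then
    (if v.head? = some i then f u v.tail else 0) else 0
  map_add' f g := by
    funext u v
    simp only [Pi.add_apply]
    split_ifs <;> simp
  map_smul' c f := by
    funext u v
    simp only [Pi.smul_apply, RingHom.id_apply, smul_eq_mul]
    split_ifs <;> simp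

lemma aO_apply (N : ℕ) (i : Fin 2) (f : W → W → ℝ) (u v : W) : aO N i f u v =
    if u.length + v.length < N then (if u.head? = some i then f u.tail v else 0) else 0 := rfl

lemma bO_apply (N : ℕ) (i : Fin 2) (f : W → W → ℝ) (u v : W) : bO N i f u v =
    if u.length + v.length < N then (if v.head? = some i then f u v.tail else 0) else 0 := rfl

lemma ab_comm (N : ℕ) (i j : Fin 2) : aO N i * bO N j = bO N j * aO N i := by
  apply LinearMap.ext
  intro f
  funext u v
  rw [Module.End.mul_apply, Module.End.mul_apply, aO_apply, bO_apply, bO_apply, aO_apply]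
  have h1 : u.tail.length ≤ u.length := by rw [List.length_tail]; omega
  have h2 : v.tail.length ≤ v.length := by rw [List.length_tail]; omega
  by_cases h : u.length + v.length < N
  · have e1 : u.length + v.tail.length < N := by omega
    have e2 : u.tail.length + v.length < N := by omega
    rw [if_pos h, if_pos h, if_pos e1, if_pos e2]
    by_cases hu : u.head? = some i
    · rw [if_pos hu, if_pos hu]
    · rw [if_neg hu, if_neg hu, ite_self]
  · rw [if_neg h, if_neg h]

/-- the ideal of the operators raising the length -/
def II' (N : ℕ) : Submodule ℝ (Module.End ℝ (W → W → ℝ)) where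
  carrier := {T | (∀ (j : ℕ) (f : W → W → ℝ), (∀ u v : W, u.length + v.length < j → f u v = 0) →
    ∀ u v : W, u.length + v.length < j + 1 → T f u v = 0) ∧
    ∀ (f : W → W → ℝ) (u v : W), N ≤ u.length + v.length → T f u v = 0}
  add_mem' := by
    intro S T hS hT
    refine ⟨fun j f hf u v h => ?_, fun f u v h => ?_⟩
    · rw [LinearMap.add_apply, Pi.add_apply, Pi.add_apply, hS.1 j f hf u v h, hT.1 j f hf u v h,
        add_zero]
    · rw [LinearMap.add_apply, Pi.add_apply, Pi.add_apply, hS.2 f u v h, hT.2 f u v h, add_zero]
  zero_mem' := ⟨fun _ _ _ _ _ _ => rfl, fun _ _ _ _ => rfl⟩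
  smul_mem' := by
    intro c S hS
    refine ⟨fun j f hf u v h => ?_, fun f u v h => ?_⟩
    · rw [LinearMap.smul_apply, Pi.smul_apply, Pi.smul_apply, hS.1 j f hf u v h, smul_zero]
    · rw [LinearMap.smul_apply, Pi.smul_apply, Pi.smul_apply, hS.2 f u v h, smul_zero]

lemma aO_mem (N : ℕ) (i : Fin 2) : aO N i ∈ II' N := by
  refine ⟨fun j f hf u v h => ?_, fun f u v h => ?_⟩
  · rw [aO_apply]
    split_ifs with h1 h2
    · refine hf _ _ ?_
      cases u with
      | nil => simp at h2
      | cons a u =>
        rw [List.tail_cons]
        rw [List.length_cons] at h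
        omega
    · rfl
    · rfl
  · rw [aO_apply, if_neg (by omega)]

lemma bO_mem (N : ℕ) (i : Fin 2) : bO N i ∈ II' N := by
  refine ⟨fun j f hf u v h => ?_, fun f u v h => ?_⟩
  · rw [bO_apply]
    split_ifs with h1 h2
    · refine hf _ _ ?_
      cases v with
      | nil => simp at h2
      | cons a v =>
        rw [List.tail_cons]
        rw [List.length_cons] at h
        omega
    · rfl
    · rfl
  · rw [bO_apply, if_neg (by omega)]

lemma prod_vanish (N : ℕ) (l : List (Module.End ℝ (W → W → ℝ))) (hl : ∀ x ∈ l, x ∈ II' N)
    (f : W → W → ℝ) : ∀ u v : W, u.length + v.length < l.length → l.prod f u v = 0 := by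
  induction l with
  | nil => intro u v h; simp at h
  | cons T l ih =>
    intro u v h
    rw [List.prod_cons, Module.End.mul_apply]
    exact (hl T (by simp)).1 l.length _ (ih fun x hx => hl x (by simp [hx])) u v
      (by rw [List.length_cons] at h; omega)

lemma nil_II (N : ℕ) (hN : 1 ≤ N) : Nil N (II' N) := by
  refine ⟨fun S hS T hT => ⟨fun j f hf u v h => ?_, fun f u v h => ?_⟩, fun l hl h => ?_⟩
  · rw [Module.End.mul_apply]
    exact hS.1 j _ (fun u' v' h' => hT.1 j f hf u' v' (by omega)) u v h
  · rw [Module.End.mul_apply]
    exact hS.2 _ u v h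
  · apply LinearMap.ext
    intro f
    funext u v
    rcases lt_or_ge (u.length + v.length) N with h1 | h1
    · rw [prod_vanish N l hl f u v (by rw [h]; exact h1)]
      rfl
    · cases l with
      | nil => simp at h; omega
      | cons T l =>
        rw [List.prod_cons, Module.End.mul_apply, (hl T (by simp)).2 _ u v h1]
        rfl

/-- the indicator function of the pair of empty words -/
def dl : W → W → ℝ := fun u v => if u = [] ∧ v = [] then 1 else 0

/-- the words in `a + b` give the shuffles -/
lemma sum_word (N : ℕ) (w : W) : ∀ u v : W, u.length + v.length < N →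
    (w.map ![aO N 0 + bO N 0, aO N 1 + bO N 1]).prod dl u v =
      shs (fun t => if w = t then (1 : ℝ) else 0) u v := by
  induction w with
  | nil =>
    intro u v h
    rw [List.map_nil, List.prod_nil, Module.End.one_apply, dl]
    cases u with
    | nil =>
      rw [shs_nil_left]
      cases v <;> simp
    | cons a u =>
      rw [if_neg (by simp)]
      symm
      refine MP154526.Lyn.shs_eq_zero _ _ _ fun t ht => ?_
      rw [if_neg]
      rintro rfl
      have := ht.perm.length_eq
      simp at this
  | cons i w ih =>
    intro u v h
    have e : (![aO N 0 + bO N 0, aO N 1 + bO N 1] i : Module.End ℝ (W → W → ℝ)) =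
        aO N i + bO N i := by
      fin_cases i <;> rfl
    rw [List.map_cons, List.prod_cons, e, Module.End.mul_apply, LinearMap.add_apply,
      Pi.add_apply, Pi.add_apply, aO_apply, bO_apply, if_pos h, if_pos h]
    have hc : ∀ (a : Fin 2) (s t : W), shs (fun x => if i :: w = a :: x then (1 : ℝ) else 0) s t =
        if a = i then shs (fun x => if w = x then (1 : ℝ) else 0) s t else 0 := by
      intro a s t
      by_cases ha : a = i
      · rw [if_pos ha, ha]
        congr 1
        funext x
        simp
      · rw [if_neg ha]
        refine MP154526.Lyn.shs_eq_zero _ _ _ fun x _ => ?_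
        rw [if_neg]
        intro h2
        exact ha (List.cons.inj h2).1.symm
    cases u with
    | nil =>
      cases v with
      | nil => simp [shs_nil_left]
      | cons c v =>
        simp only [List.head?_nil, List.head?_cons, List.tail_cons, Option.some.injEq,
          reduceCtorEq, if_false, zero_add]
        rw [shs_nil_left, ih [] v (by simp at h ⊢; omega), shs_nil_left]
        by_cases hci : c = i
        · rw [if_pos hci, hci]
          simp
        · rw [if_neg hci, if_neg]
          intro h2
          exact hci (List.cons.inj h2).1.symm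
    | cons a u =>
      cases v with
      | nil =>
        simp only [List.head?_nil, List.head?_cons, List.tail_cons, Option.some.injEq,
          reduceCtorEq, if_false, add_zero]
        rw [shs_nil_right, ih u [] (by simp at h ⊢; omega), shs_nil_right]
        by_cases hci : a = i
        · rw [if_pos hci, hci]
          simp
        · rw [if_neg hci, if_neg]
          intro h2
          exact hci (List.cons.inj h2).1.symm
      | cons c v =>
        rw [shs, hc, hc]
        simp only [List.head?_cons, List.tail_cons, Option.some.injEq]
        rw [List.length_cons, List.length_cons] at h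
        rw [ih u (c :: v) (by rw [List.length_cons]; omega),
          ih (a :: u) v (by rw [List.length_cons]; omega)]

/-- shuffle sums are linear -/
lemma shs_add' (F G : W → ℝ) (u v : W) :
    shs (fun t => F t + G t) u v = shs F u v + shs G u v := by
  induction u, v using shsInd generalizing F G with
  | case1 v => simp [shs_nil_left]
  | case2 a u => simp [shs_nil_right]
  | case3 a u c v ih1 ih2 =>
    rw [shs, shs, shs, ih1, ih2]
    ring

lemma shs_smul' (c : ℝ) (F : W → ℝ) (u v : W) :
    shs (fun t => c * F t) u v = c * shs F u v := by
  induction u, v using shsInd generalizing F with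
  | case1 v => simp [shs_nil_left]
  | case2 a u => simp [shs_nil_right]
  | case3 a u c' v ih1 ih2 =>
    rw [shs, shs, ih1, ih2]
    ring

lemma left_side (N : ℕ) (X : AA ℝ) (u v : W) (h : u.length + v.length < N) :
    EV (aO N 0 + bO N 0) (aO N 1 + bO N 1) X dl u v = shs (fun t => cf X t) u v := by
  induction X using AA_lin with
  | how w =>
    rw [EV_ow, sum_word N w u v h]
    congr 1
    funext t
    rw [cf_ow]
  | hadd X Y hX hY =>
    rw [map_add, LinearMap.add_apply, Pi.add_apply, Pi.add_apply, hX, hY, ← shs_add']
    simp only [cf_add]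
  | hsmul c X hX =>
    rw [map_smul, LinearMap.smul_apply, Pi.smul_apply, Pi.smul_apply, hX, smul_eq_mul, ← shs_smul']
    simp only [cf_smul]

lemma b_word (N : ℕ) (w : W) : ∀ u v : W, u.length + v.length < N →
    (w.map ![bO N 0, bO N 1]).prod dl u v = if u = [] ∧ w = v then (1 : ℝ) else 0 := by
  induction w with
  | nil =>
    intro u v h
    rw [List.map_nil, List.prod_nil, Module.End.one_apply, dl]
    by_cases hu : u = []
    · by_cases hv : v = []
      · simp [hu, hv]
      · have hv' : ¬ ([] : W) = v := fun e => hv e.symm
        simp [hv, hv']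
    · simp [hu]
  | cons i w ih =>
    intro u v h
    have e : (![bO N 0, bO N 1] i : Module.End ℝ (W → W → ℝ)) = bO N i := by
      fin_cases i <;> rfl
    rw [List.map_cons, List.prod_cons, e, Module.End.mul_apply, bO_apply, if_pos h]
    cases v with
    | nil => simp
    | cons c v =>
      simp only [List.head?_cons, List.tail_cons, Option.some.injEq]
      rw [List.length_cons] at h
      rw [ih u v (by omega)]
      by_cases hc : c = i
      · rw [if_pos hc, hc]
        simp
      · rw [if_neg hc, if_neg]
        rintro ⟨_, h2⟩
        exact hc (List.cons.inj h2).1.symm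

lemma b_side (N : ℕ) (X : AA ℝ) (u v : W) (h : u.length + v.length < N) :
    EV (bO N 0) (bO N 1) X dl u v = if u = [] then cf X v else 0 := by
  induction X using AA_lin with
  | how w =>
    rw [EV_ow, b_word N w u v h, cf_ow]
    by_cases hu : u = []
    · simp [hu]
    · simp [hu]
  | hadd X Y hX hY =>
    rw [map_add, LinearMap.add_apply, Pi.add_apply, Pi.add_apply, hX, hY, cf_add]
    split_ifs <;> simp
  | hsmul c X hX =>
    rw [map_smul, LinearMap.smul_apply, Pi.smul_apply, Pi.smul_apply, hX, smul_eq_mul, cf_smul]
    split_ifs <;> simp

lemma a_word (N : ℕ) (g : W → ℝ) (f : W → W → ℝ)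
    (hf : ∀ u v : W, u.length + v.length < N → f u v = if u = [] then g v else 0) (w : W) :
    ∀ u v : W, u.length + v.length < N →
    (w.map ![aO N 0, aO N 1]).prod f u v = if w = u then g v else 0 := by
  induction w with
  | nil =>
    intro u v h
    rw [List.map_nil, List.prod_nil, Module.End.one_apply, hf u v h]
    by_cases hu : u = []
    · simp [hu]
    · rw [if_neg hu, if_neg fun e => hu e.symm]
  | cons i w ih =>
    intro u v h
    have e : (![aO N 0, aO N 1] i : Module.End ℝ (W → W → ℝ)) = aO N i := by
      fin_cases i <;> rfl
    rw [List.map_cons, List.prod_cons, e, Module.End.mul_apply, aO_apply, if_pos h]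
    cases u with
    | nil => simp
    | cons c u =>
      simp only [List.head?_cons, List.tail_cons, Option.some.injEq]
      rw [List.length_cons] at h
      rw [ih u v (by omega)]
      by_cases hc : c = i
      · rw [if_pos hc, hc]
        simp
      · rw [if_neg hc, if_neg]
        intro h2
        exact hc (List.cons.inj h2).1.symm

lemma right_side (N : ℕ) (X Y : AA ℝ) (u v : W) (h : u.length + v.length < N) :
    (EV (aO N 0) (aO N 1) X * EV (bO N 0) (bO N 1) Y) dl u v = cf X u * cf Y v := by
  rw [Module.End.mul_apply]
  induction X using AA_lin with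
  | how w =>
    rw [EV_ow, a_word N (fun v => cf Y v) _ (fun u v h => b_side N Y u v h) w u v h, cf_ow]
    split_ifs <;> simp
  | hadd X Z hX hZ =>
    rw [map_add, LinearMap.add_apply, Pi.add_apply, Pi.add_apply, hX, hZ, cf_add, add_mul]
  | hsmul c X hX =>
    rw [map_smul, LinearMap.smul_apply, Pi.smul_apply, Pi.smul_apply, hX, smul_eq_mul, cf_smul,
      mul_assoc]

/-- group-like polynomials are multiplicative for the shuffle product (words over `Fin 2`) -/
lemma gls (N : ℕ) (P : AA ℝ) (hN : 1 ≤ N) (hP : GrL N P) (u v : W) (h : u.length + v.length < N) :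
    shs (fun t => cf P t) u v = cf P u * cf P v := by
  have key := hP (Module.End ℝ (W → W → ℝ)) (II' N) (nil_II N hN) (aO N 0) (aO N 1) (bO N 0)
    (bO N 1) (aO_mem N 0) (aO_mem N 1) (bO_mem N 0) (bO_mem N 1)
    ⟨ab_comm N 0 0, ab_comm N 0 1, ab_comm N 1 0, ab_comm N 1 1⟩
  rw [← left_side N P u v h, key, right_side N P P u v h]

/-- change of letters -/
lemma shs_map (φ : Bool → Fin 2) (F : W → ℝ) (u v : List Bool) :
    shs (fun w => F (w.map φ)) u v = shs F (u.map φ) (v.map φ) := by
  induction u, v using shsInd generalizing F with
  | case1 v => simp [shs_nil_left]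
  | case2 a u => simp [shs_nil_right]
  | case3 a u c v ih1 ih2 =>
    rw [List.map_cons, List.map_cons, shs, shs]
    have e1 := ih1 (fun w => F (φ a :: w))
    have e2 := ih2 (fun w => F (φ c :: w))
    rw [List.map_cons] at e1 e2
    rw [← e1, ← e2]
    rfl

end MP154526.Assoc.GlsM

namespace MP154526.Assoc

open MP154526.Top

theorem specGls : SpecGls := by
  intro N P hN hP u v h
  rw [GlsM.shs_map fl (fun w => MP446S.cf P w) u v]
  exact GlsM.gls N P hN hP _ _ (by rw [List.length_map, List.length_map]; exact h)

end MP154526.Assoc
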