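import Pool.Agent.Lib.MP_154526_nt.Assoc.SpecB
import Pool.Agent.Lib.MP_154526_nt.Assoc.FlRP
import Pool.Agent.Lib.MP_154526_nt.Low.Tens

/-!
# Lie elements kill the shuffles of two non-empty words
-/

set_option autoImplicit false

namespace MP154526.Assoc.LieShM

open Finset MP154526.Bound MP154526.Top MP154526.Top.Pass2 MP154526.Lin MP154526.Low MP154526.Assoc
open MP446 (F2 gA gB ev)
open MP446D (wordCoeff IsHomog toWords)
open scoped TensorProduct

attribute [local instance 100] LieRing.ofAssociativeRing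

variable {K : Type} [Field K]

theorem expand_eq : (MP154526.expand : F2 K →ₗ⁅K⁆ MP154526.NC K) = MP446Y.assoc K := by
  apply FreeLieAlgebra.hom_ext
  intro i
  unfold MP154526.expand MP446Y.assoc
  rw [FreeLieAlgebra.lift_of_apply, FreeLieAlgebra.lift_of_apply]
  fin_cases i <;> rfl

theorem toWords_eq : toWords K = MP446Y.assoc K := rfl

theorem coef_eq (ψ : F2 K) (w : List (Fin 2)) :
    MP154526.coef ψ w = MP446S.cf (MP446Y.assoc K ψ) w := by
  unfold MP154526.coef
  rw [expand_eq]
  rfl

theorem wordCoeff_eq (ψ : F2 K) (w : List (Fin 2)) :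
    wordCoeff ψ w = MP446S.cf (MP446Y.assoc K ψ) w := rfl

theorem coef_wordCoeff (ψ : F2 K) (w : List (Fin 2)) : MP154526.coef ψ w = wordCoeff ψ w := by
  rw [coef_eq, wordCoeff_eq]

/-- change of the letters -/
noncomputable def tr (K : Type) [Field K] : MP446Y.AA K →ₐ[K] FA K Bool :=
  MP446Y.EV (ow K [false]) (ow K [true])

theorem tr_ow (w : List (Fin 2)) : tr K (MP446Y.ow K w) = ow K (w.map lf) := by
  unfold tr
  rw [MP446Y.EV_ow]
  induction w with
  | nil =>
    rw [List.map_nil, List.prod_nil, List.map_nil]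
    rfl
  | cons i w ih =>
    rw [List.map_cons, List.prod_cons, ih, List.map_cons]
    fin_cases i
    · change ow K [false] * _ = ow K (false :: w.map lf)
      rw [ow_cons false (w.map lf)]
    · change ow K [true] * _ = ow K (true :: w.map lf)
      rw [ow_cons true (w.map lf)]

theorem cf_tr (X : MP446Y.AA K) (v : List Bool) : cf (tr K X) v = MP446S.cf X (v.map fl) := by
  classical
  induction X using MP446S.AA_lin with
  | how u =>
    rw [tr_ow, cf_ow, MP446S.cf_ow]
    by_cases h : u.map lf = v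
    · have h2 : u = v.map fl := by rw [← h, FlcM.map_fl_lf]
      rw [if_pos h, if_pos h2]
    · have h2 : ¬ u = v.map fl := by
        rintro rfl
        exact h (FlcM.map_lf_fl v)
      rw [if_neg h, if_neg h2]
  | hadd X Y hX hY => rw [map_add, cf_add, hX, hY, MP446S.cf_add]
  | hsmul c X hX => rw [map_smul, cf_smul, hX, MP446S.cf_smul]

theorem cf_tr_assoc (ψ : F2 K) (v : List Bool) : cf (tr K (MP446Y.assoc K ψ)) v = fn ψ v := by
  rw [cf_tr]
  unfold fn
  rw [coef_eq]

/-- Lie elements are primitive -/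
theorem prim (ψ : F2 K) : Dsh K Bool (tr K (MP446Y.assoc K ψ)) =
    tr K (MP446Y.assoc K ψ) ⊗ₜ[K] 1 + 1 ⊗ₜ[K] tr K (MP446Y.assoc K ψ) := by
  have hl : ∀ a : Bool, Dsh K Bool (ow K [a]) = ow K [a] ⊗ₜ[K] 1 + 1 ⊗ₜ[K] ow K [a] := by
    intro a
    unfold Dsh
    have : (ow K [a] : FA K Bool) = MonoidAlgebra.of K (FreeMonoid Bool) (FreeMonoid.of a) := rfl
    rw [this, MonoidAlgebra.lift_of, FreeMonoid.lift_eval_of]
    rfl
  induction ψ using MP446.F2_induction with
  | hA =>
    rw [MP446Y.assoc_gA]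
    have : tr K (MP446Y.lt K 0) = ow K [false] := MP446S.EV_letter_zero _ _
    rw [this, hl]
  | hB =>
    rw [MP446Y.assoc_gB]
    have : tr K (MP446Y.lt K 1) = ow K [true] := MP446S.EV_letter_one _ _
    rw [this, hl]
  | hadd x y hx hy =>
    rw [map_add, map_add, map_add, hx, hy, TensorProduct.add_tmul, TensorProduct.tmul_add]
    abel
  | hsmul c x hx =>
    rw [map_smul, map_smul, map_smul, hx, smul_add, TensorProduct.smul_tmul',
      TensorProduct.tmul_smul]
  | hlie x y hx hy =>
    rw [LieHom.map_lie, LieRing.of_associative_ring_bracket]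
    simp only [map_sub, map_mul]
    rw [hx, hy]
    generalize tr K (MP446Y.assoc K x) = a
    generalize tr K (MP446Y.assoc K y) = b
    simp only [mul_add, add_mul, Algebra.TensorProduct.tmul_mul_tmul, one_mul, mul_one,
      TensorProduct.sub_tmul, TensorProduct.tmul_sub]
    abel

/-- Lie elements kill the shuffles -/
theorem shs_fn (ψ : F2 K) (u v : List Bool) (hu : u ≠ []) (hv : v ≠ []) : shs (fn ψ) u v = 0 := by
  have h1 : shs (cf (tr K (MP446Y.assoc K ψ))) u v = 0 := by
    rw [← specTens.sh, prim, Tens.cf2_add, specTens.tmul, specTens.tmul, cf_one_ne hu, cf_one_ne hv,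
      mul_zero, zero_mul, add_zero]
  have h2 : fn ψ = cf (tr K (MP446Y.assoc K ψ)) := by
    funext w
    rw [cf_tr_assoc]
  rw [h2]
  exact h1

end MP154526.Assoc.LieShM
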