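import Pool.Agent.Lib.MP_154526_nt.Assoc.SpecB
import Pool.Agent.Lib.MP_154526_nt.Assoc.Dual
import Pool.Agent.Lib.MP_154526_nt.Assoc.Uni
import Pool.Agent.Lib.MP_446dfa_ag.sig.Basic

/-!
# LINP: the linear pentagon equation for the elements of the double shuffle Lie algebra
-/

set_option autoImplicit false

namespace MP154526.Assoc

open Finset MP154526.Bound MP154526.Top MP154526.Top.Pass2 MP154526.Lin
open MP154526.Low (DW Pt cf_sum)
open scoped TensorProduct

namespace LinPM

open DualM (sumW_add sumW_map sumW_zero sumW_congr)

/-! ### sums over words -/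

theorem sumW_one {M : Type} [AddCommMonoid M] (n : ℕ) (G : List Bool → M) (v : List Bool) :
    sumW n (fun w => if w = v then G w else 0) = if v.length = n then G v else 0 := by
  induction n generalizing v G with
  | zero =>
    show (if [] = v then G [] else 0) = _
    cases v <;> simp
  | succ n ih =>
    show sumW n (fun w => if false :: w = v then G (false :: w) else 0) +
      sumW n (fun w => if true :: w = v then G (true :: w) else 0) = _
    cases v with
    | nil =>
      simp only [reduceCtorEq, if_false, sumW_zero]
      simp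
    | cons b v =>
      cases b with
      | false =>
        have e1 : (fun w => if false :: w = false :: v then G (false :: w) else 0) =
            fun w => if w = v then (fun w => G (false :: w)) w else 0 := by
          funext w
          simp only [List.cons.injEq, true_and]
        have e2 : (fun w => if true :: w = false :: v then G (true :: w) else 0) =
            fun _ => 0 := by
          funext w
          simp
        rw [e1, e2, ih, sumW_zero, add_zero]
        simp
      | true =>
        have e1 : (fun w => if true :: w = true :: v then G (true :: w) else 0) =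
            fun w => if w = v then (fun w => G (true :: w)) w else 0 := by
          funext w
          simp only [List.cons.injEq, true_and]
        have e2 : (fun w => if false :: w = true :: v then G (false :: w) else 0) =
            fun _ => 0 := by
          funext w
          simp
        rw [e1, e2, ih, sumW_zero, zero_add]
        simp

section Eval

variable {K : Type} [CommRing K] {E : Type} [Ring E] [Algebra K E]

/-- the value of a word at `(a, -b)` -/
def wv (a b : E) (w : List Bool) : E := (w.map fun l => if l then -b else a).prod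

/-- `∑_{|w| = n} ψ(w) w(a, -b)` -/
def qv (n : ℕ) (ψ : List Bool → K) (a b : E) : E := sumW n fun w => ψ w • wv a b w

theorem wv_cons (a b : E) (l : Bool) (w : List Bool) :
    wv a b (l :: w) = (if l then -b else a) * wv a b w := by
  unfold wv
  rw [List.map_cons, List.prod_cons]

theorem wv_fl (a b : E) (w : List Bool) :
    ((-1 : K) ^ (w.map fl).count 1) • ((w.map fl).map ![a, b]).prod = wv a b w := by
  induction w with
  | nil => simp [wv]
  | cons l w ih =>
    rw [wv_cons, ← ih, List.map_cons, List.map_cons, List.prod_cons]
    cases l with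
    | false =>
      have h1 : fl false = 0 := rfl
      rw [h1, List.count_cons_of_ne (by decide), ← mul_smul_comm]
      rfl
    | true =>
      have h1 : fl true = 1 := rfl
      rw [h1, List.count_cons_self, pow_succ, mul_neg_one, neg_smul, ← mul_smul_comm, if_pos rfl,
        neg_mul]
      rfl

theorem fl_lf (w : List (Fin 2)) : (w.map lf).map fl = w := by
  rw [List.map_map]
  have : (fl ∘ lf) = id := by
    funext i
    fin_cases i <;> rfl
  rw [this, List.map_id]

theorem lf_fl (w : List Bool) : (w.map fl).map lf = w := by
  rw [List.map_map]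
  have : (lf ∘ fl) = id := by
    funext i
    cases i <;> rfl
  rw [this, List.map_id]

/-- the evaluation of `Q` -/
theorem EV_qv (n : ℕ) (ψ : List Bool → K) (Q : MP446Y.AA K)
    (hQ : ∀ w : List (Fin 2), MP446S.cf Q w =
      if w.length = n then (-1) ^ w.count 1 * ψ (w.map lf) else 0) (a b : E) :
    MP446Y.EV a b Q = qv n ψ a b := by
  classical
  have h1 : Q = sumW n fun w => ((-1) ^ (w.map fl).count 1 * ψ w) • MP446Y.ow K (w.map fl) := by
    apply MonoidAlgebra.ext
    ext u
    have e1 : (sumW n fun w => ((-1) ^ (w.map fl).count 1 * ψ w) •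
        MP446Y.ow K (w.map fl)).coeff u =
        sumW n fun w => MP446S.cf (((-1) ^ (w.map fl).count 1 * ψ w) •
          MP446Y.ow K (w.map fl)) u.toList := by
      let g : MP446Y.AA K →+ K :=
        { toFun := fun X => MP446S.cf X u.toList
          map_zero' := rfl
          map_add' := fun _ _ => rfl }
      exact (sumW_map g n _).symm
    have e2 : Q.coeff u = MP446S.cf Q u.toList := rfl
    rw [e1, e2, hQ]
    have e3 : (fun w : List Bool => MP446S.cf (((-1) ^ (w.map fl).count 1 * ψ w) •
        MP446Y.ow K (w.map fl)) u.toList) = fun w => if w = u.toList.map lf then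
          (-1) ^ (w.map fl).count 1 * ψ w else 0 := by
      funext w
      rw [MP446S.cf_smul, MP446S.cf_ow]
      by_cases h : w = u.toList.map lf
      · rw [if_pos h, h, fl_lf, if_pos rfl, mul_one]
      · rw [if_neg h, if_neg, mul_zero]
        intro h2
        apply h
        rw [← h2, lf_fl]
    rw [e3, sumW_one, List.length_map, fl_lf]
  rw [h1]
  let g : MP446Y.AA K →+ E := (MP446Y.EV a b : MP446Y.AA K →ₐ[K] E).toRingHom.toAddMonoidHom
  have e4 := sumW_map g n fun w =>
    ((-1) ^ (w.map fl).count 1 * ψ w) • MP446Y.ow K (w.map fl)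
  refine e4.symm.trans ?_
  unfold qv
  refine sumW_congr n _ _ fun w _ => ?_
  show MP446Y.EV a b _ = _
  rw [map_smul, MP446Y.EV_ow, ← wv_fl (K := K) a b w, mul_comm, mul_smul]

end Eval

/-! ### shift operators -/

section Shift

variable {k : Type} [CommRing k] {E : Type} [Ring E] [Algebra k E] (m : ℕ)

variable (k) in
/-- the operator `v ↦ (i ↦ a v_{i-1})` -/
def sh (a : E) : Module.End k (Fin (m + 1) → E) where
  toFun v := fun i => if h : 0 < i.val then a * v ⟨i.val - 1, by omega⟩ else 0
  map_add' v v' := by
    funext i
    simp only [Pi.add_apply]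
    split_ifs
    · rw [mul_add]
    · rw [add_zero]
  map_smul' c v := by
    funext i
    simp only [Pi.smul_apply, RingHom.id_apply]
    split_ifs
    · rw [mul_smul_comm]
    · rw [smul_zero]

variable {m}

theorem sh_apply (a : E) (v : Fin (m + 1) → E) (i : Fin (m + 1)) :
    sh k m a v i = if h : 0 < i.val then a * v ⟨i.val - 1, by omega⟩ else 0 := rfl

theorem sh_add (a b : E) : sh k m (a + b) = sh k m a + sh k m b := by
  apply LinearMap.ext
  intro v
  funext i
  rw [LinearMap.add_apply, Pi.add_apply, sh_apply, sh_apply, sh_apply]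
  split_ifs
  · rw [add_mul]
  · rw [add_zero]

theorem sh_neg (a : E) : sh k m (-a) = -sh k m a := by
  apply LinearMap.ext
  intro v
  funext i
  rw [LinearMap.neg_apply, Pi.neg_apply, sh_apply, sh_apply]
  split_ifs
  · rw [neg_mul]
  · rw [neg_zero]

theorem sh_comm {a b : E} (h : a * b = b * a) : sh k m a * sh k m b = sh k m b * sh k m a := by
  apply LinearMap.ext
  intro v
  funext i
  rw [Module.End.mul_apply, Module.End.mul_apply]
  simp only [sh_apply]
  split_ifs
  · rw [← mul_assoc, ← mul_assoc, h]
  · rw [mul_zero, mul_zero]
  · rfl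

theorem sh_prod (l : List E) (v : Fin (m + 1) → E) (i : Fin (m + 1)) :
    (l.map (sh k m)).prod v i =
      if h : l.length ≤ i.val then l.prod * v ⟨i.val - l.length, by omega⟩ else 0 := by
  induction l generalizing i with
  | nil => simp
  | cons a l ih =>
    rw [List.map_cons, List.prod_cons, Module.End.mul_apply, List.prod_cons, sh_apply]
    simp only [List.length_cons]
    by_cases h1 : l.length + 1 ≤ i.val
    · rw [dif_pos h1, dif_pos (by omega), ih, dif_pos (by change l.length ≤ i.val - 1; omega),
        mul_assoc]
      congr 3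
      apply Fin.ext
      change i.val - 1 - l.length = i.val - (l.length + 1)
      omega
    · rw [dif_neg h1]
      by_cases h2 : 0 < i.val
      · rw [dif_pos h2, ih, dif_neg (by change ¬ l.length ≤ i.val - 1; omega), mul_zero]
      · rw [dif_neg h2]

theorem sh_nil (l : List E) (hl : l.length = m + 1) : (l.map (sh k m)).prod = 0 := by
  apply LinearMap.ext
  intro v
  funext i
  rw [sh_prod, dif_neg]
  · rfl
  · omega

theorem wv_sh (a b : E) (w : List Bool) (hw : w.length = m) :
    wv (sh k m a) (sh k m b) w (Pi.single 0 1) (Fin.last m) = wv a b w := by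
  have h1 : wv (sh k m a) (sh k m b) w =
      ((w.map fun l => if l then -b else a).map (sh k m)).prod := by
    unfold wv
    rw [List.map_map]
    congr 1
    apply List.map_congr_left
    intro l _
    cases l
    · rfl
    · simp only [Function.comp_apply, if_true, sh_neg]
  rw [h1, sh_prod, dif_pos (by rw [List.length_map, hw]; exact le_of_eq (Fin.val_last m).symm)]
  have h2 : (⟨(Fin.last m).val - (w.map fun l => if l then -b else a).length, by omega⟩ :
      Fin (m + 1)) = 0 := by
    apply Fin.ext
    change (Fin.last m).val - (w.map fun l => if l then -b else a).length = 0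
    rw [List.length_map, hw, Fin.val_last]
    omega
  rw [h2, Pi.single_eq_same, mul_one]
  rfl

theorem qv_sh (ψ : List Bool → k) (a b : E) :
    qv m ψ (sh k m a) (sh k m b) (Pi.single 0 1) (Fin.last m) = qv m ψ a b := by
  let g : Module.End k (Fin (m + 1) → E) →+ E :=
    { toFun := fun f => f (Pi.single 0 1) (Fin.last m)
      map_zero' := rfl
      map_add' := fun _ _ => rfl }
  have h1 := sumW_map g m fun w => ψ w • wv (sh k m a) (sh k m b) w
  refine h1.symm.trans ?_
  unfold qv
  refine sumW_congr m _ _ fun w hw => ?_
  show ψ w • wv (sh k m a) (sh k m b) w (Pi.single 0 1) (Fin.last m) = _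
  rw [wv_sh a b w hw]

end Shift

/-! ### the point over the dual numbers -/

section Point

variable {K : Type} [Field K]

theorem stf_congr' {M : Type} [AddCommMonoid M] (f g : List ℕ → M) (u v : List ℕ)
    (h : ∀ l, wt l = wt u + wt v → f l = g l) : stf f u v = stf g u v := by
  induction u, v using stf_induct generalizing f g with
  | h0 W => simpa using h W (by simp)
  | h1 a σ => simpa using h (a :: σ) (by simp)
  | h2 a σ c W ha hb hc =>
    rw [stf_cons_cons, stf_cons_cons]
    congr 1
    · congr 1
      · exact ha _ _ fun l hl => h _ (by simp only [wt_cons] at hl ⊢; omega)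
      · exact hb _ _ fun l hl => h _ (by simp only [wt_cons] at hl ⊢; omega)
    · exact hc _ _ fun l hl => h _ (by simp only [wt_cons] at hl ⊢; omega)

/-- `1 + ε ψ` -/
noncomputable def pt (n : ℕ) (ψ : List Bool → K) (w : List Bool) : DualNumber K :=
  if w = [] then 1 else if w.length = n then TrivSqZeroExt.inr (ψ w) else 0

theorem inr_mul (x y : K) : (TrivSqZeroExt.inr x * TrivSqZeroExt.inr y : DualNumber K) = 0 :=
  TrivSqZeroExt.inr_mul_inr K x y

theorem pt_mul (n : ℕ) (ψ : List Bool → K) (u v : List Bool) (hu : u ≠ []) (hv : v ≠ []) :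
    pt n ψ u * pt n ψ v = 0 := by
  unfold pt
  rw [if_neg hu, if_neg hv]
  split_ifs
  · exact inr_mul _ _
  · rw [mul_zero]
  · rw [zero_mul]
  · rw [zero_mul]

/-- `inr` as an additive map -/
noncomputable def inrA (K : Type) [Field K] : K →+ DualNumber K where
  toFun := TrivSqZeroExt.inr
  map_zero' := TrivSqZeroExt.inr_zero K
  map_add' := TrivSqZeroExt.inr_add K

theorem isPt [CharZero K] {n : ℕ} {ψ : List Bool → K} (h : DW n ψ) : Pt (pt n ψ) where
  one := by
    unfold pt
    rw [if_pos rfl]
  zx := by
    have := h.three
    unfold pt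
    rw [if_neg (by simp), if_neg (by simp; omega)]
  zy := by
    have := h.three
    unfold pt
    rw [if_neg (by simp), if_neg (by simp; omega)]
  sh u v := by
    by_cases hu : u = []
    · subst hu
      rw [Top.shs_nil_left]
      unfold pt
      rw [if_pos rfl, one_mul]
    · by_cases hv : v = []
      · subst hv
        rw [Top.shs_nil_right]
        unfold pt
        rw [if_pos rfl, mul_one]
      · rw [pt_mul n ψ u v hu hv]
        by_cases hn : u.length + v.length = n
        · have e : shs (pt n ψ) u v = shs (fun w => inrA K (ψ w)) u v := by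
            refine shs_congr_len u v fun w hw => ?_
            unfold pt
            rw [if_neg, if_pos (by omega)]
            · rfl
            · rintro rfl
              apply hu
              apply List.eq_nil_of_length_eq_zero
              simp at hw
              omega
          rw [e, ← shs_map (inrA K) ψ u v, h.sh u v hu hv hn, map_zero]
        · have e : shs (pt n ψ) u v = shs (fun w => inrA K ((fun _ => 0) w)) u v := by
            refine shs_congr_len u v fun w hw => ?_
            unfold pt
            rw [if_neg, if_neg (by omega), map_zero]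
            rintro rfl
            apply hu
            apply List.eq_nil_of_length_eq_zero
            simp at hw
            omega
          rw [e, ← shs_map (inrA K) (fun _ => 0) u v]
          have : shs (fun _ : List Bool => (0 : K)) u v = 0 := by
            have h5 := shs_map (0 : K →+ K) (fun _ => (0 : K)) u v
            simpa using h5.symm
          rw [this, map_zero]
  st u v hA := by
    by_cases hu : u = []
    · subst hu
      rw [Top.Pass2.stf_nil_left]
      unfold pt
      rw [if_pos (show bw [] = [] from rfl), one_mul]
    · by_cases hv : v = []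
      · subst hv
        rw [Top.Pass2.stf_nil_right]
        unfold pt
        rw [if_pos (show bw [] = [] from rfl), mul_one]
      · have hb : ∀ l : List ℕ, l ≠ [] → bw l ≠ [] := fun l hl h0 =>
          hl (Low.bw_injective (h0.trans rfl))
        rw [pt_mul n ψ (bw u) (bw v) (hb u hu) (hb v hv)]
        have hne : ∀ l : List ℕ, wt l = wt u + wt v → bw l ≠ [] := by
          intro l hl h0
          have h1 := congrArg List.length h0
          rw [Pass2.bw_length] at h1
          have h2 : (bw u).length = 0 := by
            rw [Pass2.bw_length]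
            simp only [List.length_nil] at h1
            omega
          exact hb u hu (List.eq_nil_of_length_eq_zero h2)
        by_cases hn : wt u + wt v = n
        · have e : stf (fun l => pt n ψ (bw l)) u v = stf (fun l => inrA K (ψ (bw l))) u v := by
            refine stf_congr' _ _ u v fun l hl => ?_
            unfold pt
            rw [if_neg (hne l hl), if_pos (by rw [Pass2.bw_length]; omega)]
            rfl
          rw [e, ← stf_map (inrA K) (fun l => ψ (bw l)) u v, h.st u v hu hv hA hn, map_zero]
        · have e : stf (fun l => pt n ψ (bw l)) u v = stf (fun l => inrA K ((fun _ => 0) l)) u v := by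
            refine stf_congr' _ _ u v fun l hl => ?_
            unfold pt
            rw [if_neg (hne l hl), if_neg (by rw [Pass2.bw_length]; omega), map_zero]
          rw [e, ← stf_map (inrA K) (fun _ => 0) u v]
          have : stf (fun _ : List ℕ => (0 : K)) u v = 0 := by
            have h5 := stf_map (0 : K →+ K) (fun _ => (0 : K)) u v
            simpa using h5.symm
          rw [this, map_zero]

end Point

/-! ### the pentagon equation over the dual numbers -/

theorem one_add_mul {R : Type} [Ring R] (a b : R) (h : a * b = 0) :
    (1 + a) * (1 + b) = 1 + (a + b) := by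
  rw [mul_add, mul_one, add_mul, one_mul, h, add_zero, add_assoc]

section Main

variable {K : Type} [Field K] {E0 : Type} [Ring E0] [Algebra K E0]

/-- `e ↦ 1 ⊗ e` -/
noncomputable def inc : E0 →ₐ[K] (DualNumber K ⊗[K] E0) := Algebra.TensorProduct.includeRight

/-- `e ↦ ε ⊗ e` -/
noncomputable def ep (e : E0) : DualNumber K ⊗[K] E0 := (TrivSqZeroExt.inr 1 : DualNumber K) ⊗ₜ[K] e

/-- the coefficient of `ε` -/
noncomputable def co : (DualNumber K ⊗[K] E0) →ₗ[K] E0 :=
  TensorProduct.lift (LinearMap.lsmul K E0 ∘ₗ TrivSqZeroExt.sndHom K K)

theorem co_ep (e : E0) : co (ep (K := K) e) = e := by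
  unfold co ep
  rw [TensorProduct.lift.tmul]
  simp

theorem ep_add (e f : E0) : ep (K := K) (e + f) = ep e + ep f := TensorProduct.tmul_add _ _ _

theorem ep_mul (e f : E0) : ep (K := K) e * ep f = 0 := by
  unfold ep
  rw [Algebra.TensorProduct.tmul_mul_tmul, inr_mul, TensorProduct.zero_tmul]

theorem one_ep_mul (x y : E0) :
    (1 + ep (K := K) x) * (1 + ep (K := K) y) = 1 + ep (K := K) (x + y) := by
  rw [ep_add]
  exact one_add_mul (R := DualNumber K ⊗[K] E0) (ep (K := K) x) (ep (K := K) y) (ep_mul x y)

theorem inr_smul_inc (c : K) (e : E0) :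
    (TrivSqZeroExt.inr c : DualNumber K) • (inc (K := K) e) = ep (K := K) (c • e) := by
  unfold inc ep
  rw [Algebra.TensorProduct.includeRight_apply, TensorProduct.smul_tmul', smul_eq_mul, mul_one,
    ← TensorProduct.smul_tmul, ← TrivSqZeroExt.inr_smul, smul_eq_mul, mul_one]

theorem inc_one : inc (K := K) (1 : E0) = 1 := rfl

theorem inc_mul (a b : E0) : inc (K := K) (a * b) = inc (K := K) a * inc (K := K) b :=
  (inc (K := K) (E0 := E0)).map_mul' a b

theorem inc_prod (l : List E0) : (l.map (inc (K := K))).prod = inc (K := K) l.prod := by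
  induction l with
  | nil => rfl
  | cons a l ih => rw [List.map_cons, List.prod_cons, List.prod_cons, ih, inc_mul]

theorem wv_inc (a b : E0) (w : List Bool) :
    wv (inc (K := K) a) (inc (K := K) b) w = inc (K := K) (wv a b w) := by
  induction w with
  | nil =>
    unfold wv
    rw [List.map_nil, List.prod_nil, List.map_nil, List.prod_nil, inc_one]
  | cons l w ih =>
    rw [wv_cons, wv_cons, map_mul, ih]
    cases l
    · rfl
    · simp only [if_true, map_neg]

theorem val_inc {n : ℕ} (hn : 1 ≤ n) (ψ : List Bool → K) (a b : E0) :
    val (n + 1) (pt n ψ) (inc (K := K) a) (inc (K := K) b) = 1 + ep (K := K) (qv n ψ a b) := by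
  unfold val
  have key : ∀ k ∈ range (n + 1), (sumW k fun w => pt n ψ w •
      (w.map fun l => if l then -(inc (K := K) b) else inc (K := K) a).prod) =
      (if k = 0 then 1 else 0) + if k = n then ep (K := K) (qv n ψ a b) else 0 := by
    intro k hk
    rw [Finset.mem_range] at hk
    by_cases h0 : k = 0
    · subst h0
      rw [if_pos rfl, if_neg (by omega), add_zero]
      show pt n ψ [] • (1 : DualNumber K ⊗[K] E0) = 1
      unfold pt
      rw [if_pos rfl, one_smul]
    · rw [if_neg h0, zero_add]
      by_cases h1 : k = n
      · subst h1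
        rw [if_pos rfl]
        unfold qv
        let g : E0 →+ (DualNumber K ⊗[K] E0) :=
          { toFun := ep (K := K)
            map_zero' := TensorProduct.tmul_zero _ _
            map_add' := ep_add }
        have e1 := sumW_map g k fun w => ψ w • wv a b w
        refine Eq.trans ?_ e1
        refine sumW_congr k _ _ fun w hw => ?_
        show pt k ψ w • wv (inc (K := K) a) (inc (K := K) b) w = ep (K := K) (ψ w • wv a b w)
        rw [wv_inc, ← inr_smul_inc]
        unfold pt
        rw [if_neg, if_pos hw]
        rintro rfl
        exact h0 hw.symm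
      · rw [if_neg h1, ← sumW_zero (M := DualNumber K ⊗[K] E0) k]
        refine sumW_congr k _ _ fun w hw => ?_
        unfold pt
        rw [if_neg, if_neg (by omega), zero_smul]
        rintro rfl
        exact h0 hw.symm
  rw [Finset.sum_congr rfl key, Finset.sum_add_distrib, Finset.sum_ite_eq', Finset.sum_ite_eq',
    if_pos (by simp), if_pos (by simp)]

end Main

end LinPM

open LinPM in
/-- module LINP -/
theorem specLinP (hF : SpecFinal) : SpecLinP := by
  intro K _ _ n ψ Q hψ hQ E _ _ t ht
  have hn : 1 ≤ n := le_trans (by norm_num) hψ.three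
  obtain ⟨L, hL1, hL2, hL3⟩ := specKill (DualNumber K) (pt n ψ) (isPt hψ)
  have hP := hF.pentagon (DualNumber K) L hL1 hL3
  have hP2 : Pentagon (pt n ψ) := by
    have : (fun w => L (wd w)) = pt n ψ := funext hL2
    rw [← this]
    exact hP
  clear hP
  let s : E → Module.End K (Fin (n + 1) → E) := LinPM.sh K n
  let t' : Fin 4 → Fin 4 → (DualNumber K ⊗[K] Module.End K (Fin (n + 1) → E)) :=
    fun i j => inc (K := K) (s (t i j))
  have hB : MP446S.Braid t' := by
    refine ⟨fun i j => ?_, fun i j k l h1 h2 h3 h4 h5 h6 => ?_, fun i j k h1 h2 h3 => ?_⟩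
    · show inc (K := K) (s (t i j)) = inc (K := K) (s (t j i))
      rw [ht.symm i j]
    · show inc (K := K) (s (t i j)) * inc (K := K) (s (t k l)) =
        inc (K := K) (s (t k l)) * inc (K := K) (s (t i j))
      rw [← map_mul, ← map_mul, sh_comm (ht.comm i j k l h1 h2 h3 h4 h5 h6)]
    · show inc (K := K) (s (t i j)) * (inc (K := K) (s (t i k)) + inc (K := K) (s (t j k))) =
        (inc (K := K) (s (t i k)) + inc (K := K) (s (t j k))) * inc (K := K) (s (t i j))
      rw [← map_add, ← map_mul, ← map_mul, ← sh_add, sh_comm (ht.rel i j k h1 h2 h3)]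
  have hN : ∀ l : List (Fin 4 × Fin 4), l.length = n + 1 →
      (l.map fun p => t' p.1 p.2).prod = 0 := by
    intro l hl
    have h1 : (l.map fun p => t' p.1 p.2) =
        ((l.map fun p => t p.1 p.2).map s).map (inc (K := K)) := by
      rw [List.map_map, List.map_map]
      rfl
    rw [h1, inc_prod, sh_nil _ (by rw [List.length_map, hl]), map_zero]
  have hp := hP2 _ (n + 1) t' hB hN
  have a1 : t' 1 2 + t' 1 3 = inc (K := K) (s (t 1 2 + t 1 3)) := by
    show inc (K := K) (s (t 1 2)) + inc (K := K) (s (t 1 3)) = _
    rw [← map_add, ← sh_add]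
  have a2 : t' 0 2 + t' 1 2 = inc (K := K) (s (t 0 2 + t 1 2)) := by
    show inc (K := K) (s (t 0 2)) + inc (K := K) (s (t 1 2)) = _
    rw [← map_add, ← sh_add]
  have a3 : t' 0 1 + t' 0 2 = inc (K := K) (s (t 0 1 + t 0 2)) := by
    show inc (K := K) (s (t 0 1)) + inc (K := K) (s (t 0 2)) = _
    rw [← map_add, ← sh_add]
  have a4 : t' 1 3 + t' 2 3 = inc (K := K) (s (t 1 3 + t 2 3)) := by
    show inc (K := K) (s (t 1 3)) + inc (K := K) (s (t 2 3)) = _
    rw [← map_add, ← sh_add]
  have a5 : ∀ i j, t' i j = inc (K := K) (s (t i j)) := fun _ _ => rfl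
  rw [a1, a2, a3, a4, a5, a5, a5, val_inc hn, val_inc hn, val_inc hn, val_inc hn, val_inc hn] at hp
  have hp2 : ep (K := K) (qv n ψ (s (t 0 1)) (s (t 1 2 + t 1 3)) +
      qv n ψ (s (t 0 2 + t 1 2)) (s (t 2 3))) =
      ep (K := K) (qv n ψ (s (t 1 2)) (s (t 2 3)) +
        qv n ψ (s (t 0 1 + t 0 2)) (s (t 1 3 + t 2 3)) + qv n ψ (s (t 0 1)) (s (t 1 2))) := by
    rw [one_ep_mul, one_ep_mul, one_ep_mul] at hp
    exact add_left_cancel hp
  have hp3 := congrArg (co (K := K)) hp2
  rw [co_ep, co_ep] at hp3
  replace hp3 := congrArg (fun f : Module.End K (Fin (n + 1) → E) =>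
    f (Pi.single 0 1) (Fin.last n)) hp3
  simp only [LinearMap.add_apply, Pi.add_apply] at hp3
  simp only [s, qv_sh] at hp3
  unfold MP446S.PLt
  rw [EV_qv n ψ Q hQ, EV_qv n ψ Q hQ, EV_qv n ψ Q hQ, EV_qv n ψ Q hQ, EV_qv n ψ Q hQ]
  exact hp3

end MP154526.Assoc
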