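import Pool.Agent.Lib.MP_154526_nt.Low.Ind
import Pool.Agent.Lib.MP_154526_nt.Low.Flow
import Pool.Agent.Lib.MP_446dfa_ag.sig.Spec

/-!
# Relations of associators: definitions and exact statements of the modules

Words in `x, y` are lists of booleans, `false = x`, `true = y` (as in `Low`), or lists of elements
of `Fin 2`, `0 = x`, `1 = y` (as in `MP_446dfa_ag/sig`).  A series `Φ(x, y)` is given by the
function `w ↦ Φ(w)` with value `ζ(w)` at the words of `ℌ⁰`; the series in the convention of
`MP_446dfa_ag/sig` is `∑_w (-1)^(number of y) Φ(w) w`.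
-/

set_option autoImplicit false

namespace MP154526.Assoc

open Finset MP154526.Bound MP154526.Top MP154526.Top.Pass2 MP154526.Lin MP154526.Low

/-! ### definitions of the final statement -/

/-- the sum of `F` over the words of length `n` -/
def sumW {M : Type} [AddCommMonoid M] : ℕ → (List Bool → M) → M
  | 0, F => F []
  | n + 1, F => sumW n (fun w => F (false :: w)) + sumW n (fun w => F (true :: w))

/-- the sum of `Φ(w) w(a, -b)` over the words `w` of length less than `N` -/
def val {K E : Type} [CommRing K] [Ring E] [Algebra K E] (N : ℕ) (Φ : List Bool → K) (a b : E) :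
    E :=
  ∑ n ∈ range N, sumW n fun w => Φ w • (w.map fun l => if l then -b else a).prod

/-- Drinfeld's pentagon equation for the series `∑_w Φ(w) w(x, -y)`, in all algebras generated by
nilpotent elements satisfying the infinitesimal braid relations on four strands -/
def Pentagon {K : Type} [CommRing K] (Φ : List Bool → K) : Prop :=
  ∀ (E : Type) [Ring E] [Algebra K E] (N : ℕ) (t : Fin 4 → Fin 4 → E), MP446S.Braid t →
    (∀ l : List (Fin 4 × Fin 4), l.length = N → (l.map fun p => t p.1 p.2).prod = 0) →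
    val N Φ (t 0 1) (t 1 2 + t 1 3) * val N Φ (t 0 2 + t 1 2) (t 2 3) =
      val N Φ (t 1 2) (t 2 3) * val N Φ (t 0 1 + t 0 2) (t 1 3 + t 2 3) * val N Φ (t 0 1) (t 1 2)

/-- a group-like series without linear terms: a homomorphism `L` from the shuffle algebra to `K`
with `L x = L y = 0` -/
structure GrpLike {K : Type} [CommRing K] [Algebra ℚ K] (L : H →ₗ[ℚ] K) : Prop where
  one : L (wd []) = 1
  x : L (wd [false]) = 0
  y : L (wd [true]) = 0
  mul : ∀ a b : H, L (shuffle a b) = L a * L b

/-! ### real points -/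

/-- from the letters `0 = x`, `1 = y` to booleans -/
def lf (i : Fin 2) : Bool := decide (i = 1)

/-- from booleans to the letters `0 = x`, `1 = y` -/
def fl (b : Bool) : Fin 2 := if b then 1 else 0

/-- the polynomial `∑_{|w| < N} (-1)^(number of y) Φ(w) w` -/
noncomputable def pol (N : ℕ) (Φ : List Bool → ℝ) : MP446Y.AA ℝ :=
  ∑ w ∈ MP446S.wl N, ((-1) ^ w.count 1 * Φ (w.map lf)) • MP446Y.ow ℝ w

/-- real solutions of the regularised double shuffle equations and of the pentagon equation -/
structure RP (Φ : List Bool → ℝ) : Prop where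
  pt : Pt Φ
  good : ∀ N, 1 ≤ N → MP446S.Good N (pol N Φ)

/-- the rational relations of weight `m` satisfied by all real points -/
def RB (m : ℕ) (h : H) : Prop :=
  (∀ w, h w ≠ 0 → w.length = m) ∧ ∀ Φ, RP Φ → Finsupp.linearCombination ℚ Φ h = 0

/-- the integral functionals killing these relations -/
def Pr (m : ℕ) (φ : List Bool → ℤ) : Prop :=
  ∀ h : H, RB m h → Finsupp.linearCombination ℚ (fun w => (φ w : ℚ)) h = 0

/-- `Q` is the polynomial of the functional `ψ` of weight `n` -/
def IsPol (n : ℕ) (ψ : List Bool → ℝ) (Q : MP446Y.AA ℝ) : Prop :=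
  ∀ w : List (Fin 2), MP446S.cf Q w = if w.length = n then (-1) ^ w.count 1 * ψ (w.map lf) else 0

/-- the functional `ψ` of weight `n` belongs to `grt₁` -/
def Gr (n : ℕ) (ψ : List Bool → ℝ) : Prop :=
  ∃ (Q : MP446Y.AA ℝ) (χ : MP446.F2 ℝ), IsPol n ψ Q ∧ MP446Y.assoc ℝ χ = Q ∧ MP446.IsGRT χ ∧
    MP446S.Prim Q

/-! ## Modules: algebra of the operators -/

/-- IHA: the Ihara bracket in coefficients, `[T_g, T_f] = T_{T_g f - T_f g}`.  (Prove
`sop g (sop f φ) - sop f (sop g φ) = sop (sop g f - sop f g) φ` for polynomials in `FA ℤ Bool` and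
use `specTr : SpecTr` of `Low/Tr.lean`, with `φ` cut off in length.) -/
def SpecIha : Prop :=
  ∀ (n m : ℕ) (f g φ : List Bool → ℤ), 1 ≤ n → 1 ≤ m → ∀ w : List Bool,
    T m g (T n f φ) w - T n f (T m g φ) w = T (n + m) (fun v => T m g f v - T n f g v) φ w

/-- INDG (from IHA): the version of `Low/Desc.lean`, `Low/LynOp.lean` (`exists_op`) and of `indP` in
`Low/Ind.lean` for a class `P` of functionals where the existence of the elements `σ` is only
assumed for elements whose operator preserves the class.  (Carry in `exists_op` the two additional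
properties: `pull P` preserves the class, and `pull P φ = T n (pull P eps) φ`; the second one is
stable under commutators by IHA.) -/
def SpecIndG : Prop :=
  ∀ P : ℕ → (List Bool → ℤ) → Prop,
    (∀ m φ χ, P m φ → P m χ → P m fun w => φ w - χ w) →
    (∀ m φ, (P m fun w => 2 * φ w) → P m φ) →
    (∀ m φ χ, (∀ w : List Bool, w.length = m → φ w = χ w) → P m φ → P m χ) →
    (∀ k : ℕ, ∃ ψ : List Bool → ℤ, DW (2 * k + 3) ψ ∧ ψ (bw [2 * k + 2]) ≠ 0 ∧
      ∀ m φ, P m φ → P (2 * k + 3 + m) (T (2 * k + 3) ψ φ)) →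
    (∀ m : ℕ, ∃ φ : List Bool → ℤ, P (2 * m) φ ∧ φ (zp m) ≠ 0) →
    ∀ (N : ℕ) (S : Finset (List Bool)) (c : List Bool → ℤ), (∀ s ∈ S, (expand s).length = N) →
      (∀ φ : List Bool → ℤ, P N φ → ∑ s ∈ S, c s * φ (expand s) = 0) → ∀ s ∈ S, c s = 0

/-! ## Modules: regularisation -/

/-- SPXY: modulo shuffle products with the letters, every word is in `ℌ⁰` -/
def SpecSpXY : Prop :=
  ∀ (m : ℕ) (w : List Bool), w.length = m →
    wd w ∈ H0 m ⊔ Submodule.span ℚ {z : H | ∃ (a : Bool) (v : List Bool), v.length + 1 = m ∧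
      z = shuffle (wd [a]) (wd v)}

/-- RED0 (from SPXY) -/
def SpecRed0 : Prop :=
  ∀ (m : ℕ) (h : H), (∀ w, h w ≠ 0 → w.length = m) →
    ∃ r ∈ H0 m, ∀ (K : Type) [CommRing K] [Algebra ℚ K] (L : H →ₗ[ℚ] K), GrpLike L → L h = L r

/-- KILL: the homomorphism given by a solution of the double shuffle equations kills the
regularised double shuffle elements -/
def SpecKill : Prop :=
  ∀ (K : Type) [CommRing K] [Algebra ℚ K] (Φ : List Bool → K), Pt Φ →
    ∃ L : H →ₗ[ℚ] K, GrpLike L ∧ (∀ w, L (wd w) = Φ w) ∧ ∀ p, ∀ r ∈ RDS p, L r = 0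

/-- REGU (from SPXY): uniqueness of the regularisation -/
def SpecRegU : Prop :=
  ∀ (N : ℕ) (f g : List Bool → ℝ), f [] = g [] → (∀ a, f [a] = 0) → (∀ a, g [a] = 0) →
    (∀ u v : List Bool, u.length + v.length < N → shs f u v = f u * f v) →
    (∀ u v : List Bool, u.length + v.length < N → shs g u v = g u * g v) →
    (∀ w, Adm w → w.length < N → f w = g w) → ∀ w : List Bool, w.length < N → f w = g w

/-! ## Modules: the real Knizhnik-Zamolodchikov series -/

/-- KZC: the coefficients of the Knizhnik-Zamolodchikov series at the words of `ℌ⁰` are multiple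
zeta values.  (`cf P w = lim II w a (1 - b)`, `a, b → 0`, see `sig/Coef.lean` (`cf_lim`, `cf_left`);
`II w a t → ± ev t (F w)` for `a → 0` and `w` ending in `y`, `F`, `ev` of `Low/Lsh.lean`, and
`ev_tendsto` of `Low/Zshuf.lean`.) -/
def SpecKZC : Prop :=
  ∀ (N : ℕ) (P : MP446Y.AA ℝ), 1 ≤ N → MP446S.KZlim N P → ∀ w : List Bool, Adm w → w.length < N →
    MP446S.cf P (w.map fl) = (-1) ^ w.count true * Zw w

/-- GLS: the coefficients of a group-like polynomial are multiplicative for the shuffle product.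
(Apply `GrL` in the algebra of the operators on the functions on the pairs of words of total
length `< N`, as in `sig/DIFF.lean`.) -/
def SpecGls : Prop :=
  ∀ (N : ℕ) (P : MP446Y.AA ℝ), 1 ≤ N → MP446S.GrL N P → ∀ u v : List Bool,
    u.length + v.length < N →
    shs (fun w => MP446S.cf P (w.map fl)) u v = MP446S.cf P (u.map fl) * MP446S.cf P (v.map fl)

/-- GCONG: `Good N` only depends on the coefficients at the words of length `< N` -/
def SpecGCong : Prop :=
  ∀ (N : ℕ) (P P' : MP446Y.AA ℝ), 1 ≤ N →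
    (∀ w : List (Fin 2), w.length < N → MP446S.cf P w = MP446S.cf P' w) →
    MP446S.Good N P → MP446S.Good N P'

/-- BASE (from KZC, REGU, GLS, GCONG, `asmPtR` and `sig`): the real point given by multiple zeta
values -/
def SpecBase : Prop := ∃ Φ, RP Φ ∧ ∀ w, Adm w → Φ w = Zw w

/-! ## Modules: flows -/

/-- FLC: the flows of `Low` (`Flow.ex`) and of `sig` (`flow`) coincide.  (`LQ Q X = X Q + D_Q X` is
the operator `sop`, because `D_Q = d_Q + ad Q`; see `specTr`.) -/
def SpecFlc : Prop :=
  ∀ (N n : ℕ) (Φ ψ : List Bool → ℝ) (Q : MP446Y.AA ℝ), 1 ≤ n → IsPol n ψ Q →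
    ∀ w : List (Fin 2), w.length < N →
      MP446S.cf (MP446S.flow N Q (pol N Φ)) w = MP446S.cf (pol N (Flow.ex n Φ ψ)) w

/-- FLRP (from FLC, GCONG, the lemmas of `Low/Flow.lean` (see the proof of `specFlow`) and `sig`):
the flow preserves the real points -/
def SpecFlRP : Prop :=
  ∀ (n : ℕ) (Φ ψ : List Bool → ℝ), RP Φ → DW n ψ → Gr n ψ →
    RP (Flow.ex n Φ ψ) ∧ (∀ w : List Bool, w.length < n → Flow.ex n Φ ψ w = Φ w) ∧
      (∀ w : List Bool, w.length = n → Flow.ex n Φ ψ w = Φ w + ψ w) ∧
      ∀ k, n ≤ k → Flow.ex n Φ ψ (bw [k]) = Φ (bw [k])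

/-- EXG (from BASE, FLRP and `sig`): integral elements in `dmr₀ ∩ grt₁` with non-zero coefficient
in depth one.  (As `Low/ExW.lean`, with RP instead of Pt, and `diff_part` of `sig/Asm.lean`; the
descent to `ℤ` as in `Low/ExW.lean` and `sig/Desc.lean`.) -/
def SpecExG : Prop :=
  ∀ k : ℕ, ∃ ψ : List Bool → ℤ, DW (2 * k + 3) ψ ∧ ψ (bw [2 * k + 2]) ≠ 0 ∧
    Gr (2 * k + 3) fun w => (ψ w : ℝ)

/-- GT (from FLRP): the operators of these elements preserve the class `Pr`.  (For `h` in `RB` and
`Φ` in `RP` the value at `h` of the flow of `s ψ` is a polynomial in the real number `s` which is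
identically zero.) -/
def SpecGT : Prop :=
  ∀ (n : ℕ) (ψ : List Bool → ℤ), DW n ψ → (Gr n fun w => (ψ w : ℝ)) → ∀ m φ, Pr m φ →
    Pr (n + m) (T n ψ φ)

/-- PIG (from BASE) -/
def SpecPiG : Prop := ∀ m : ℕ, ∃ φ : List Bool → ℤ, Pr (2 * m) φ ∧ φ (zp m) ≠ 0

/-- MAIN (from INDG, EXG, GT, PIG, KILL, and `(asmStatement p).span`): the relations of the real
points -/
def SpecMain : Prop := ∀ (p : ℕ) (h : H), h ∈ H0 p → RB p h → h ∈ Submodule.span ℚ (RDS p)

/-! ## Modules: final statements -/

/-- CONV: real points satisfy the pentagon equation in the form of the final statement -/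
def SpecConv : Prop := ∀ Φ, RP Φ → Pentagon Φ

/-- DUAL: the pentagon equation implies duality.  (Take `t 0 1 = t 2 3 = a`, `t 1 2 = t 0 3 = b`,
`t 0 2 = t 1 3 = - a - b`: then `Φ(b, a) Φ(a, b) = 1`; compare with the antipode.) -/
def SpecDual : Prop :=
  ∀ (K : Type) [CommRing K] [Algebra ℚ K] (L : H →ₗ[ℚ] K), GrpLike L → (Pentagon fun w => L (wd w)) →
    ∀ w : List Bool, L (wd (w.reverse.map (!·))) = L (wd w)

/-- the letters `t_{ij}` -/
abbrev LT : Type := Fin 4 × Fin 4

/-- functionals on the words in the letters `t_{ij}` which vanish on the words of length `≥ N` and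
on the two-sided ideal generated by the infinitesimal braid relations -/
structure Inv {K : Type} [CommRing K] (N : ℕ) (μ : List LT → K) : Prop where
  nil : ∀ w, N ≤ w.length → μ w = 0
  symm : ∀ (u v : List LT) (i j : Fin 4), μ (u ++ (i, j) :: v) = μ (u ++ (j, i) :: v)
  comm : ∀ (u v : List LT) (i j k l : Fin 4), i ≠ j → i ≠ k → i ≠ l → j ≠ k → j ≠ l → k ≠ l →
    μ (u ++ (i, j) :: (k, l) :: v) = μ (u ++ (k, l) :: (i, j) :: v)
  rel : ∀ (u v : List LT) (i j k : Fin 4), i ≠ j → i ≠ k → j ≠ k →
    μ (u ++ (i, j) :: (i, k) :: v) + μ (u ++ (i, j) :: (j, k) :: v) =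
      μ (u ++ (i, k) :: (i, j) :: v) + μ (u ++ (j, k) :: (i, j) :: v)

/-- the sum of `F` over the words obtained from `u` by replacing the letters `x` by letters in the
list `A` and the letters `y` by letters in the list `B` -/
def ws {M : Type} [AddCommMonoid M] (A B : List LT) : List Bool → (List LT → M) → M
  | [], F => F []
  | false :: u, F => (A.map fun i => ws A B u fun w => F (i :: w)).sum
  | true :: u, F => (B.map fun i => ws A B u fun w => F (i :: w)).sum

/-- the sign of a word -/
def sg (u : List Bool) : ℚ := (-1) ^ u.count true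

/-- the relation of weight `m` given by the functional `μ` and the pentagon equation -/
noncomputable def hU (m : ℕ) (μ : List LT → ℚ) : H :=
  ∑ i ∈ range (m + 1), sumW i (fun u => sumW (m - i) fun v =>
      (sg u * sg v * ws [(0, 1)] [(1, 2), (1, 3)] u fun w₁ =>
        ws [(0, 2), (1, 2)] [(2, 3)] v fun w₂ => μ (w₁ ++ w₂)) • shuffle (wd u) (wd v)) -
  ∑ i ∈ range (m + 1), ∑ j ∈ range (m - i + 1), sumW i (fun u => sumW j fun v =>
    sumW (m - i - j) fun r => (sg u * sg v * sg r * ws [(1, 2)] [(2, 3)] u fun w₁ =>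
      ws [(0, 1), (0, 2)] [(1, 3), (2, 3)] v fun w₂ => ws [(0, 1)] [(1, 2)] r fun w₃ =>
        μ (w₁ ++ w₂ ++ w₃)) • shuffle (shuffle (wd u) (wd v)) (wd r))

/-- UNIA: these are relations of the real points.  (Apply the pentagon equation in the algebra of
the endomorphisms of the space of all real functionals `μ` with `Inv N μ`, where the letter `i`
acts by `(i μ)(w) = μ(w i)`.) -/
def SpecUniA : Prop :=
  ∀ (N m : ℕ) (μ : List LT → ℚ), m < N → Inv N μ → RB m (hU m μ)

/-- UNIC: these relations imply the pentagon equation, over all `ℚ`-algebras.  (Basis of the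
quotient of the space of combinations of words by the relations.) -/
def SpecUniC : Prop :=
  ∀ (K : Type) [CommRing K] [Algebra ℚ K] (L : H →ₗ[ℚ] K), GrpLike L →
    (∀ (N m : ℕ) (μ : List LT → ℚ), m < N → Inv N μ → L (hU m μ) = 0) → Pentagon fun w => L (wd w)

/-- the final statement -/
structure SpecFinal : Prop where
  /-- every relation satisfied by all real associators is a consequence of double shuffle -/
  assoc : ∀ (p : ℕ) (h : H), h ∈ H0 p →
    (∀ L : H →ₗ[ℚ] ℝ, GrpLike L → (Pentagon fun w => L (wd w)) → L h = 0) →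
      h ∈ Submodule.span ℚ (RDS p)
  /-- duality -/
  dual : ∀ w : List Bool, Adm w →
    wd w - wd (w.reverse.map (!·)) ∈ Submodule.span ℚ (RDS w.length)
  /-- double shuffle implies the pentagon equation -/
  pentagon : ∀ (K : Type) [CommRing K] [Algebra ℚ K] (L : H →ₗ[ℚ] K), GrpLike L →
    (∀ p, ∀ r ∈ RDS p, L r = 0) → Pentagon fun w => L (wd w)

end MP154526.Assoc
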