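import Pool.Agent.Lib.MP_154526_nt.Assoc.Spec
import Pool.Agent.Lib.MP_154526_nt.helper2.Defs
import Pool.Agent.Lib.MP_446dfa_ag.ddi.Official

/-!
# The double shuffle Lie algebra is `grt₁` and is free: exact statements of the modules

`MP154526.coef`, `MP154526.word`, `MP154526.starCoef`, `MP154526.IsDMR` are in `helper2/Defs.lean`;
`F2`, `gA`, `gB`, `ev`, `IsGRT`, `iharaBracket`, `IharaLie`, `toIhara` in
`MP_446dfa_ag/helper2/Defs.lean`, `wordCoeff`, `IsHomog` in `MP_446dfa_ag/ddi/Official.lean`.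
-/

set_option autoImplicit false

namespace MP154526.Assoc

open Finset MP154526.Low
open MP446 (F2 gA gB ev IsGRT iharaBracket IharaLie toIhara)
open MP446D (wordCoeff IsHomog)

/-- the functional on words given by a Lie polynomial -/
noncomputable def fn {K : Type} [Field K] (ψ : F2 K) (w : List Bool) : K :=
  MP154526.coef ψ (w.map fl)

/-- EVEN: the coefficients at `x^(n-1) y`, `n` even, vanish.  (Let `F(X, Y)` be the generating series
of the coefficients at `y_r y_s`, `r + s = n`, `a` the coefficient at `y_n`: shuffle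
`F(X+Y, Y) + F(X+Y, X) = 0`, stuffle `F(X, Y) + F(Y, X) + a (X^(n-1) - Y^(n-1)) / (X - Y) = 0`; at
`(1, -1)`: `F(0, 1) = 0`, at `(1, 0)`: `F(1, 0) = -a`, `F(1, 1) = a`, at `(1, 1)`: `(n + 1) a = 0`.) -/
def SpecEven : Prop :=
  ∀ (K : Type) [Field K] [CharZero K] (ψ : F2 K), MP154526.IsDMR ψ → ∀ n : ℕ, 2 ≤ n → Even n →
    MP154526.coef ψ (MP154526.word [n - 1]) = 0

/-- DWB (from EVEN): the components of an element of `dmr₀` -/
def SpecDWB : Prop :=
  ∀ (K : Type) [Field K] [CharZero K] (ψ : F2 K), MP154526.IsDMR ψ → ∀ n : ℕ, 3 ≤ n →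
    DW n (fn ψ)

/-- OFDW: converse (use `specStp` of `Low/STP.lean`) -/
def SpecOfDW : Prop :=
  ∀ (K : Type) [Field K] [CharZero K] (n : ℕ) (ψ : F2 K), IsHomog n ψ → DW n (fn ψ) →
    MP154526.IsDMR ψ

/-- `dmr₀` is a graded subspace -/
structure SpecGrad : Prop where
  add : ∀ (K : Type) [Field K] [CharZero K] (ψ χ : F2 K), MP154526.IsDMR ψ → MP154526.IsDMR χ →
    MP154526.IsDMR (ψ + χ)
  /-- homogeneous components, which are again in `dmr₀`; they start in degree three -/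
  comp : ∀ (K : Type) [Field K] [CharZero K] (ψ : F2 K), MP154526.IsDMR ψ →
    ∃ (N : ℕ) (c : ℕ → F2 K), (∀ n, IsHomog n (c n)) ∧ (∀ n, MP154526.IsDMR (c n)) ∧
      (∀ n, n < 3 → c n = 0) ∧ ψ = ∑ n ∈ range N, c n

/-- LINP (from KILL and the third part of `SpecFinal`, over the dual numbers `K[ε]`, for the point
`1 + ε ψ`; nilpotent elements: see `sig/DIFF.lean` (`shO`)): the linear pentagon equation -/
def SpecLinP : Prop :=
  ∀ (K : Type) [Field K] [CharZero K] (n : ℕ) (ψ : List Bool → K) (Q : MP446Y.AA K), DW n ψ →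
    (∀ w : List (Fin 2), MP446S.cf Q w =
      if w.length = n then (-1) ^ w.count 1 * ψ (w.map lf) else 0) →
    ∀ (E : Type) [Ring E] [Algebra K E] (t : Fin 4 → Fin 4 → E), MP446S.Braid t → MP446S.PLt t Q

/-- GRTB (from GRAD, DWB, LINP, and `sig`: `specS4`, `specF1`, `specF2`, `specF3`, `isGRT_of`) -/
def SpecGrtB : Prop :=
  ∀ (K : Type) [Field K] [CharZero K] (ψ : F2 K), MP154526.IsDMR ψ → IsGRT (ev (gA K) (-gB K) ψ)

/-- BRK (from GRAD, DWB, OFDW, `specShW`, `SpecStW`, `specTr`): Racinet's theorem for `IsDMR` -/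
def SpecBrk : Prop :=
  ∀ (K : Type) [Field K] [CharZero K] (ψ χ : F2 K), MP154526.IsDMR ψ → MP154526.IsDMR χ →
    MP154526.IsDMR (iharaBracket ψ χ)

/-- EXK (from EXG, OFDW, `sig`: `mm_Dyn`, `specDSW2`): elements over every field -/
def SpecExK : Prop :=
  ∀ (K : Type) [Field K] [CharZero K] (i : ℕ), ∃ σ : F2 K, MP154526.IsDMR σ ∧
    IsHomog (2 * i + 3) σ ∧ wordCoeff σ (List.replicate (2 * i + 2) 0 ++ [1]) ≠ 0

/-- TW: the substitution `y ↦ -y` and the Ihara bracket -/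
structure SpecTw : Prop where
  lie : ∀ (K : Type) [Field K] (ψ χ : F2 K), iharaBracket (ev (gA K) (-gB K) ψ)
    (ev (gA K) (-gB K) χ) = ev (gA K) (-gB K) (iharaBracket ψ χ)
  inv : ∀ (K : Type) [Field K] (ψ : F2 K), ev (gA K) (-gB K) (ev (gA K) (-gB K) ψ) = ψ
  coef : ∀ (K : Type) [Field K] (ψ : F2 K) (w : List (Fin 2)),
    wordCoeff (ev (gA K) (-gB K) ψ) w = (-1) ^ w.count 1 * wordCoeff ψ w

/-- the final statement -/
structure SpecFinalB : Prop where
  /-- `dmr₀ = grt₁` -/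
  eq : ∀ (K : Type) [Field K] [CharZero K] (ψ : F2 K),
    MP154526.IsDMR ψ ↔ IsGRT (ev (gA K) (-gB K) ψ)
  /-- elements of all odd weights -/
  ex : ∀ (K : Type) [Field K] [CharZero K], ∃ σ : ℕ → F2 K, (∀ i, MP154526.IsDMR (σ i)) ∧
    (∀ i, IsHomog (2 * i + 3) (σ i)) ∧
    ∀ i, wordCoeff (σ i) (List.replicate (2 * i + 2) 0 ++ [1]) ≠ 0
  /-- any such elements freely generate `dmr₀` -/
  free : ∀ (K : Type) [Field K] [CharZero K] (σ : ℕ → F2 K), (∀ i, MP154526.IsDMR (σ i)) →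
    (∀ i, IsHomog (2 * i + 3) (σ i)) →
    (∀ i, wordCoeff (σ i) (List.replicate (2 * i + 2) 0 ++ [1]) ≠ 0) →
    Function.Injective (FreeLieAlgebra.lift K (fun i => toIhara (σ i)) :
      FreeLieAlgebra K ℕ →ₗ⁅K⁆ IharaLie K) ∧
    Set.range (FreeLieAlgebra.lift K (fun i => toIhara (σ i)) :
      FreeLieAlgebra K ℕ →ₗ⁅K⁆ IharaLie K) = {z | MP154526.IsDMR (toIhara.symm z)}

end MP154526.Assoc
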