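import Pool.Agent.Lib.MP_154526_nt.Assoc.LieSh

/-!
# TW: the substitution `y ↦ -y` and the Ihara bracket
-/

set_option autoImplicit false

namespace MP154526.Assoc.TwM

open MP154526.Low MP154526.Assoc
open MP446 (F2 gA gB ev IsGRT iharaBracket IharaLie toIhara F2_induction der_gA der_gB)
open MP446D (wordCoeff IsHomog)

attribute [local instance 100] LieRing.ofAssociativeRing

variable {K : Type} [Field K]

/-- the substitution `y ↦ -y` -/
noncomputable abbrev ta (K : Type) [Field K] : F2 K →ₗ⁅K⁆ F2 K := ev (gA K) (-gB K)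

theorem ta_A : ta K (gA K) = gA K := MP446S.ev_gA _ _

theorem ta_B : ta K (gB K) = -gB K := MP446S.ev_gB _ _

theorem ta_ta (ψ : F2 K) : ta K (ta K ψ) = ψ := by
  induction ψ using F2_induction with
  | hA => rw [ta_A, ta_A]
  | hB => rw [ta_B, map_neg, ta_B, neg_neg]
  | hadd x y hx hy => rw [map_add, map_add, hx, hy]
  | hsmul c x hx => rw [map_smul, map_smul, hx]
  | hlie x y hx hy => rw [LieHom.map_lie, LieHom.map_lie, hx, hy]

theorem ta_der (s t : F2 K) : ta K (MP446.der s t) = MP446.der (ta K s) (ta K t) := by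
  induction t using F2_induction with
  | hA => rw [der_gA, map_zero, ta_A, der_gA]
  | hB => rw [der_gB, LieHom.map_lie, ta_B, map_neg, der_gB, neg_lie]
  | hadd x y hx hy => rw [map_add, map_add, hx, hy, map_add, map_add]
  | hsmul c x hx => rw [map_smul, map_smul, hx, map_smul, map_smul]
  | hlie x y hx hy =>
    rw [LieDerivation.apply_lie_eq_add, map_add, LieHom.map_lie, LieHom.map_lie, hx, hy,
      LieHom.map_lie, LieDerivation.apply_lie_eq_add]

theorem cf_ta (ψ : F2 K) (w : List (Fin 2)) :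
    MP446S.cf (MP446Y.assoc K (ta K ψ)) w = (-1) ^ w.count 1 * MP446S.cf (MP446Y.assoc K ψ) w := by
  have h1 : MP446Y.assoc K (ta K ψ) =
      MP446Y.EV (MP446Y.lt K 0) (-MP446Y.lt K 1) (MP446Y.assoc K ψ) := by
    rw [MP446S.map_ev, MP446Y.assoc_gA, map_neg, MP446Y.assoc_gB, MP446Y.ev_eq_EV]
  rw [h1]
  generalize MP446Y.assoc K ψ = X
  induction X using MP446S.AA_lin with
  | how u =>
    have h : ∀ u : List (Fin 2), MP446Y.EV (MP446Y.lt K 0) (-MP446Y.lt K 1) (MP446Y.ow K u) =
        (-1 : K) ^ u.count 1 • MP446Y.ow K u := by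
      intro u
      rw [MP446Y.EV_ow]
      induction u with
      | nil => simp
      | cons i u ih =>
        rw [List.map_cons, List.prod_cons, ih, MP446Y.ow_cons]
        fin_cases i
        · change MP446Y.lt K 0 * _ = (-1 : K) ^ (0 :: u).count 1 • (MP446Y.lt K 0 * _)
          rw [List.count_cons_of_ne (by decide), mul_smul_comm]
        · change -MP446Y.lt K 1 * _ = (-1 : K) ^ (1 :: u).count 1 • (MP446Y.lt K 1 * _)
          rw [List.count_cons_self, mul_smul_comm, pow_succ, neg_mul, smul_neg, mul_neg_one,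
            neg_smul]
    rw [h, MP446S.cf_smul, MP446S.cf_ow]
    by_cases h2 : u = w
    · rw [if_pos h2, h2]
    · rw [if_neg h2, mul_zero, mul_zero]
  | hadd X Y hX hY => rw [map_add, MP446S.cf_add, MP446S.cf_add, hX, hY, mul_add]
  | hsmul c X hX => rw [map_smul, MP446S.cf_smul, MP446S.cf_smul, hX]; ring

end MP154526.Assoc.TwM

namespace MP154526.Assoc

open TwM

/-- TW -/
theorem specTw : SpecTw where
  lie K _ ψ χ := by
    unfold MP446.iharaBracket
    rw [map_sub, map_add, LieHom.map_lie, ta_der, ta_der]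
  inv K _ ψ := ta_ta ψ
  coef K _ ψ w := by
    rw [LieShM.wordCoeff_eq, LieShM.wordCoeff_eq]
    exact cf_ta ψ w

end MP154526.Assoc
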